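import Pool.Agent.Y121.AH.Defs
import Pool.Agent.Y133.Half.PwDefs

/-!
# Galois actions on the cohomology of the powers of a variety, Tate classes, weak Hodge operators

In the intended use `k` is an algebraic closure of a field `k₁` which is finitely generated over `ℚ`,
`X` is an abelian variety over `k` with a model over `k₁`, `W` is the `ℓ`-adic cohomology with
coefficients in `ℚ_ℓ`, the group is the Galois group of `k` over `k₁`, and `Ω` is an algebraic closure
of `ℚ_ℓ`. Tate twists are suppressed. `pw X n` is the product of `n + 1` copies of `X`.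
-/

open CategoryTheory AlgebraicGeometry TensorProduct

universe u

namespace Pool.Agent.P8H28.SQ

open Pool.Agent.H914 Pool.Agent.H914.VarClass Pool.Agent.H914.VarClass.Obj
  Pool.Agent.H914.WeilCohomology
open Pool.Agent.Y133.Half (pw)
open Pool.Agent.Y121.AH (em)

variable {k : Type u} [Field k] {𝒱 : VarClass k} {ops : CycleOps 𝒱}

/-- A group `Γ` with a character `χ` which acts on the cohomology algebras of all powers of `X` like the
Galois group of a field over which `X` is defined (`χ` is the action on `H^2` of the projective line):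
the actions preserve the degrees and the orientations, and commute with the pull-backs along
the projections. -/
structure GaloisPowers (W : WeilCohomology.{u, 0} ops) (X : 𝒱.Obj) where
  /-- the group -/
  Γ : Type
  [group : Group Γ]
  /-- the character -/
  χ : Γ →* W.Kˣ
  /-- the action on the cohomology of the product of `n + 1` copies of `X` -/
  ρ : ∀ n, Γ →* (W.H (pw X n) ≃ₐ[W.K] W.H (pw X n))
  gr : ∀ n g i c, c ∈ W.gr (pw X n) i → ρ n g c ∈ W.gr (pw X n) i
  tr : ∀ n g c, W.tr (pw X n) (ρ n g c) = (χ g : W.K) ^ (pw X n).dim * W.tr (pw X n) c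
  fst : ∀ n g c, ρ (n + 1) g (W.map (fst (pw X n) X) c) = W.map (fst (pw X n) X) (ρ n g c)
  snd : ∀ n g c, ρ (n + 1) g (W.map (snd (pw X n) X) c) = W.map (snd (pw X n) X) (ρ 0 g c)

attribute [instance] GaloisPowers.group

variable {W : WeilCohomology.{u, 0} ops} {X : 𝒱.Obj}

/-- The class `c` of codimension `j` on the product of `n + 1` copies of `X` is a Tate class: some
subgroup of finite index acts on it by `χ ^ j`. -/
def IsTate (G : GaloisPowers W X) (n j : ℕ) (c : W.H (pw X n)) : Prop :=
  c ∈ W.gr (pw X n) (2 * j) ∧ ∃ Δ : Subgroup G.Γ, Δ.FiniteIndex ∧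
    ∀ g ∈ Δ, G.ρ n g c = (G.χ g : W.K) ^ j • c

/-- The Tate conjecture for the product of `n + 1` copies of `X`: every Tate class is a linear
combination of classes of algebraic cycles. -/
def TateConjecture (G : GaloisPowers W X) (n : ℕ) : Prop :=
  ∀ (j : ℕ) (c : W.H (pw X n)), IsTate G n j c →
    c ∈ Submodule.span W.K {x | ∃ z, (pw X n).IsCyc j z ∧ W.cl (pw X n) z = x}

/-- Semisimplicity: for every subgroup of finite index, every stable subspace of the cohomology of
`X` has a stable complement. -/
def Semisimple (G : GaloisPowers W X) : Prop :=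
  ∀ Δ : Subgroup G.Γ, Δ.FiniteIndex → ∀ U : Submodule W.K (W.H (pw X 0)),
    (∀ g ∈ Δ, ∀ x ∈ U, G.ρ 0 g x ∈ U) →
      ∃ U' : Submodule W.K (W.H (pw X 0)), (∀ g ∈ Δ, ∀ x ∈ U', G.ρ 0 g x ∈ U') ∧ IsCompl U U'

/-- A *weak Hodge operator*, with coefficients extended to `Ω`: a family of derivations `N n` of the
cohomology algebras of the powers of `X`, compatible with the pull-backs along the projections, whose
restriction to `H^1(X)` is an idempotent, and which multiply the Tate classes of codimension `j`
by `j`. (The operator `N` with the eigenvalue `p` on `H^(p,q)` has these properties if Hodge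
classes and Tate classes are the same. In general the weak Hodge operators are the idempotents `N` of
the Lie algebra of the algebraic monodromy group for which `t ↦ t ^ N` is a weak Hodge
cocharacter.) -/
structure WeakHodge (G : GaloisPowers W X) (Ω : Type) [Field Ω] [Algebra W.K Ω] where
  /-- the derivations -/
  N : ∀ n, (baseW W Ω).H (pw X n) →ₗ[(baseW W Ω).K] (baseW W Ω).H (pw X n)
  der : ∀ n a b, N n (a * b) = N n a * b + a * N n b
  fst : ∀ n c, N (n + 1) ((baseW W Ω).map (fst (pw X n) X) c) =
    (baseW W Ω).map (fst (pw X n) X) (N n c)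
  snd : ∀ n c, N (n + 1) ((baseW W Ω).map (snd (pw X n) X) c) =
    (baseW W Ω).map (snd (pw X n) X) (N 0 c)
  idem : ∀ v ∈ (baseW W Ω).gr X 1, N 0 v ∈ (baseW W Ω).gr X 1 ∧ N 0 (N 0 v) = N 0 v
  tate : ∀ n j c, IsTate G n j c → N n (em W Ω c) = (j : (baseW W Ω).K) • em W Ω c

/-- The action of `g` on the cohomology with coefficients extended to `Ω`. -/
noncomputable def extAct (G : GaloisPowers W X) (Ω : Type) [Field Ω] [Algebra W.K Ω] (n : ℕ)
    (g : G.Γ) : (baseW W Ω).H (pw X n) →ₗ[(baseW W Ω).K] (baseW W Ω).H (pw X n) :=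
  (G.ρ n g).toLinearMap.baseChange Ω

/-- The weak Hodge operators generate the connected monodromy group: every subspace of the
cohomology of a power of `X` which is stable under all weak Hodge operators is stable under a subgroup
of finite index. -/
def WeakHodgeGenerate (G : GaloisPowers W X) (Ω : Type) [Field Ω] [Algebra W.K Ω] : Prop :=
  ∀ (n : ℕ) (U : Submodule (baseW W Ω).K ((baseW W Ω).H (pw X n))),
    (∀ N : WeakHodge G Ω, ∀ x ∈ U, N.N n x ∈ U) →
      ∃ Δ : Subgroup G.Γ, Δ.FiniteIndex ∧ ∀ g ∈ Δ, ∀ x ∈ U, extAct G Ω n g x ∈ U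

end Pool.Agent.P8H28.SQ
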