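import Pool.Agent.P8H28.SQ.Defs
import Pool.Agent.Y121.AHS.Defs

/-!
# Hodge classes and Tate classes, the theorem on the centres: definitions

The intended use: see the file `Defs`. Moreover `T` is the theory `X ↦ H(X(ℂ), ℚ)` for an embedding of
`k` into the complex numbers, and the `ℓ`-adic cohomology is identified with the cohomology of
`T` with coefficients extended to `L = ℚ_ℓ`.
-/

open CategoryTheory AlgebraicGeometry

universe u

namespace Pool.Agent.P8H28.SQ

open Pool.Agent.H914 Pool.Agent.H914.VarClass Pool.Agent.H914.VarClass.Obj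
  Pool.Agent.H914.WeilCohomology
open Pool.Agent.Y133.Half (pw)
open Pool.Agent.Y121.AH (em)
open Pool.Agent.Y121.AHS (HodgeTheory IsHodge)

variable {k : Type u} [Field k] {𝒱 : VarClass k} {ops : CycleOps 𝒱} (T : HodgeTheory ops)
  {X : 𝒱.Obj} {L : Type} [Field L] [Algebra T.W.K L]

/-- The coefficient field of `baseW W L` is `L`. -/
@[reducible] noncomputable def algBase {W : WeilCohomology.{u, 0} ops} {L : Type} [Field L]
    [Algebra W.K L] {Ω : Type} [Field Ω] [Algebra L Ω] : Algebra (baseW W L).K Ω :=
  inferInstanceAs (Algebra L Ω)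

/-- The Hodge classes on the powers of `X` are Tate classes. (Deligne's theorem, if `X` is an abelian
variety.) -/
def HodgeAreTate (G : GaloisPowers (baseW T.W L) X) : Prop :=
  ∀ (n j : ℕ) (c : T.W.H (pw X n)), IsHodge T (pw X n) j c → IsTate G n j (em T.W L c)

/-- Every Tate class of codimension `j` on the product of `n + 1` copies of `X` is a linear
combination of Hodge classes. -/
def TateFromHodge (G : GaloisPowers (baseW T.W L) X) (n j : ℕ) : Prop :=
  ∀ c : (baseW T.W L).H (pw X n), IsTate G n j c →
    c ∈ Submodule.span (baseW T.W L).K {x | ∃ h, IsHodge T (pw X n) j h ∧ x = em T.W L h}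

/-- The statement that the Mumford-Tate group and the algebraic monodromy group have the same centre,
up to finite index: let `N n` be derivations of the cohomology algebras of the powers of `X`, compatible
with the pull-backs along the projections, which preserve `H^1(X)`, commute with a subgroup of
finite index, and multiply the Hodge classes of codimension `j` by `j m`. Then they multiply the
Tate classes of codimension `j` by `j m`. (This is a theorem for abelian varieties: Serre, Vasiu,
Ullmo-Yafaev.) -/
def CentresAgree (G : GaloisPowers (baseW T.W L) X) (Ω : Type) [Field Ω]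
    [Algebra (baseW T.W L).K Ω] : Prop :=
  ∀ (m : (baseW (baseW T.W L) Ω).K) (N : ∀ n, (baseW (baseW T.W L) Ω).H (pw X n)
      →ₗ[(baseW (baseW T.W L) Ω).K] (baseW (baseW T.W L) Ω).H (pw X n)),
    (∀ n a b, N n (a * b) = N n a * b + a * N n b) →
    (∀ n c, N (n + 1) ((baseW (baseW T.W L) Ω).map (fst (pw X n) X) c) =
      (baseW (baseW T.W L) Ω).map (fst (pw X n) X) (N n c)) →
    (∀ n c, N (n + 1) ((baseW (baseW T.W L) Ω).map (snd (pw X n) X) c) =
      (baseW (baseW T.W L) Ω).map (snd (pw X n) X) (N 0 c)) →
    (∀ v ∈ (baseW (baseW T.W L) Ω).gr X 1, N 0 v ∈ (baseW (baseW T.W L) Ω).gr X 1) →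
    (∃ Δ : Subgroup G.Γ, Δ.FiniteIndex ∧ ∀ g ∈ Δ, ∀ v ∈ (baseW (baseW T.W L) Ω).gr X 1,
      N 0 (extAct G Ω 0 g v) = extAct G Ω 0 g (N 0 v)) →
    (∀ n j c, IsHodge T (pw X n) j c → N n (em (baseW T.W L) Ω (em T.W L c)) =
      (j * m : (baseW (baseW T.W L) Ω).K) • em (baseW T.W L) Ω (em T.W L c)) →
    ∀ n j c, IsTate G n j c → N n (em (baseW T.W L) Ω c) =
      (j * m : (baseW (baseW T.W L) Ω).K) • em (baseW T.W L) Ω c

end Pool.Agent.P8H28.SQ
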