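import Pool.Agent.P8H28.SQ.Cen4
import Pool.Agent.P8H28.SQ.Defs2
import Pool.Agent.N996.FP.FinS

/-!
# The square of an abelian variety and the Tate conjecture: conclusion
-/

set_option linter.unusedSectionVars false

open CategoryTheory AlgebraicGeometry TensorProduct

universe u

namespace Pool.Agent.P8H28.SQ

open Module
open Pool.Agent.Y121.AH (em em_gr em_injective em_map em_cl)
open Pool.Agent.Y121.AHS (toH HodgeTheory IsHodge)
open Pool.Agent.N996.FP
open Pool.Agent.Y133.Half (pw)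
open Pool.Agent.H914 Pool.Agent.H914.VarClass Pool.Agent.H914.VarClass.Obj
  Pool.Agent.H914.WeilCohomology

variable {k : Type u} [Field k] {𝒱 : VarClass k} {ops : CycleOps 𝒱} {T : HodgeTheory ops}
  {X : 𝒱.Obj} {L Ω : Type} [Field L] [Algebra T.W.K L] [Field Ω]
  [Algebra (baseW T.W L).K Ω]

/-- Every Tate class of codimension `dim X` on `X × X` in the Künneth component of bidegree
`(i, j)` is a combination of Hodge classes. -/
def KFrom (T : HodgeTheory ops) {X : 𝒱.Obj} {L : Type} [Field L] [Algebra T.W.K L]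
    (G : GaloisPowers (baseW T.W L) X) (i j : ℕ) : Prop :=
  ∀ c : (baseW T.W L).H (pw X 1), IsTate G 1 X.dim c → c ∈ KC (baseW T.W L) X X i j →
    c ∈ Submodule.span (baseW T.W L).K {x | ∃ h, IsHodge T (pw X 1) X.dim h ∧ x = em T.W L h}

/-- The theorem on the annihilators, if the centres agree. -/
theorem main_centre [IsAlgClosed Ω] [Algebra.IsAlgebraic (baseW T.W L).K Ω]
    (hX : AbType T.W X) {G : GaloisPowers (baseW T.W L) X}
    (hD : HodgeAreTate T G) (hS : Semisimple G) (hW : WeakHodgeGenerate G Ω)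
    (hM : KFrom T G X.dim X.dim) (hC : CentresAgree T G Ω) (n j : ℕ) :
    TateFromHodge T G n j := by
  intro c hc
  let i1 : Algebra (toH T).W.K L := ‹Algebra T.W.K L›
  let i2 : Algebra (baseW (toH T).W L).K Ω := ‹Algebra (baseW T.W L).K Ω›
  have i3 : Algebra.IsAlgebraic (baseW (toH T).W L).K Ω :=
    ‹Algebra.IsAlgebraic (baseW T.W L).K Ω›
  have i4 : IsAlgClosed (baseW (baseW (toH T).W L) Ω).K := ‹IsAlgClosed Ω›
  have hdat := dat (T := toH T) (Ω := Ω) hX hD hS hW hM
  refine tate_mem (T := toH T) (Ω := Ω) hX hD (hdat.eq_of_centre ?_) hc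
  rintro Z ⟨m, hm⟩ ⟨Δ, hΔ, h1⟩
  refine ⟨m, ?_⟩
  have hX2 : AbType (baseW (baseW T.W L) Ω) X := (hX.base L).base Ω
  have h2 := hC m (fun n => DL hX2 n Z) (fun n => DL_der hX2 Z n) (DL_fst hX2 Z) (DL_snd hX2 Z)
    (fun v hv => DL_gr hX2 Z 0 1 v hv) ⟨Δ, hΔ, fun g hg v hv => by
      have h3 := h1 g hg v
      rw [base_rho] at h3
      have h4 : ext0 Z v = der0 hX2 Z v :=
        (ext0_same Z ⟨v, hv⟩).trans (der0_apply hX2 Z ⟨v, hv⟩).symm
      have hv' : extAct G Ω 0 g v ∈ (baseW (baseW T.W L) Ω).gr X 1 := by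
        have h5 := (G.base Ω).gr 0 g 1 v hv
        rw [base_rho] at h5
        exact h5
      have h6 : ext0 Z (extAct G Ω 0 g v) = der0 hX2 Z (extAct G Ω 0 g v) :=
        (ext0_same Z ⟨_, hv'⟩).trans (der0_apply hX2 Z ⟨_, hv'⟩).symm
      have h7 : ext0 Z (extAct G Ω 0 g v) = extAct G Ω 0 g (ext0 Z v) := h3
      rw [h6, h4] at h7
      exact h7⟩ (fun n j c hc => hm n j _ ⟨c, hc, rfl⟩)
  rintro n j _ ⟨c, hc, rfl⟩
  exact h2 n j c hc

/-- The theorem on the annihilators, if the centre is self-adjoint. -/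
theorem main_sa [IsAlgClosed Ω] [Algebra.IsAlgebraic (baseW T.W L).K Ω]
    (hX : AbType T.W X) {G : GaloisPowers (baseW T.W L) X}
    (hD : HodgeAreTate T G) (hS : Semisimple G) (hW : WeakHodgeGenerate G Ω)
    (hM : KFrom T G X.dim X.dim) (hF : KFrom T G (2 * X.dim - 1) 1)
    {ψ : RForm T.W X} (hψ : IsPolarisation T X ψ)
    (hC : SelfAdjointCentre T X ψ) (n j : ℕ) :
    TateFromHodge T G n j := by
  intro c hc
  let i1 : Algebra (toH T).W.K L := ‹Algebra T.W.K L›
  let i2 : Algebra (baseW (toH T).W L).K Ω := ‹Algebra (baseW T.W L).K Ω›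
  have i3 : Algebra.IsAlgebraic (baseW (toH T).W L).K Ω :=
    ‹Algebra.IsAlgebraic (baseW T.W L).K Ω›
  have i4 : IsAlgClosed (baseW (baseW (toH T).W L) Ω).K := ‹IsAlgClosed Ω›
  have hdat := dat (T := toH T) (Ω := Ω) hX hD hS hW hM
  refine tate_mem (T := toH T) (Ω := Ω) hX hD (hdat.eq_of_centre ?_) hc
  intro Z hZ hΔ
  exact centre_sa (hX := hX) hdat hF hψ hC hZ hΔ

/-- Trivial cohomology. -/
theorem pw_sub (h : Subsingleton (T.W.H X)) (n : ℕ) : Subsingleton (T.W.H (pw X n)) := by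
  induction n with
  | zero => exact h
  | succ n ih =>
    refine ⟨fun a b => ?_⟩
    have key : ∀ c : T.W.H ((pw X n).prod X), c = 0 := by
      intro c
      refine kun_ind (P := fun c => c = 0) ?_ ?_ c
      · intro i j a _ b _
        rw [Subsingleton.elim b 0, map_zero, mul_zero]
      · intro a b ha hb
        rw [ha, hb, add_zero]
    exact (key a).trans (key b).symm

/-- **The square decides whether the Tate classes on the powers come from Hodge classes.** -/
theorem main [IsAlgClosed Ω] [Algebra.IsAlgebraic (baseW T.W L).K Ω]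
    (hX : OfAbelianType T X) {G : GaloisPowers (baseW T.W L) X}
    (hD : HodgeAreTate T G) (hS : Semisimple G) (hW : WeakHodgeGenerate G Ω)
    {ψ : RForm T.W X} (hψ : IsPolarisation T X ψ)
    (hC : (SelfAdjointCentre T X ψ ∧ KFrom T G (2 * X.dim - 1) 1) ∨ CentresAgree T G Ω)
    (hM : KFrom T G X.dim X.dim) (n j : ℕ) : TateFromHodge T G n j := by
  rcases subsingleton_or_nontrivial (T.W.H X) with h0 | h0
  · intro c _
    have h1 := pw_sub h0 n
    have h2 : c = 0 := by
      refine tmul_induction (P := fun c : L ⊗[T.W.K] T.W.H (pw X n) => c = 0) rfl ?_ ?_ c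
      · rintro x y rfl rfl; rw [add_zero]
      · intro l a
        rw [Subsingleton.elim a 0, TensorProduct.tmul_zero]
    rw [h2]
    exact Submodule.zero_mem _
  · have hX' : AbType T.W X := ⟨hX.1, hX.2, h0⟩
    rcases hC with ⟨hC, hF⟩ | hC
    · exact main_sa hX' hD hS hW hM hF hψ hC n j
    · exact main_centre hX' hD hS hW hM hC n j

/-- A projection to `X`. -/
noncomputable def toX (X : 𝒱.Obj) : ∀ n : ℕ, (pw X n ⟶ X)
  | 0 => 𝟙 X
  | n + 1 => snd (pw X n) X

/-- The Tate conjecture for a power implies it for the smaller powers. -/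
theorem tate_pred {W : WeilCohomology.{u, 0} ops} {G : GaloisPowers W X} {n : ℕ}
    (h : TateConjecture G (n + 1)) : TateConjecture G n := by
  intro j c hc
  obtain ⟨hgr, Δ, hΔ, h1⟩ := hc
  have h2 : IsTate G (n + 1) j (W.map (fst (pw X n) X) c) := by
    refine ⟨W.map_mem (fst (pw X n) X) hgr, Δ, hΔ, fun g hg => ?_⟩
    rw [G.fst, h1 g hg]
    exact map_smul (W.map (fst (pw X n) X)) _ _
  have h3 := h j _ h2
  let s : pw X n ⟶ (pw X n).prod X := lift (𝟙 _) (toX X n)
  have h4 : W.map s (W.map (fst (pw X n) X) c) = c := by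
    have h5 := W.map_comp s (fst (pw X n) X) c
    rw [lift_fst, W.map_id] at h5
    exact h5.symm
  rw [← h4]
  have key : ∀ x : W.H ((pw X n).prod X), x ∈ Submodule.span W.K
      {x | ∃ z, ((pw X n).prod X).IsCyc j z ∧ W.cl ((pw X n).prod X) z = x} → W.map s x ∈
        Submodule.span W.K {x | ∃ z, (pw X n).IsCyc j z ∧ W.cl (pw X n) z = x} := by
    intro x hx
    induction hx using Submodule.span_induction with
    | mem x hx =>
      obtain ⟨z, hz, rfl⟩ := hx
      exact Submodule.subset_span ⟨ops.pull s z, ops.pull_mem s hz, W.cl_pull s z⟩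
    | zero => rw [map_zero]; exact Submodule.zero_mem _
    | add a b _ _ ha hb => rw [map_add]; exact Submodule.add_mem _ ha hb
    | smul r a _ ha => rw [map_smul]; exact Submodule.smul_mem _ _ ha
  exact key _ h3

theorem tate_le {W : WeilCohomology.{u, 0} ops} {G : GaloisPowers W X} {n m : ℕ} (hnm : n ≤ m)
    (h : TateConjecture G m) : TateConjecture G n := by
  induction m, hnm using Nat.le_induction with
  | base => exact h
  | succ m _ ih => exact ih (tate_pred h)

/-- The Tate conjecture implies that Tate classes come from Hodge classes. -/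
theorem from_of_tate {G : GaloisPowers (baseW T.W L) X} {n : ℕ} (h : TateConjecture G n) (j : ℕ) :
    TateFromHodge T G n j := by
  intro c hc
  refine Submodule.span_mono ?_ (h j c hc)
  rintro _ ⟨z, hz, rfl⟩
  exact ⟨T.W.cl (pw X n) z, T.cyc (pw X n) j z hz, rfl⟩

/-- The Tate conjecture implies the Hodge conjecture. -/
theorem hodge_of_tate {G : GaloisPowers (baseW T.W L) X} (hD : HodgeAreTate T G) {n : ℕ}
    (h : TateConjecture G n) : HodgeConjecture T (pw X n) := by
  intro j c hc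
  have h1 := h j _ (hD n j c hc)
  obtain ⟨φ, hφ⟩ : ∃ φ : L →ₗ[T.W.K] T.W.K, φ 1 = 1 := by
    obtain ⟨φ, hφ⟩ := LinearMap.exists_leftInverse_of_injective (Algebra.linearMap T.W.K L)
      (LinearMap.ker_eq_bot.2 (algebraMap T.W.K L).injective)
    refine ⟨φ, ?_⟩
    have h2 := LinearMap.congr_fun hφ 1
    rw [LinearMap.comp_apply, Algebra.linearMap_apply, map_one] at h2
    exact h2
  have h2 := sl_span (W := T.W) (L := L) (Y := pw X n)
    (S := {x | ∃ z, (pw X n).IsCyc j z ∧ T.W.cl (pw X n) z = x}) (by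
      rintro _ ⟨z, hz, rfl⟩
      exact ⟨_, Submodule.subset_span ⟨z, hz, rfl⟩, rfl⟩) h1 φ
  have h3 : sl φ ((1 : L) ⊗ₜ[T.W.K] c) = c := by rw [sl_tmul, hφ, one_smul]
  have h4 : c ∈ Submodule.span T.W.K {x | ∃ z, (pw X n).IsCyc j z ∧ T.W.cl (pw X n) z = x} := by
    rw [← h3]
    exact h2
  refine Pool.Agent.N996.BP.exists_cyc (Submodule.span_mono ?_ h4)
  rintro _ ⟨z, hz, rfl⟩
  exact ⟨j, rfl, z, hz, rfl⟩

/-- The Tate conjecture from the Hodge conjecture. -/
theorem tate_of_hodge {G : GaloisPowers (baseW T.W L) X} {n : ℕ}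
    (h : HodgeConjecture T (pw X n)) (h' : ∀ j, TateFromHodge T G n j) : TateConjecture G n := by
  intro j c hc
  refine Submodule.span_mono ?_ (h' j c hc)
  rintro _ ⟨x, hx, rfl⟩
  obtain ⟨z, hz, rfl⟩ := h j x hx
  exact ⟨z, hz, rfl⟩

/-- Every Tate class of codimension `dim X` on `X × X` in the Künneth component of bidegree
`(i, j)` is a combination of classes of algebraic cycles. -/
def KTate {W : WeilCohomology.{u, 0} ops} {X : 𝒱.Obj} (G : GaloisPowers W X) (i j : ℕ) : Prop :=
  ∀ c : W.H (pw X 1), IsTate G 1 X.dim c → c ∈ KC W X X i j →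
    c ∈ Submodule.span W.K {x | ∃ z, (pw X 1).IsCyc X.dim z ∧ W.cl (pw X 1) z = x}

theorem KTate.from {G : GaloisPowers (baseW T.W L) X} {i j : ℕ} (h : KTate G i j) :
    KFrom T G i j := by
  intro c hc hK
  refine Submodule.span_mono ?_ (h c hc hK)
  rintro _ ⟨z, hz, rfl⟩
  exact ⟨T.W.cl (pw X 1) z, T.cyc (pw X 1) X.dim z hz, rfl⟩

/-- **The Tate conjecture for all powers.** -/
theorem main_tate [IsAlgClosed Ω] [Algebra.IsAlgebraic (baseW T.W L).K Ω]
    (hX : OfAbelianType T X) {G : GaloisPowers (baseW T.W L) X}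
    (hD : HodgeAreTate T G) (hS : Semisimple G) (hW : WeakHodgeGenerate G Ω)
    {ψ : RForm T.W X} (hψ : IsPolarisation T X ψ)
    (hC : (SelfAdjointCentre T X ψ ∧ KFrom T G (2 * X.dim - 1) 1) ∨ CentresAgree T G Ω)
    {N : ℕ} (hN : AdmS T X ψ N) (hH : HodgeConjecture T (pw X (N - 1)))
    (hM : KTate G X.dim X.dim) (n : ℕ) :
    TateConjecture G n ∧ HodgeConjecture T (pw X n) := by
  have h1 := main hX hD hS hW hψ hC hM.from
  have h2 := hodge_admS hψ hX hN hH n
  exact ⟨tate_of_hodge h2 fun j => h1 n j, h2⟩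

end Pool.Agent.P8H28.SQ
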