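import Pool.Agent.P8H28.SQ.Engel

/-!
# The abstract form of the comparison of two Lie algebras
-/

namespace Pool.Agent.P8H28.SQ

open Module

variable {K V M : Type*} [Field K] [AddCommGroup V] [Module K V] [AddCommGroup M] [Module K M]
  [FiniteDimensional K V] [CharZero K]

/-- **Comparison of two Lie algebras.** Let `g` be a Lie subalgebra of `h`, with nondegenerate trace
form, which contains the idempotents in `P`. If the extremal vectors of the idempotents in `P` are
mapped by `h` to the `g`-modules which they generate, then every element of `h` is a sum of an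
element of `g` and an element which commutes with `P` and is orthogonal to `g`. -/
theorem compare {D : Module.End K V →ₗ[K] Module.End K M} (hD : IsRep D)
    {g h : Submodule K (Module.End K V)} (hg : IsLie g) (hh : IsLie h) (hgh : g ≤ h)
    (hrad : rad g = ⊥) (h1 : (1 : Module.End K V) ∈ g) {P : Set (Module.End K V)}
    (hP : ∀ p ∈ P, p ∈ g ∧ p * p = p ∧ ∃ u u' : M, Extremal D p u ∧ Extremal D (1 - p) u' ∧
      ∀ x ∈ h, ∀ W : Submodule K M, (∀ q ∈ P, ∀ w ∈ W, D q w ∈ W) →
        (u ∈ W → D x u ∈ W) ∧ (u' ∈ W → D x u' ∈ W))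
    {x : Module.End K V} (hx : x ∈ h) : ∃ y ∈ g, (∀ p ∈ P, p * (x - y) = (x - y) * p) ∧
      ∀ w ∈ g, LinearMap.trace K V (w * (x - y)) = 0 := by
  obtain ⟨y, hy, hxy⟩ := exists_orth hrad x
  refine ⟨y, hy, fun p hp => ?_, hxy⟩
  obtain ⟨hpg, hpp, u, u', hu, hu', hS⟩ := hP p hp
  have hz : x - y ∈ h := h.sub_mem hx (hgh hy)
  have h2 : p * (x - y) - (x - y) * p ∈ g := by
    refine core_bracket hg hD hu hu' hpg h1 hpp hh hgh (fun x hx W => ?_) hz
    have h3 : ∀ v, StableWith D g v W → ∀ q ∈ P, ∀ w ∈ W, D q w ∈ W :=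
      fun v hW q hq w hw => hW.2 q (hP q hq).1 w hw
    exact ⟨fun hW => (hS x hx W (h3 u hW)).1 hW.1, fun hW => (hS x hx W (h3 u' hW)).2 hW.1⟩
  have h4 : p * (x - y) - (x - y) * p ∈ rad g := by
    refine ⟨h2, fun w hw => ?_⟩
    rw [trace_assoc]
    exact hxy _ (hg w hw p hpg)
  rw [hrad, Submodule.mem_bot, sub_eq_zero] at h4
  exact h4

end Pool.Agent.P8H28.SQ
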