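import Mathlib

/-!
# Derivations of algebras generated by elements with square zero
-/

set_option linter.unusedSectionVars false

namespace Pool.Agent.P8H28.SQ

open Module

variable {K : Type*} [Field K]

/-- The linear map is a derivation. -/
def IsDer {A : Type*} [Ring A] [Algebra K A] (D : A →ₗ[K] A) : Prop :=
  ∀ a b, D (a * b) = D a * b + a * D b

section basic

variable {A : Type*} [Ring A] [Algebra K A]

theorem IsDer.one {D : A →ₗ[K] A} (h : IsDer D) : D 1 = 0 := by
  have h2 := h 1 1
  rw [mul_one, mul_one, one_mul] at h2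
  exact left_eq_add.1 h2

theorem IsDer.add {D D' : A →ₗ[K] A} (h : IsDer D) (h' : IsDer D') : IsDer (D + D') := by
  intro a b
  rw [LinearMap.add_apply, LinearMap.add_apply, LinearMap.add_apply, h, h']
  noncomm_ring

theorem IsDer.smul {D : A →ₗ[K] A} (h : IsDer D) (c : K) : IsDer (c • D) := by
  intro a b
  rw [LinearMap.smul_apply, LinearMap.smul_apply, LinearMap.smul_apply, h, smul_add,
    smul_mul_assoc, mul_smul_comm]

theorem IsDer.bracket {D D' : Module.End K A} (h : IsDer D) (h' : IsDer D') :
    IsDer (D * D' - D' * D : Module.End K A) := by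
  intro a b
  rw [LinearMap.sub_apply, LinearMap.sub_apply, LinearMap.sub_apply]
  simp only [Module.End.mul_apply]
  rw [h' a b, h a b, map_add, map_add, h, h, h', h']
  noncomm_ring

theorem IsDer.ext {D D' : A →ₗ[K] A} (h : IsDer D) (h' : IsDer D') {S : Set A}
    (hS : Algebra.adjoin K S = ⊤) (hDD : ∀ s ∈ S, D s = D' s) : D = D' := by
  refine LinearMap.ext fun a => ?_
  have ha : a ∈ Algebra.adjoin K S := by rw [hS]; trivial
  induction ha using Algebra.adjoin_induction with
  | mem x hx => exact hDD x hx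
  | algebraMap r =>
    rw [Algebra.algebraMap_eq_smul_one, map_smul, map_smul, h.one, h'.one]
  | add x y _ _ hx hy => rw [map_add, map_add, hx, hy]
  | mul x y _ _ hx hy => rw [h, h', hx, hy]

end basic

section ext

variable {V : Type*} [AddCommGroup V] [Module K V]

/-- The linear map `v ↦ v + ε x v`. -/
noncomputable def dualLin (x : Module.End K V) : V →ₗ[K] DualNumber (ExteriorAlgebra K V) where
  toFun v := TrivSqZeroExt.inl (ExteriorAlgebra.ι K v) + TrivSqZeroExt.inr (ExteriorAlgebra.ι K (x v))
  map_add' u v := by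
    rw [map_add, map_add, map_add, TrivSqZeroExt.inl_add, TrivSqZeroExt.inr_add]
    abel
  map_smul' c v := by
    rw [map_smul, map_smul, map_smul, RingHom.id_apply, smul_add, TrivSqZeroExt.inl_smul,
      TrivSqZeroExt.inr_smul]

theorem dualLin_sq (x : Module.End K V) (v : V) : dualLin x v * dualLin x v = 0 := by
  change (TrivSqZeroExt.inl (ExteriorAlgebra.ι K v) + TrivSqZeroExt.inr (ExteriorAlgebra.ι K (x v))) *
    (TrivSqZeroExt.inl (ExteriorAlgebra.ι K v) + TrivSqZeroExt.inr (ExteriorAlgebra.ι K (x v))) = 0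
  refine TrivSqZeroExt.ext ?_ ?_
  · rw [TrivSqZeroExt.fst_mul, TrivSqZeroExt.fst_add, TrivSqZeroExt.fst_inl, TrivSqZeroExt.fst_inr,
      add_zero, ExteriorAlgebra.ι_sq_zero, TrivSqZeroExt.fst_zero]
  · rw [TrivSqZeroExt.snd_mul, TrivSqZeroExt.fst_add, TrivSqZeroExt.fst_inl, TrivSqZeroExt.fst_inr,
      add_zero, TrivSqZeroExt.snd_add, TrivSqZeroExt.snd_inl, TrivSqZeroExt.snd_inr, zero_add,
      smul_eq_mul, MulOpposite.smul_eq_mul_unop, MulOpposite.unop_op, ExteriorAlgebra.ι_add_mul_swap,
      TrivSqZeroExt.snd_zero]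

/-- The algebra homomorphism `v ↦ v + ε x v`. -/
noncomputable def dualHom (x : Module.End K V) :
    ExteriorAlgebra K V →ₐ[K] DualNumber (ExteriorAlgebra K V) :=
  ExteriorAlgebra.lift K ⟨dualLin x, dualLin_sq x⟩

theorem fst_dualHom (x : Module.End K V) (a : ExteriorAlgebra K V) : (dualHom x a).fst = a := by
  have h : (TrivSqZeroExt.fstHom K (ExteriorAlgebra K V) (ExteriorAlgebra K V)).comp (dualHom x) =
      AlgHom.id K _ := by
    refine ExteriorAlgebra.hom_ext (LinearMap.ext fun v => ?_)
    change (dualHom x (ExteriorAlgebra.ι K v)).fst = ExteriorAlgebra.ι K v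
    rw [dualHom, ExteriorAlgebra.lift_ι_apply]
    change (TrivSqZeroExt.inl (ExteriorAlgebra.ι K v) +
      TrivSqZeroExt.inr (ExteriorAlgebra.ι K (x v)) : DualNumber _).fst = _
    rw [TrivSqZeroExt.fst_add, TrivSqZeroExt.fst_inl, TrivSqZeroExt.fst_inr, add_zero]
  exact congrArg (fun f : ExteriorAlgebra K V →ₐ[K] ExteriorAlgebra K V => f a) h

/-- The derivation of the exterior algebra extending `x`. -/
noncomputable def dEx (x : Module.End K V) : Module.End K (ExteriorAlgebra K V) where
  toFun a := (dualHom x a).snd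
  map_add' a b := by rw [map_add, TrivSqZeroExt.snd_add]
  map_smul' c a := by rw [map_smul, TrivSqZeroExt.snd_smul, RingHom.id_apply]

theorem dEx_der (x : Module.End K V) : IsDer (dEx x) := by
  intro a b
  change (dualHom x (a * b)).snd = (dualHom x a).snd * b + a * (dualHom x b).snd
  rw [map_mul, TrivSqZeroExt.snd_mul, fst_dualHom, fst_dualHom, smul_eq_mul,
    MulOpposite.smul_eq_mul_unop, MulOpposite.unop_op, add_comm]

theorem dEx_ι (x : Module.End K V) (v : V) :
    dEx x (ExteriorAlgebra.ι K v) = ExteriorAlgebra.ι K (x v) := by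
  change (dualHom x (ExteriorAlgebra.ι K v)).snd = _
  rw [dualHom, ExteriorAlgebra.lift_ι_apply]
  change (TrivSqZeroExt.inl (ExteriorAlgebra.ι K v) +
    TrivSqZeroExt.inr (ExteriorAlgebra.ι K (x v)) : DualNumber _).snd = _
  rw [TrivSqZeroExt.snd_add, TrivSqZeroExt.snd_inl, TrivSqZeroExt.snd_inr, zero_add]

end ext

section alg

variable {A : Type*} [Ring A] [Algebra K A] {V : Type*} [AddCommGroup V] [Module K V]

/-- The product. -/
def pL (L : V →ₗ[K] A) {k : ℕ} (v : Fin k → V) : A := (List.ofFn fun i => L (v i)).prod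

/-- The alternating map. -/
noncomputable def pA (L : V →ₗ[K] A) (hL : ∀ v, L v * L v = 0) (k : ℕ) : V [⋀^Fin k]→ₗ[K] A :=
  (ExteriorAlgebra.lift K ⟨L, hL⟩).toLinearMap.compAlternatingMap (ExteriorAlgebra.ιMulti K k)

lemma pA_apply (L : V →ₗ[K] A) (hL : ∀ v, L v * L v = 0) {k : ℕ} (v : Fin k → V) :
    pA L hL k v = pL L v := by
  rw [pA, LinearMap.compAlternatingMap_apply, ExteriorAlgebra.ιMulti_apply]
  rw [AlgHom.toLinearMap_apply, map_list_prod, List.map_ofFn, pL]
  congr 2
  funext i
  rw [Function.comp_apply, ExteriorAlgebra.lift_ι_apply]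

lemma pL_snoc (L : V →ₗ[K] A) {k : ℕ} (v : Fin k → V) (w : V) :
    pL L (Fin.snoc (α := fun _ => V) v w) = pL L v * L w := by
  rw [pL, List.ofFn_succ', List.concat_eq_append, List.prod_append, List.prod_singleton,
    Fin.snoc_last, pL]
  simp only [Fin.snoc_castSucc]

lemma pL_cons (L : V →ₗ[K] A) {k : ℕ} (v : Fin (k + 1) → V) :
    pL L v = L (v 0) * pL L (fun i => v i.succ) := by
  rw [pL, List.ofFn_succ, List.prod_cons, pL]

/-- Products of linearly independent vectors do not vanish. -/
lemma pL_ne [FiniteDimensional K V] (L : V →ₗ[K] A) (hL : ∀ v, L v * L v = 0)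
    (htop : ∃ v : Fin (Module.finrank K V) → V, pL L v ≠ 0) :
    ∀ (m k : ℕ), k + m = Module.finrank K V → ∀ v : Fin k → V, LinearIndependent K v →
      pL L v ≠ 0
  | 0, k, hk, v, hv => by
    obtain rfl : k = Module.finrank K V := by omega
    intro h0
    let e : Module.Basis (Fin (Module.finrank K V)) K V :=
      basisOfLinearIndependentOfCardEqFinrank' v hv (by simp)
    have he : ∀ i, e i = v i := fun i => by simp [e]
    have h1 : pA L hL (Module.finrank K V) = 0 := by
      refine e.ext_alternating fun w hw => ?_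
      have hw2 : Function.Bijective w := Finite.injective_iff_bijective.1 hw
      have h2 : (fun i => e (w i)) = v ∘ (Equiv.ofBijective w hw2) := by
        funext i
        rw [he]
        rfl
      rw [h2, AlternatingMap.map_perm, pA_apply, h0]
      simp
    obtain ⟨w, hw⟩ := htop
    apply hw
    rw [← pA_apply L hL, h1]
    rfl
  | m + 1, k, hk, v, hv => by
    intro h0
    obtain ⟨w, hw⟩ : ∃ w, w ∉ Submodule.span K (Set.range v) := by
      by_contra hcon
      push Not at hcon
      have h1 : Submodule.span K (Set.range v) = ⊤ := Submodule.eq_top_iff'.2 hcon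
      have h2 := finrank_span_eq_card hv
      rw [h1, finrank_top, Fintype.card_fin] at h2
      omega
    have h1 := pL_ne L hL htop m (k + 1) (by omega) (Fin.snoc (α := fun _ => V) v w)
      (linearIndependent_finSnoc.2 ⟨hv, hw⟩)
    rw [pL_snoc, h0, zero_mul] at h1
    exact h1 rfl

lemma pL_ne' [FiniteDimensional K V] (L : V →ₗ[K] A) (hL : ∀ v, L v * L v = 0)
    (htop : ∃ v : Fin (Module.finrank K V) → V, pL L v ≠ 0) {k : ℕ} (v : Fin k → V)
    (hv : LinearIndependent K v) : pL L v ≠ 0 := by
  have h1 := hv.fintype_card_le_finrank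
  rw [Fintype.card_fin] at h1
  exact pL_ne L hL htop (Module.finrank K V - k) k (by omega) v hv

/-- Derivations. -/
lemma der_pL (L : V →ₗ[K] A) {D : A →ₗ[K] A} (hD : IsDer D)
    (f : V → V) (hf : ∀ v, D (L v) = L (f v)) : ∀ {k : ℕ} (v : Fin k → V),
      D (pL L v) = ∑ j, pL L (Function.update v j (f (v j)))
  | 0, v => by
    rw [Fin.sum_univ_zero, pL, List.ofFn_zero, List.prod_nil, hD.one]
  | k + 1, v => by
    rw [pL_cons, hD, hf, der_pL L hD f hf, Fin.sum_univ_succ, pL_cons]
    have h1 : L (f (v 0)) * pL L (fun i => v i.succ) =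
        L (Function.update v 0 (f (v 0)) 0) *
          pL L (fun i : Fin k => Function.update v 0 (f (v 0)) i.succ) := by
      rw [Function.update_self]
      congr 1
    rw [h1, Finset.mul_sum]
    congr 1
    refine Finset.sum_congr rfl fun j _ => ?_
    rw [pL_cons, Function.update_of_ne (Fin.succ_ne_zero j).symm]
    congr 2
    funext i
    by_cases h : i = j
    · subst h
      rw [Function.update_self, Function.update_self]
    · rw [Function.update_of_ne h, Function.update_of_ne]
      intro h'
      exact h (Fin.succ_injective _ h')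

/-- An algebra generated by elements with square zero, with a nonzero product of maximal length, is
an exterior algebra. -/
theorem lift_bijective [FiniteDimensional K V] (L : V →ₗ[K] A) (hL : ∀ v, L v * L v = 0)
    (htop : ∃ v : Fin (Module.finrank K V) → V, pL L v ≠ 0)
    (hgen : Algebra.adjoin K (Set.range L) = ⊤) :
    Function.Bijective (ExteriorAlgebra.lift K ⟨L, hL⟩) := by
  constructor
  · rw [injective_iff_map_eq_zero]
    intro x hx
    by_contra hx0
    let b := finBasis K V
    let B := b.ExteriorAlgebra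
    -- minimal element of the support
    have hne : (B.repr x).support.Nonempty := by
      rw [Finsupp.support_nonempty_iff]
      exact fun h => hx0 (B.repr.map_eq_zero_iff.1 h)
    obtain ⟨s, hs, hmin⟩ := Finset.exists_min_image (B.repr x).support Finset.card hne
    have hdis : ∀ t ∈ (B.repr x).support, t ≠ s → ¬ Disjoint t sᶜ := by
      intro t ht hts hd
      rw [disjoint_compl_right_iff] at hd
      exact hts (Finset.eq_of_subset_of_card_le hd (hmin t ht))
    have h1 : x * B sᶜ = (B.repr x s) • (B s * B sᶜ) := by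
      conv_lhs => rw [← B.linearCombination_repr x]
      rw [Finsupp.linearCombination_apply, Finsupp.sum, Finset.sum_mul]
      rw [Finset.sum_eq_single s]
      · rw [smul_mul_assoc]
      · intro t ht hts
        have h2 := ExteriorAlgebra.basis_mul_of_not_disjoint b (⟨t, rfl⟩ : Set.powersetCard _ t.card)
          (⟨sᶜ, rfl⟩ : Set.powersetCard _ (sᶜ).card) (hdis t ht hts)
        rw [smul_mul_assoc]
        change _ • (B t * B sᶜ) = 0
        have h3 : B t * B sᶜ = 0 := h2
        rw [h3, smul_zero]
      · intro h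
        exact absurd hs h
    obtain ⟨S, hS⟩ : ∃ S : Set.powersetCard (Fin (finrank K V)) s.card, S.val = s := ⟨⟨s, rfl⟩, rfl⟩
    obtain ⟨T, hT⟩ : ∃ T : Set.powersetCard (Fin (finrank K V)) (sᶜ).card, T.val = sᶜ :=
      ⟨⟨sᶜ, rfl⟩, rfl⟩
    have hd : Disjoint S.val T.val := by rw [hS, hT]; exact disjoint_compl_right
    have h2 := ExteriorAlgebra.basis_mul_of_disjoint b S T hd
    rw [hS, hT] at h2
    have h4 := congrArg (ExteriorAlgebra.lift K ⟨L, hL⟩) h1
    rw [map_mul, hx, zero_mul, map_smul, h2, Units.smul_def, map_zsmul] at h4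
    have h5 : ExteriorAlgebra.lift K ⟨L, hL⟩ (b.ExteriorAlgebra (Set.powersetCard.disjUnion hd)) =
        pL L (b ∘ (Set.powersetCard.ofFinEmbEquiv.symm (Set.powersetCard.disjUnion hd))) := by
      rw [← pA_apply L hL, ExteriorAlgebra.basis_apply_powersetCard]
      rfl
    rw [h5] at h4
    have h6 := pL_ne' L hL htop _ (b.linearIndependent.comp _
      (Set.powersetCard.ofFinEmbEquiv.symm (Set.powersetCard.disjUnion hd)).injective)
    rcases Int.units_eq_one_or (Set.powersetCard.permOfDisjoint hd).sign with h7 | h7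
    · rw [h7, Units.val_one, one_smul] at h4
      rcases smul_eq_zero.1 h4.symm with h8 | h8
      · exact (Finsupp.mem_support_iff.1 hs) h8
      · exact h6 h8
    · rw [h7, Units.val_neg, Units.val_one, neg_smul, one_smul, smul_neg] at h4
      rcases smul_eq_zero.1 (neg_eq_zero.1 h4.symm) with h8 | h8
      · exact (Finsupp.mem_support_iff.1 hs) h8
      · exact h6 h8
  · rw [← AlgHom.range_eq_top, eq_top_iff, ← hgen]
    refine Algebra.adjoin_le ?_
    rintro _ ⟨v, rfl⟩
    exact ⟨ExteriorAlgebra.ι K v, ExteriorAlgebra.lift_ι_apply ..⟩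

/-- Existence of derivations. -/
theorem exists_der [FiniteDimensional K V] (L : V →ₗ[K] A) (hL : ∀ v, L v * L v = 0)
    (htop : ∃ v : Fin (Module.finrank K V) → V, pL L v ≠ 0)
    (hgen : Algebra.adjoin K (Set.range L) = ⊤) (x : Module.End K V) :
    ∃ D : Module.End K A, IsDer D ∧ ∀ v, D (L v) = L (x v) := by
  let e : ExteriorAlgebra K V ≃ₐ[K] A := AlgEquiv.ofBijective (ExteriorAlgebra.lift K ⟨L, hL⟩)
    (lift_bijective L hL htop hgen)
  have he : ∀ v, e (ExteriorAlgebra.ι K v) = L v := fun v => ExteriorAlgebra.lift_ι_apply ..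
  have he' : ∀ v, e.symm (L v) = ExteriorAlgebra.ι K v := fun v => by
    rw [← he, AlgEquiv.symm_apply_apply]
  refine ⟨e.toLinearMap ∘ₗ dEx x ∘ₗ e.symm.toLinearMap, fun a b => ?_, fun v => ?_⟩
  · change e (dEx x (e.symm (a * b))) = e (dEx x (e.symm a)) * b + a * e (dEx x (e.symm b))
    rw [map_mul, dEx_der, map_add, map_mul, map_mul, AlgEquiv.apply_symm_apply,
      AlgEquiv.apply_symm_apply]
  · change e (dEx x (e.symm (L v))) = L (x v)
    rw [he', dEx_ι, he]

/-- The derivation extending `x`, as a linear function of `x`. -/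
theorem exists_derLin [FiniteDimensional K V] (L : V →ₗ[K] A) (hL : ∀ v, L v * L v = 0)
    (htop : ∃ v : Fin (Module.finrank K V) → V, pL L v ≠ 0)
    (hgen : Algebra.adjoin K (Set.range L) = ⊤) :
    ∃ D : Module.End K V →ₗ[K] Module.End K A, ∀ x, IsDer (D x) ∧ ∀ v, D x (L v) = L (x v) := by
  choose D hD hDL using exists_der L hL htop hgen
  refine ⟨{ toFun := D, map_add' := fun x y => ?_, map_smul' := fun c x => ?_ },
    fun x => ⟨hD x, hDL x⟩⟩
  · refine (hD _).ext ((hD x).add (hD y)) hgen ?_
    rintro _ ⟨v, rfl⟩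
    rw [hDL, LinearMap.add_apply, LinearMap.add_apply, hDL, hDL, map_add]
  · refine (hD _).ext ((hD x).smul c) hgen ?_
    rintro _ ⟨v, rfl⟩
    rw [hDL, RingHom.id_apply, LinearMap.smul_apply, LinearMap.smul_apply, hDL, map_smul]

end alg

end Pool.Agent.P8H28.SQ
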