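import Pool.Agent.P8H28.SQ.Abs
import Pool.Agent.P8H28.SQ.Der

/-!
# Replicas of derivations and extremal vectors
-/

set_option linter.unusedSectionVars false

namespace Pool.Agent.P8H28.SQ

open Module

variable {K : Type*} [Field K]

section rep

variable {A : Type*} [Ring A] [Algebra K A]

theorem mge_mul {D : Module.End K A} (hD : IsDer D) {μ ν : K} {a b : A}
    (ha : a ∈ D.maxGenEigenspace μ) (hb : b ∈ D.maxGenEigenspace ν) :
    a * b ∈ D.maxGenEigenspace (μ + ν) := by
  have key : ∀ (N i j : ℕ), i + j ≤ N → ∀ a b : A, ((D - μ • (1 : Module.End K A)) ^ i) a = 0 →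
      ((D - ν • (1 : Module.End K A)) ^ j) b = 0 →
      ((D - (μ + ν) • (1 : Module.End K A)) ^ N) (a * b) = 0 := by
    intro N
    induction N with
    | zero =>
      intro i j hij a b ha hb
      obtain rfl : i = 0 := by omega
      rw [pow_zero, Module.End.one_apply] at ha
      rw [ha, zero_mul, map_zero]
    | succ N ih =>
      intro i j hij a b ha hb
      rcases i with _ | i
      · rw [pow_zero, Module.End.one_apply] at ha
        rw [ha, zero_mul, map_zero]
      rcases j with _ | j
      · rw [pow_zero, Module.End.one_apply] at hb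
        rw [hb, mul_zero, map_zero]
      have h1 : (D - (μ + ν) • (1 : Module.End K A)) (a * b) =
          (D - μ • (1 : Module.End K A)) a * b + a * (D - ν • (1 : Module.End K A)) b := by
        simp only [LinearMap.sub_apply, LinearMap.smul_apply, Module.End.one_apply]
        rw [hD, sub_mul, mul_sub, add_smul, smul_mul_assoc, mul_smul_comm]
        abel
      rw [pow_succ, Module.End.mul_apply, h1, map_add,
        ih i (j + 1) (by omega) _ _ (by rw [← Module.End.mul_apply, ← pow_succ]; exact ha) hb,
        ih (i + 1) j (by omega) _ _ ha (by rw [← Module.End.mul_apply, ← pow_succ]; exact hb),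
        add_zero]
  rw [Module.End.mem_maxGenEigenspace] at ha hb ⊢
  obtain ⟨i, ha⟩ := ha
  obtain ⟨j, hb⟩ := hb
  exact ⟨i + j, key _ i j le_rfl a b ha hb⟩

end rep

section rep2

variable {V : Type*} [AddCommGroup V] [Module K V]

/-- The vectors in the generalized eigenspace of `D` on which `D'` acts by `φ μ`. -/
def repS (φ : K → K) (D D' : Module.End K V) (μ : K) : Submodule K V where
  carrier := {a | a ∈ D.maxGenEigenspace μ ∧ D' a = φ μ • a}
  zero_mem' := ⟨Submodule.zero_mem _, by rw [map_zero, smul_zero]⟩
  add_mem' := fun ha hb => ⟨Submodule.add_mem _ ha.1 hb.1, by rw [map_add, ha.2, hb.2, smul_add]⟩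
  smul_mem' := fun c a ha => ⟨Submodule.smul_mem _ _ ha.1, by rw [map_smul, ha.2, smul_comm]⟩

theorem replica_of_top {φ : K → K} {D D' : Module.End K V} (h : ⨆ μ, repS φ D D' μ = ⊤) :
    IsReplica φ D D' := by
  intro μ a ha
  have h1 : a ∈ ⨆ μ, repS φ D D' μ := by rw [h]; trivial
  obtain ⟨g, hg, hsum⟩ := (Submodule.mem_iSup_iff_exists_finsupp _ _).1 h1
  have h6 : a - g μ ∈ (⨆ (ν : K) (_ : ν ≠ μ), D.maxGenEigenspace ν) := by
    classical
    have h7 : a - g μ = ∑ k ∈ g.support.erase μ, g k := by
      rw [← hsum, Finsupp.sum]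
      by_cases h8 : μ ∈ g.support
      · rw [← Finset.add_sum_erase _ _ h8, add_sub_cancel_left]
      · rw [Finsupp.notMem_support_iff.1 h8, sub_zero, Finset.erase_eq_of_notMem h8]
    rw [h7]
    refine Submodule.sum_mem _ fun k hk => ?_
    exact Submodule.mem_iSup_of_mem k (Submodule.mem_iSup_of_mem (Finset.mem_erase.1 hk).1
      (hg k).1)
  have h7 : a - g μ ∈ D.maxGenEigenspace μ := Submodule.sub_mem _ ha (hg μ).1
  have h8 := (D.independent_maxGenEigenspace μ).le_bot ⟨h7, h6⟩
  rw [Submodule.mem_bot, sub_eq_zero] at h8
  rw [h8]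
  exact (hg μ).2

theorem repS_of_replica {φ : K → K} {D D' : Module.End K V} (h : IsReplica φ D D') {μ : K} {a : V}
    (ha : a ∈ D.maxGenEigenspace μ) : a ∈ repS φ D D' μ := ⟨ha, h μ a ha⟩

end rep2

section extremal

variable {A : Type*} [Ring A] [Algebra K A] {V : Type*} [AddCommGroup V] [Module K V]
  [FiniteDimensional K V]

/-- The product of a basis of the image of an idempotent is extremal. -/
theorem exists_extremal (L : V →ₗ[K] A) (hL : ∀ v, L v * L v = 0)
    (htop : ∃ v : Fin (Module.finrank K V) → V, pL L v ≠ 0)
    {D : Module.End K V →ₗ[K] Module.End K A} (hD : ∀ x, IsDer (D x))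
    (hDL : ∀ x v, D x (L v) = L (x v)) {p : Module.End K V} (hp : p * p = p) :
    ∃ (r : ℕ) (e : Fin r → V), Extremal D p (pL L e) ∧ r = finrank K (LinearMap.range p) := by
  let R := LinearMap.range p
  let b := finBasis K R
  let e : Fin (finrank K R) → V := fun i => b i
  have hpe : ∀ v ∈ R, p v = v := by
    rintro _ ⟨w, rfl⟩
    rw [← Module.End.mul_apply, hp]
  have he : LinearIndependent K e := b.linearIndependent.map' R.subtype (Submodule.ker_subtype R)
  have hspan : ∀ v ∈ R, v ∈ Submodule.span K (Set.range e) := by
    intro v hv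
    have h1 := (b.sum_repr ⟨v, hv⟩).symm
    have h2 := congrArg (fun x : R => (x : V)) h1
    simp only [Submodule.coe_sum, Submodule.coe_smul] at h2
    rw [h2]
    exact Submodule.sum_mem _ fun i _ => Submodule.smul_mem _ _ (Submodule.subset_span ⟨i, rfl⟩)
  refine ⟨finrank K R, e, ⟨?_, ?_, ?_⟩, rfl⟩
  · intro x _ hx
    rw [der_pL L (hD x) x (hDL x)]
    refine Finset.sum_eq_zero fun j _ => ?_
    have h1 : x (e j) = 0 := by
      have h2 : p (e j) = e j := hpe _ (b j).2
      rw [← h2, ← Module.End.mul_apply, hx, LinearMap.zero_apply]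
    rw [← pA_apply L hL, h1]
    exact (pA L hL _).map_update_zero e j
  · intro x hx
    have key : ∀ v : Fin (finrank K R) → V, (∀ i, v i ∈ R) → ∃ c : K, pL L v = c • pL L e := by
      intro v hv
      have h1 : (pA L hL (finrank K R)).compLinearMap R.subtype =
          (LinearMap.toSpanSingleton K A (pL L e)).compAlternatingMap b.det := by
        refine b.ext_alternating fun w hw => ?_
        have hw2 : Function.Bijective w := Finite.injective_iff_bijective.1 hw
        have h2 : (fun i => b (w i)) = b ∘ (Equiv.ofBijective w hw2) := rfl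
        rw [h2, AlternatingMap.map_perm, AlternatingMap.map_perm,
          AlternatingMap.compLinearMap_apply, pA_apply, LinearMap.compAlternatingMap_apply,
          Module.Basis.det_self, LinearMap.toSpanSingleton_apply, one_smul]
        rfl
      refine ⟨b.det fun i => ⟨v i, hv i⟩, ?_⟩
      have h2 := congrArg (fun f : R [⋀^Fin (finrank K R)]→ₗ[K] A => f fun i => ⟨v i, hv i⟩) h1
      simp only [AlternatingMap.compLinearMap_apply, LinearMap.compAlternatingMap_apply,
        LinearMap.toSpanSingleton_apply, pA_apply] at h2
      exact h2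
    have h1 : ∀ j, ∃ c : K, pL L (Function.update e j (x (e j))) = c • pL L e := by
      intro j
      refine key _ fun i => ?_
      by_cases hij : i = j
      · rw [hij, Function.update_self]
        exact ⟨x (e j), by
          rw [← Module.End.mul_apply, hx, Module.End.mul_apply, hpe _ (b j).2]⟩
      · rw [Function.update_of_ne hij]
        exact (b i).2
    choose c hc using h1
    refine ⟨∑ j, c j, ?_⟩
    rw [der_pL L (hD x) x (hDL x), Finset.sum_smul]
    exact Finset.sum_congr rfl fun j _ => hc j
  · intro x hx1 hx2 hx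
    have h1 : ∀ j, x (e j) = 0 := by
      intro j
      have h2 : pL L e * L (e j) = 0 := by
        rw [← pL_snoc, ← pA_apply L hL]
        refine AlternatingMap.map_eq_zero_of_eq _ _ (i := Fin.castSucc j) (j := Fin.last _) ?_
          (Fin.castSucc_lt_last j).ne
        rw [Fin.snoc_castSucc, Fin.snoc_last]
      have h3 := hD x (pL L e) (L (e j))
      rw [h2, map_zero, hx, zero_mul, zero_add, hDL, ← pL_snoc] at h3
      have h4 : ¬ LinearIndependent K (Fin.snoc (α := fun _ => V) e (x (e j))) := fun h =>
        pL_ne' L hL htop _ h h3.symm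
      rw [linearIndependent_finSnoc] at h4
      push Not at h4
      have h5 := h4 he
      have h6 : x (e j) ∈ R := by
        refine (Submodule.span_le.2 ?_ : Submodule.span K (Set.range e) ≤ R) h5
        rintro _ ⟨i, rfl⟩
        exact (b i).2
      rw [← hpe _ h6, ← Module.End.mul_apply, hx1, LinearMap.zero_apply]
    refine LinearMap.ext fun v => ?_
    rw [← hx2, Module.End.mul_apply, LinearMap.zero_apply]
    have h2 := hspan (p v) ⟨v, rfl⟩
    generalize p v = w at h2
    induction h2 using Submodule.span_induction with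
    | mem w hw =>
      obtain ⟨i, rfl⟩ := hw
      exact h1 i
    | zero => rw [map_zero]
    | add a b _ _ ha hb => rw [map_add, ha, hb, add_zero]
    | smul c a _ ha => rw [map_smul, ha, smul_zero]

/-- The product of a basis of the image and a basis of the kernel of an idempotent. -/
theorem exists_split (L : V →ₗ[K] A) (hL : ∀ v, L v * L v = 0)
    (htop : ∃ v : Fin (Module.finrank K V) → V, pL L v ≠ 0)
    {D : Module.End K V →ₗ[K] Module.End K A} (hD : ∀ x, IsDer (D x))
    (hDL : ∀ x v, D x (L v) = L (x v)) {p : Module.End K V} (hp : p * p = p) :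
    ∃ v : Fin (finrank K (LinearMap.range p) + finrank K (LinearMap.ker p)) → V,
      pL L v ≠ 0 ∧ D p (pL L v) = (finrank K (LinearMap.range p) : K) • pL L v := by
  let R := LinearMap.range p
  let N := LinearMap.ker p
  let b := finBasis K R
  let b' := finBasis K N
  have hpe : ∀ v ∈ R, p v = v := by
    rintro _ ⟨w, rfl⟩
    rw [← Module.End.mul_apply, hp]
  let e : Fin (finrank K R) → V := fun i => b i
  let e' : Fin (finrank K N) → V := fun i => b' i
  have he : LinearIndependent K e := b.linearIndependent.map' R.subtype (Submodule.ker_subtype R)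
  have he' : LinearIndependent K e' :=
    b'.linearIndependent.map' N.subtype (Submodule.ker_subtype N)
  have hdis : Disjoint (Submodule.span K (Set.range e)) (Submodule.span K (Set.range e')) := by
    have h1 : Submodule.span K (Set.range e) ≤ R := by
      rw [Submodule.span_le]
      rintro _ ⟨i, rfl⟩
      exact (b i).2
    have h2 : Submodule.span K (Set.range e') ≤ N := by
      rw [Submodule.span_le]
      rintro _ ⟨i, rfl⟩
      exact (b' i).2
    refine Disjoint.mono h1 h2 ?_
    rw [Submodule.disjoint_def]
    intro x hx hx'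
    rw [← hpe x hx]
    exact hx'
  have hsum := he.sum_type he' hdis
  have happ : Fin.append e e' = Sum.elim e e' ∘ finSumFinEquiv.symm := by
    funext i
    rw [Function.comp_apply]
    refine Fin.addCases (fun i => ?_) (fun i => ?_) i
    · rw [Fin.append_left, finSumFinEquiv_symm_apply_castAdd]
      rfl
    · rw [Fin.append_right, finSumFinEquiv_symm_apply_natAdd]
      rfl
  have hli : LinearIndependent K (Fin.append e e') := by
    rw [happ]
    exact hsum.comp _ finSumFinEquiv.symm.injective
  refine ⟨Fin.append e e', pL_ne' L hL htop _ hli, ?_⟩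
  rw [der_pL L (hD p) p (hDL p), Fin.sum_univ_add]
  have h1 : ∀ i : Fin (finrank K R), pL L (Function.update (Fin.append e e') (Fin.castAdd _ i)
      (p (Fin.append e e' (Fin.castAdd _ i)))) = pL L (Fin.append e e') := by
    intro i
    congr 1
    rw [Fin.append_left, hpe _ (b i).2]
    have h2 := Function.update_eq_self (Fin.castAdd (finrank K N) i) (Fin.append e e')
    rw [Fin.append_left] at h2
    exact h2
  have h2 : ∀ i : Fin (finrank K N), pL L (Function.update (Fin.append e e') (Fin.natAdd _ i)
      (p (Fin.append e e' (Fin.natAdd _ i)))) = 0 := by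
    intro i
    have h3 : p (Fin.append e e' (Fin.natAdd _ i)) = 0 := by
      rw [Fin.append_right]
      exact (b' i).2
    rw [h3, ← pA_apply L hL]
    exact (pA L hL _).map_update_zero _ _
  rw [Finset.sum_congr rfl fun i _ => h1 i, Finset.sum_congr rfl fun i _ => h2 i,
    Finset.sum_const_zero, add_zero, Finset.sum_const, Finset.card_univ, Fintype.card_fin,
    Nat.cast_smul_eq_nsmul]

end extremal

end Pool.Agent.P8H28.SQ
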