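import Pool.Agent.P8H28.SQ.Pow
import Pool.Agent.P8H28.SQ.Rep

/-!
# Annihilators of classes on the powers
-/

set_option linter.unusedSectionVars false

open CategoryTheory AlgebraicGeometry TensorProduct

universe u v

namespace Pool.Agent.P8H28.SQ

open Module
open Pool.Agent.Y121.AH (dia dia_apply)
open Pool.Agent.Y133.Half (pw)
open Pool.Agent.H914 Pool.Agent.H914.VarClass Pool.Agent.H914.VarClass.Obj
  Pool.Agent.H914.WeilCohomology

variable {k : Type u} [Field k] {𝒱 : VarClass k} {ops : CycleOps 𝒱}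
  {W : WeilCohomology.{u, v} ops} {X Y : 𝒱.Obj}

section replica

theorem top_of_gen {A : Type*} [Ring A] [Algebra W.K A] {D D' : Module.End W.K A} {φ : W.K →+ W.K}
    (hD : IsDer D) (hD' : IsDer D') {S : Set A} (hS : Algebra.adjoin W.K S = ⊤)
    (hgen : ∀ s ∈ S, s ∈ ⨆ μ, repS φ D D' μ) : ⨆ μ, repS φ D D' μ = ⊤ := by
  rw [eq_top_iff]
  intro a _
  have ha : a ∈ Algebra.adjoin W.K S := by rw [hS]; trivial
  have hmul : ∀ a ∈ ⨆ μ, repS φ D D' μ, ∀ b ∈ ⨆ μ, repS φ D D' μ,
      a * b ∈ ⨆ μ, repS φ D D' μ := by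
    intro a ha b hb
    induction ha using Submodule.iSup_induction' with
    | mem μ a ha =>
      induction hb using Submodule.iSup_induction' with
      | mem ν b hb =>
        refine Submodule.mem_iSup_of_mem (μ + ν) ⟨mge_mul hD ha.1 hb.1, ?_⟩
        rw [hD', ha.2, hb.2, map_add, add_smul, smul_mul_assoc, mul_smul_comm]
      | zero => rw [mul_zero]; exact Submodule.zero_mem _
      | add x y _ _ hx hy => rw [mul_add]; exact Submodule.add_mem _ hx hy
    | zero => rw [zero_mul]; exact Submodule.zero_mem _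
    | add x y _ _ hx hy => rw [add_mul]; exact Submodule.add_mem _ hx hy
  have hone : (1 : A) ∈ ⨆ μ, repS φ D D' μ := by
    refine Submodule.mem_iSup_of_mem 0 ⟨?_, ?_⟩
    · rw [Module.End.mem_maxGenEigenspace]
      exact ⟨1, by rw [pow_one, LinearMap.sub_apply, hD.one, LinearMap.smul_apply, zero_smul,
        sub_zero]⟩
    · rw [hD'.one, map_zero, zero_smul]
  induction ha using Algebra.adjoin_induction with
  | mem x hx => exact hgen x hx
  | algebraMap r =>
    rw [Algebra.algebraMap_eq_smul_one]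
    exact Submodule.smul_mem _ _ hone
  | add x y _ _ hx hy => exact Submodule.add_mem _ (hx trivial) (hy trivial)
  | mul x y _ _ hx hy => exact hmul _ (hx trivial) _ (hy trivial)

theorem mge_map {V V' : Type*} [AddCommGroup V] [Module W.K V] [AddCommGroup V'] [Module W.K V']
    {D : Module.End W.K V} {D' : Module.End W.K V'} {f : V →ₗ[W.K] V'}
    (hf : ∀ v, D' (f v) = f (D v)) {μ : W.K} {v : V} (hv : v ∈ D.maxGenEigenspace μ) :
    f v ∈ D'.maxGenEigenspace μ := by
  rw [Module.End.mem_maxGenEigenspace] at hv ⊢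
  obtain ⟨n, hn⟩ := hv
  refine ⟨n, ?_⟩
  have h1 : ∀ n : ℕ, ∀ v, ((D' - μ • (1 : Module.End W.K V')) ^ n) (f v) =
      f (((D - μ • (1 : Module.End W.K V)) ^ n) v) := by
    intro n
    induction n with
    | zero => exact fun v => rfl
    | succ n ih =>
      intro v
      rw [pow_succ, pow_succ, Module.End.mul_apply, Module.End.mul_apply, ← ih]
      congr 1
      simp only [LinearMap.sub_apply, LinearMap.smul_apply, Module.End.one_apply, map_sub, map_smul,
        hf]
  rw [h1, hn, map_zero]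

theorem rep_map {V V' : Type*} [AddCommGroup V] [Module W.K V] [AddCommGroup V'] [Module W.K V']
    {D E : Module.End W.K V} {D' E' : Module.End W.K V'} {f : V →ₗ[W.K] V'} {φ : W.K → W.K}
    (hf : ∀ v, D' (f v) = f (D v)) (hf' : ∀ v, E' (f v) = f (E v)) {v : V}
    (hv : v ∈ ⨆ μ, repS φ D E μ) : f v ∈ ⨆ μ, repS φ D' E' μ := by
  induction hv using Submodule.iSup_induction' with
  | mem μ a ha =>
    refine Submodule.mem_iSup_of_mem μ ⟨mge_map hf ha.1, ?_⟩
    rw [hf', ha.2, map_smul]
  | zero => rw [map_zero]; exact Submodule.zero_mem _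
  | add x y _ _ hx hy => rw [map_add]; exact Submodule.add_mem _ hx hy

variable [IsAlgClosed W.K]

theorem rep_DL (hX : AbType W X) {φ : W.K →+ W.K} {x y : Module.End W.K (W.gr X 1)}
    (h : IsReplica φ x y) (n : ℕ) : ⨆ μ, repS φ (DL hX n x) (DL hX n y) μ = ⊤ := by
  have h0 : ⨆ μ, repS φ (der0 hX x) (der0 hX y) μ = ⊤ := by
    refine top_of_gen (der0_der hX x) (der0_der hX y) hX.gen fun v hv => ?_
    have h1 : (⟨v, hv⟩ : W.gr X 1) ∈ ⨆ μ, repS φ x y μ := by
      have h2 : (⟨v, hv⟩ : W.gr X 1) ∈ ⨆ μ, x.maxGenEigenspace μ := by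
        rw [x.iSup_maxGenEigenspace_eq_top]
        trivial
      refine (iSup_mono fun μ => ?_ : ⨆ μ, x.maxGenEigenspace μ ≤ _) h2
      exact fun a ha => repS_of_replica h ha
    exact rep_map (f := (W.gr X 1).subtype) (D' := der0 hX x) (E' := der0 hX y)
      (fun v => der0_apply hX x v) (fun v => der0_apply hX y v) h1
  induction n with
  | zero => exact h0
  | succ n ih =>
    refine top_of_gen (A := W.H ((pw X n).prod X)) (DL_der hX x (n + 1)) (DL_der hX y (n + 1))
      (S := Set.range (W.map (fst (pw X n) X)) ∪ Set.range (W.map (snd (pw X n) X))) ?_ ?_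
    · rw [eq_top_iff]
      intro c _
      refine kun_ind (P := fun c => c ∈ Algebra.adjoin W.K
        (Set.range (W.map (fst (pw X n) X)) ∪ Set.range (W.map (snd (pw X n) X)))) ?_ ?_ c
      · intro i j a _ b _
        exact Subalgebra.mul_mem _ (Algebra.subset_adjoin (Or.inl ⟨a, rfl⟩))
          (Algebra.subset_adjoin (Or.inr ⟨b, rfl⟩))
      · exact fun a b ha hb => Subalgebra.add_mem _ ha hb
    · rintro _ (⟨a, rfl⟩ | ⟨b, rfl⟩)
      · exact rep_map (f := (W.map (fst (pw X n) X)).toLinearMap) (D := DL hX n x)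
          (E := DL hX n y) (D' := DL hX (n + 1) x) (E' := DL hX (n + 1) y)
          (fun v => DL_fst hX x n v) (fun v => DL_fst hX y n v) (by rw [ih]; trivial)
      · exact rep_map (f := (W.map (snd (pw X n) X)).toLinearMap) (D := der0 hX x)
          (E := der0 hX y) (D' := DL hX (n + 1) x) (E' := DL hX (n + 1) y)
          (fun v => DL_snd hX x n v) (fun v => DL_snd hX y n v) (by rw [h0]; trivial)

theorem replica_DL (hX : AbType W X) {φ : W.K →+ W.K} {x y : Module.End W.K (W.gr X 1)}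
    (h : IsReplica φ x y) (n : ℕ) : IsReplica φ (DL hX n x) (DL hX n y) :=
  replica_of_top (rep_DL hX h n)

end replica

section ann

/-- The operators on `H^1` which multiply all classes of codimension `j` in the family by `j m`, for
some number `m`. -/
def Ann (hX : AbType W X) (C : ∀ n : ℕ, ℕ → Set (W.H (pw X n))) :
    Submodule W.K (Module.End W.K (W.gr X 1)) where
  carrier := {x | ∃ m : W.K, ∀ n j, ∀ c ∈ C n j, DL hX n x c = (j * m) • c}
  zero_mem' := ⟨0, fun n j c _ => by rw [map_zero, mul_zero, zero_smul, LinearMap.zero_apply]⟩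
  add_mem' := by
    rintro x y ⟨m, hm⟩ ⟨m', hm'⟩
    exact ⟨m + m', fun n j c hc => by
      rw [map_add, LinearMap.add_apply, hm n j c hc, hm' n j c hc, mul_add, add_smul]⟩
  smul_mem' := by
    rintro a x ⟨m, hm⟩
    exact ⟨a * m, fun n j c hc => by
      rw [map_smul, LinearMap.smul_apply, hm n j c hc, smul_smul]
      congr 1
      ring⟩

variable {hX : AbType W X} {C : ∀ n : ℕ, ℕ → Set (W.H (pw X n))}

theorem Ann_isLie : IsLie (Ann hX C) := by
  rintro x ⟨m, hm⟩ y ⟨m', hm'⟩
  refine ⟨0, fun n j c hc => ?_⟩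
  rw [DL_bracket, LinearMap.sub_apply, Module.End.mul_apply, Module.End.mul_apply, hm n j c hc,
    hm' n j c hc, map_smul, map_smul, hm n j c hc, hm' n j c hc, smul_comm, sub_self, mul_zero,
    zero_smul]

theorem Ann_replica [IsAlgClosed W.K] {x y : Module.End W.K (W.gr X 1)} (hx : x ∈ Ann hX C)
    (φ : W.K →+ ℚ) (h : IsReplica (fun μ => (φ μ : W.K)) x y) : y ∈ Ann hX C := by
  obtain ⟨m, hm⟩ := hx
  let φ' : W.K →+ W.K := (Rat.castHom W.K).toAddMonoidHom.comp φ
  have h' : IsReplica φ' x y := h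
  refine ⟨φ' m, fun n j c hc => ?_⟩
  have h1 : c ∈ (DL hX n x).maxGenEigenspace (j * m) :=
    Module.End.eigenspace_le_maxGenEigenspace (Module.End.mem_eigenspace_iff.2 (hm n j c hc))
  have h2 := replica_DL hX h' n _ c h1
  rw [h2]
  congr 1
  rw [← nsmul_eq_mul, map_nsmul, nsmul_eq_mul]

/-- The identity. -/
theorem DL_one (hX : AbType W X) (n : ℕ) : DL hX n 1 = dg W (pw X n) := by
  symm
  refine IsExt.eq hX (F := fun n => dg W (pw X n)) ⟨fun n => dg_der, fun n a => ?_, fun n b => ?_,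
    fun v => ?_⟩ n
  · change dg W ((pw X n).prod X) _ = _
    rw [dg_prod, kOp_fst dg_der]
  · change dg W ((pw X n).prod X) _ = _
    rw [dg_prod, kOp_snd dg_der]
    rfl
  · change dg W X v = _
    rw [dg_apply v.2, Nat.cast_one, one_smul]
    rfl

theorem one_mem_Ann (hC : ∀ n j, ∀ c ∈ C n j, c ∈ W.gr (pw X n) (2 * j)) :
    (1 : Module.End W.K (W.gr X 1)) ∈ Ann hX C := by
  refine ⟨2, fun n j c hc => ?_⟩
  rw [DL_one, dg_apply (hC n j c hc)]
  congr 1
  push_cast
  ring

theorem DL_span (hX : AbType W X) {n : ℕ} {x : Module.End W.K (W.gr X 1)} {r : W.K}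
    {S : Set (W.H (pw X n))} (h : ∀ c ∈ S, DL hX n x c = r • c) {c : W.H (pw X n)}
    (hc : c ∈ Submodule.span W.K S) : DL hX n x c = r • c := by
  induction hc using Submodule.span_induction with
  | mem c hc => exact h c hc
  | zero => rw [map_zero, smul_zero]
  | add a b _ _ ha hb => rw [map_add, ha, hb, smul_add]
  | smul s a _ ha => rw [map_smul, ha, smul_comm]

theorem Ann_mono {C' : ∀ n : ℕ, ℕ → Set (W.H (pw X n))}
    (h : ∀ n j, ∀ c ∈ C n j, c ∈ Submodule.span W.K (C' n j)) : Ann hX C' ≤ Ann hX C := by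
  rintro x ⟨m, hm⟩
  exact ⟨m, fun n j c hc => DL_span hX (hm n j) (h n j c hc)⟩

end ann

end Pool.Agent.P8H28.SQ
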