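import Pool.Agent.P8H28.SQ.Hdg

/-!
# Derivations and extensions of the coefficients
-/

set_option linter.unusedSectionVars false

open CategoryTheory AlgebraicGeometry TensorProduct

universe u

namespace Pool.Agent.P8H28.SQ

open Module
open Pool.Agent.Y121.AH (em em_add em_gr)
open Pool.Agent.Y133.Half (pw)
open Pool.Agent.H914 Pool.Agent.H914.VarClass Pool.Agent.H914.VarClass.Obj
  Pool.Agent.H914.WeilCohomology

section Alg

variable {K L A B : Type} [Field K] [Field L] [Algebra K L] [Ring A] [Algebra K A]
  [Ring B] [Algebra K B]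

theorem adjoin_base {U : Submodule K A} (h : Algebra.adjoin K (U : Set A) = ⊤) :
    Algebra.adjoin L (U.baseChange L : Set (L ⊗[K] A)) = ⊤ := by
  rw [eq_top_iff]
  have key : ∀ a : A, (1 : L) ⊗ₜ[K] a ∈ Algebra.adjoin L (U.baseChange L : Set (L ⊗[K] A)) := by
    intro a
    have ha : a ∈ Algebra.adjoin K (U : Set A) := by rw [h]; trivial
    induction ha using Algebra.adjoin_induction with
    | mem x hx => exact Algebra.subset_adjoin (Submodule.tmul_mem_baseChange_of_mem (1 : L) hx)
    | algebraMap r =>
      have h1 : (1 : L) ⊗ₜ[K] (algebraMap K A r) = algebraMap L (L ⊗[K] A) (algebraMap K L r) := by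
        rw [Algebra.TensorProduct.algebraMap_apply, Algebra.algebraMap_eq_smul_one,
          TensorProduct.tmul_smul, TensorProduct.smul_tmul', Algebra.smul_def, mul_one]
        rfl
      rw [h1]
      exact Subalgebra.algebraMap_mem _ _
    | add x y _ _ hx hy =>
      rw [TensorProduct.tmul_add]
      exact Subalgebra.add_mem _ hx hy
    | mul x y _ _ hx hy =>
      have h1 : (1 : L) ⊗ₜ[K] (x * y) = (1 : L) ⊗ₜ[K] x * (1 : L) ⊗ₜ[K] y := by
        rw [Algebra.TensorProduct.tmul_mul_tmul, mul_one]
      rw [h1]
      exact Subalgebra.mul_mem _ hx hy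
  intro x _
  refine tmul_induction (P := fun x => x ∈ Algebra.adjoin L (U.baseChange L : Set (L ⊗[K] A)))
    ?_ ?_ ?_ x
  · exact Subalgebra.zero_mem _
  · exact fun x y hx hy => Subalgebra.add_mem _ hx hy
  · intro l a
    have h1 : l ⊗ₜ[K] a = l • ((1 : L) ⊗ₜ[K] a) := by
      rw [TensorProduct.smul_tmul', smul_eq_mul, mul_one]
    rw [h1]
    exact Subalgebra.smul_mem _ (key a) l

theorem finrank_base (U : Submodule K A) : finrank L (U.baseChange L) = finrank K U := by
  rw [← (Submodule.toBaseChange.toLinearEquiv L U).finrank_eq, Module.finrank_baseChange]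

theorem base_der {D : A →ₗ[K] A} (hD : IsDer D) : IsDer (D.baseChange L) := by
  intro x y
  refine tmul_induction (P := fun x => D.baseChange L (x * y) = D.baseChange L x * y +
    x * D.baseChange L y) ?_ ?_ ?_ x
  · rw [zero_mul, map_zero, zero_mul, zero_mul, add_zero]
  · intro x z hx hz
    rw [add_mul, map_add, hx, hz, map_add]
    noncomm_ring
  · intro l a
    refine tmul_induction (P := fun y => D.baseChange L (l ⊗ₜ[K] a * y) =
      D.baseChange L (l ⊗ₜ[K] a) * y + l ⊗ₜ[K] a * D.baseChange L y) ?_ ?_ ?_ y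
    · rw [mul_zero, map_zero, mul_zero, mul_zero, add_zero]
    · intro x z hx hz
      rw [mul_add, map_add, hx, hz, map_add]
      noncomm_ring
    · intro l' b
      rw [Algebra.TensorProduct.tmul_mul_tmul, LinearMap.baseChange_tmul,
        LinearMap.baseChange_tmul, LinearMap.baseChange_tmul,
        Algebra.TensorProduct.tmul_mul_tmul, Algebra.TensorProduct.tmul_mul_tmul, hD,
        TensorProduct.tmul_add]

theorem base_mem {D : A →ₗ[K] A} {U U' : Submodule K A} (hD : ∀ a ∈ U, D a ∈ U') {x : L ⊗[K] A}
    (hx : x ∈ U.baseChange L) : D.baseChange L x ∈ U'.baseChange L := by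
  refine base_induction (P := fun x => D.baseChange L x ∈ U'.baseChange L) ?_ ?_ ?_ hx
  · rw [map_zero]; exact Submodule.zero_mem _
  · intro x y h1 h2
    rw [map_add]
    exact Submodule.add_mem _ h1 h2
  · intro l a ha
    rw [LinearMap.baseChange_tmul]
    exact Submodule.tmul_mem_baseChange_of_mem l (hD a ha)

theorem base_comm {D : A →ₗ[K] A} {E : B →ₗ[K] B} {f : A →ₐ[K] B} (h : ∀ a, E (f a) = f (D a))
    (x : L ⊗[K] A) : E.baseChange L (mapBase L f x) = mapBase L f (D.baseChange L x) := by
  refine tmul_induction (P := fun x => E.baseChange L (mapBase L f x) =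
    mapBase L f (D.baseChange L x)) ?_ ?_ ?_ x
  · rw [map_zero, map_zero, map_zero, map_zero]
  · intro x y h1 h2
    rw [map_add, map_add, map_add, map_add, h1, h2]
  · intro l a
    rw [Algebra.TensorProduct.map_tmul, LinearMap.baseChange_tmul, LinearMap.baseChange_tmul,
      Algebra.TensorProduct.map_tmul, h]

end Alg

variable {k : Type u} [Field k] {𝒱 : VarClass k} {ops : CycleOps 𝒱}
  {W : WeilCohomology.{u, 0} ops} {X : 𝒱.Obj}

theorem AbType.base (hX : AbType W X) (L : Type) [Field L] [Algebra W.K L] :
    AbType (baseW W L) X where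
  gen := adjoin_base (L := L) hX.gen
  dim := (finrank_base (L := L) (W.gr X 1)).trans hX.dim
  nt := by
    have := hX.nt
    refine ⟨⟨em W L 1, 0, fun h => ?_⟩⟩
    exact one_ne_zero (tmul_injective (L := L) (1 : W.H X) h)

variable {L : Type} [Field L] [Algebra W.K L]

/-- The extension of an operator on `H^1`. -/
noncomputable def exE (hX : AbType W X) (L : Type) [Field L] [Algebra W.K L]
    (x : Module.End W.K (W.gr X 1)) : Module.End (baseW W L).K ((baseW W L).gr X 1) :=
  LinearMap.restrict (p := (W.gr X 1).baseChange L) (q := (W.gr X 1).baseChange L)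
    ((der0 hX x).baseChange L) fun _ hv => base_mem (der0_gr hX x 1) hv

theorem exE_isExt (hX : AbType W X) (x : Module.End W.K (W.gr X 1)) :
    IsExt (W := baseW W L) (exE hX L x) fun n => (DL hX n x).baseChange L where
  der n := base_der (L := L) (DL_der hX x n)
  fst n a := base_comm (L := L) (DL_fst hX x n) a
  snd n b := base_comm (L := L) (DL_snd hX x n) b
  zero _ := rfl

theorem DL_base (hX : AbType W X) (x : Module.End W.K (W.gr X 1)) (n : ℕ)
    (c : (baseW W L).H (pw X n)) :
    DL (hX.base L) n (exE hX L x) c = (DL hX n x).baseChange L c := by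
  have h1 := (exE_isExt (L := L) hX x).eq (hX.base L) n
  exact (LinearMap.congr_fun h1 c).symm

theorem DL_em (hX : AbType W X) (x : Module.End W.K (W.gr X 1)) (n : ℕ)
    (c : W.H (pw X n)) :
    DL (hX.base L) n (exE hX L x) (em W L c) = em W L (DL hX n x c) := by
  rw [DL_base]
  exact LinearMap.baseChange_tmul _ _ _

end Pool.Agent.P8H28.SQ
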