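import Pool.Agent.P8H28.SQ.OpCl

/-!
# The central elements
-/

set_option linter.unusedSectionVars false

open CategoryTheory AlgebraicGeometry TensorProduct

universe u

namespace Pool.Agent.P8H28.SQ

open Module
open Pool.Agent.Y121.AH
open Pool.Agent.Y133.Half (pw)
open Pool.Agent.H914 Pool.Agent.H914.VarClass Pool.Agent.H914.VarClass.Obj
  Pool.Agent.H914.WeilCohomology

variable {k : Type u} [Field k] {𝒱 : VarClass k} {ops : CycleOps 𝒱}

section gen

variable {W : WeilCohomology.{u, 0} ops} {X : 𝒱.Obj} {L : Type} [Field L] [Algebra W.K L]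

theorem slo_gr {π : Module.End (baseW W L).K ((baseW W L).H X)} (hπ : PresGr π)
    (φ : L →ₗ[W.K] W.K) : PresGr (slo φ π) := fun i _ ha => sl_mem φ (hπ i _ (em_gr ha))

theorem slo_comm {π : Module.End (baseW W L).K ((baseW W L).H X)} {f : Module.End W.K (W.H X)}
    (h : ∀ a, opE L f (π a) = π (opE L f a)) (φ : L →ₗ[W.K] W.K) (a : W.H X) :
    f (slo φ π a) = slo φ π (f a) := by
  rw [slo_apply, slo_apply, ← opE_em, ← h]
  exact (sl_base φ f (show L ⊗[W.K] W.H X from π (em W L a))).symm

/-- The bilinear form given by a class. -/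
noncomputable def formOf (c : W.H (X.prod X)) : W.H X →ₗ[W.K] W.H X →ₗ[W.K] W.K :=
  ((LinearMap.mul W.K (W.H (X.prod X))).compl₁₂ (W.map (fst X X)).toLinearMap
    (W.map (snd X X)).toLinearMap).compr₂ (W.tr (X.prod X) ∘ₗ LinearMap.mulLeft W.K c)

theorem formOf_apply (c : W.H (X.prod X)) (a b : W.H X) :
    formOf c a b = W.tr (X.prod X) (c * (W.map (fst X X) a * W.map (snd X X) b)) := rfl

theorem formOf_left (φ : L →ₗ[W.K] W.K) (c : W.H (X.prod X)) (x : (baseW W L).H X) (b : W.H X) :
    φ (show L from formOf (em W L c) x (em W L b)) =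
      formOf c (sl φ (show L ⊗[W.K] W.H X from x)) b := by
  refine tmul_ind (p := fun x => φ (show L from formOf (em W L c) x (em W L b)) =
    formOf c (sl φ (show L ⊗[W.K] W.H X from x)) b) ?_ ?_ ?_ x
  · have h1 : formOf (em W L c) 0 (em W L b) = 0 := by rw [map_zero, LinearMap.zero_apply]
    have h2 : sl φ (show L ⊗[W.K] W.H X from (0 : (baseW W L).H X)) = 0 := map_zero (sl φ)
    rw [h1, h2, map_zero, LinearMap.zero_apply]
    exact map_zero φ
  · intro x y h1 h2
    have h3 : formOf (em W L c) (x + y) (em W L b) = formOf (em W L c) x (em W L b) +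
        formOf (em W L c) y (em W L b) := by rw [map_add, LinearMap.add_apply]
    have h4 : sl φ (show L ⊗[W.K] W.H X from x + y) = sl φ (show L ⊗[W.K] W.H X from x) +
        sl φ (show L ⊗[W.K] W.H X from y) := map_add (sl φ) _ _
    rw [h3, h4, map_add, LinearMap.add_apply, ← h1, ← h2]
    exact map_add φ _ _
  · intro l a
    have h1 := tmul_eq (W := W) (L := L) l a
    have h2 : formOf (em W L c) (show (baseW W L).H X from l ⊗ₜ[W.K] a) (em W L b) =
        (show (baseW W L).K from l) * ex W L (formOf c a b) := by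
      rw [h1, map_smul, LinearMap.smul_apply, smul_eq_mul, formOf_apply, em_map, em_map, ← em_mul,
        ← em_mul, em_tr]
      rfl
    rw [h2]
    have h3 : sl φ (show L ⊗[W.K] W.H X from (show (baseW W L).H X from l ⊗ₜ[W.K] a)) = φ l • a :=
      sl_tmul φ l a
    rw [h3, map_smul, LinearMap.smul_apply, smul_eq_mul]
    change φ (l * algebraMap W.K L (formOf c a b)) = _
    rw [mul_comm l, ← Algebra.smul_def, map_smul, smul_eq_mul, mul_comm]

theorem formOf_right (φ : L →ₗ[W.K] W.K) (c : W.H (X.prod X)) (x : (baseW W L).H X) (b : W.H X) :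
    φ (show L from formOf (em W L c) (em W L b) x) =
      formOf c b (sl φ (show L ⊗[W.K] W.H X from x)) := by
  refine tmul_ind (p := fun x => φ (show L from formOf (em W L c) (em W L b) x) =
    formOf c b (sl φ (show L ⊗[W.K] W.H X from x))) ?_ ?_ ?_ x
  · have h1 : formOf (em W L c) (em W L b) 0 = 0 := by rw [map_zero]
    have h2 : sl φ (show L ⊗[W.K] W.H X from (0 : (baseW W L).H X)) = 0 := map_zero (sl φ)
    rw [h1, h2, map_zero]
    exact map_zero φ
  · intro x y h1 h2
    have h3 : formOf (em W L c) (em W L b) (x + y) = formOf (em W L c) (em W L b) x +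
        formOf (em W L c) (em W L b) y := by rw [map_add]
    have h4 : sl φ (show L ⊗[W.K] W.H X from x + y) = sl φ (show L ⊗[W.K] W.H X from x) +
        sl φ (show L ⊗[W.K] W.H X from y) := map_add (sl φ) _ _
    rw [h3, h4, map_add, ← h1, ← h2]
    exact map_add φ _ _
  · intro l a
    have h1 := tmul_eq (W := W) (L := L) l a
    have h2 : formOf (em W L c) (em W L b) (show (baseW W L).H X from l ⊗ₜ[W.K] a) =
        (show (baseW W L).K from l) * ex W L (formOf c b a) := by
      rw [h1, map_smul, smul_eq_mul, formOf_apply, em_map, em_map, ← em_mul,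
        ← em_mul, em_tr]
      rfl
    rw [h2]
    have h3 : sl φ (show L ⊗[W.K] W.H X from (show (baseW W L).H X from l ⊗ₜ[W.K] a)) = φ l • a :=
      sl_tmul φ l a
    rw [h3, map_smul, smul_eq_mul]
    change φ (l * algebraMap W.K L (formOf c b a)) = _
    rw [mul_comm l, ← Algebra.smul_def, map_smul, smul_eq_mul, mul_comm]

end gen

end Pool.Agent.P8H28.SQ
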