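import Pool.Agent.P8H28.SQ.Cen

/-!
# The central elements: forms
-/

set_option linter.unusedSectionVars false

open CategoryTheory AlgebraicGeometry TensorProduct

universe u

namespace Pool.Agent.P8H28.SQ

open Module
open Pool.Agent.Y121.AH
open Pool.Agent.Y133.Half (pw)
open Pool.Agent.H914 Pool.Agent.H914.VarClass Pool.Agent.H914.VarClass.Obj
  Pool.Agent.H914.WeilCohomology

variable {k : Type u} [Field k] {𝒱 : VarClass k} {ops : CycleOps 𝒱}

section gen

variable {W : WeilCohomology.{u, 0} ops} {X : 𝒱.Obj} {L : Type} [Field L] [Algebra W.K L]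

/-- The form given by the class is nondegenerate on `H^1`. -/
def ND (W : WeilCohomology.{u, 0} ops) (X : 𝒱.Obj) (c : W.H (X.prod X)) : Prop :=
  ∀ a ∈ W.gr X 1, (∀ b ∈ W.gr X 1, formOf c a b = 0) → a = 0

/-- The operator is self-adjoint on `H^1`. -/
def SAdj (c : W.H (X.prod X)) (π : Module.End W.K (W.H X)) : Prop :=
  ∀ a ∈ W.gr X 1, ∀ b ∈ W.gr X 1, formOf c (π a) b = formOf c a (π b)

theorem ND.base {c : W.H (X.prod X)} (h : ND W X c) (L : Type) [Field L] [Algebra W.K L] :
    ND (baseW W L) X (em W L c) := by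
  intro x hx hb
  refine eq_zero_of_sl (K := W.K) (L := L) (V := W.H X) fun φ => ?_
  refine h _ (sl_mem φ hx) fun b hb' => ?_
  have h1 := formOf_left φ c x b
  rw [← h1, hb _ (em_gr hb')]
  exact map_zero φ

/-- Induction on the classes of degree one. -/
theorem gr1_ind {i : ℕ} {P : (baseW W L).H X → Prop} (h0 : P 0)
    (hadd : ∀ a b, P a → P b → P (a + b))
    (h : ∀ (l : (baseW W L).K), ∀ a ∈ W.gr X i, P (l • em W L a)) {x : (baseW W L).H X}
    (hx : x ∈ (baseW W L).gr X i) : P x := by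
  refine base_induction (P := fun x : L ⊗[W.K] W.H X => P x) h0 hadd ?_ hx
  intro l a ha
  have h1 := h l a ha
  rw [← tmul_eq] at h1
  exact h1

theorem sep {t s : (baseW W L).K} (h : ∀ φ : L →ₗ[W.K] W.K, φ (show L from t) =
    φ (show L from s)) : t = s := by
  have h1 : (show L from t) - (show L from s) = 0 := by
    rw [← Module.forall_dual_apply_eq_zero_iff W.K]
    intro φ
    have h2 := map_sub φ (show L from t) (show L from s)
    rw [h2, h φ, sub_self]
  exact sub_eq_zero.1 h1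

theorem SAdj.base {c : W.H (X.prod X)} {π : Module.End (baseW W L).K ((baseW W L).H X)}
    (h : ∀ φ : L →ₗ[W.K] W.K, SAdj c (slo φ π)) : SAdj (em W L c) π := by
  have key : ∀ a ∈ W.gr X 1, ∀ b ∈ W.gr X 1,
      formOf (em W L c) (π (em W L a)) (em W L b) =
        formOf (em W L c) (em W L a) (π (em W L b)) := by
    intro a ha b hb
    refine sep fun φ => ?_
    rw [formOf_left, formOf_right]
    exact h φ a ha b hb
  intro x hx y hy
  refine gr1_ind (P := fun x => formOf (em W L c) (π x) y = formOf (em W L c) x (π y))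
    ?_ ?_ ?_ hx
  · rw [map_zero, map_zero, LinearMap.zero_apply, LinearMap.zero_apply]
  · intro a b h1 h2
    rw [map_add, map_add, map_add, LinearMap.add_apply, LinearMap.add_apply, h1, h2]
  · intro l a ha
    refine gr1_ind (P := fun y => formOf (em W L c) (π (l • em W L a)) y =
      formOf (em W L c) (l • em W L a) (π y)) ?_ ?_ ?_ hy
    · rw [map_zero, map_zero, map_zero]
    · intro a b h1 h2
      rw [map_add, map_add, map_add, h1, h2]
    · intro l' b hb
      rw [map_smul, map_smul, map_smul, map_smul, map_smul, map_smul, LinearMap.smul_apply,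
        LinearMap.smul_apply, key a ha b hb]

/-- A self-adjoint operator with the adjoint `m - π` is a scalar. -/
theorem eq_half {c : W.H (X.prod X)} (hc : ND W X c) {π : Module.End W.K (W.H X)}
    (hπ : ∀ a ∈ W.gr X 1, π a ∈ W.gr X 1) (h : SAdj c π) {m : W.K}
    (hm : ∀ a ∈ W.gr X 1, ∀ b ∈ W.gr X 1,
      formOf c (π a) b + formOf c a (π b) = m * formOf c a b) :
    ∀ a ∈ W.gr X 1, π a = (m / 2) • a := by
  intro a ha
  rw [← sub_eq_zero]
  refine hc _ (Submodule.sub_mem _ (hπ a ha) (Submodule.smul_mem _ _ ha)) fun b hb => ?_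
  have h1 := hm a ha b hb
  rw [← h a ha b hb] at h1
  rw [map_sub, map_smul, LinearMap.sub_apply, LinearMap.smul_apply, smul_eq_mul]
  linear_combination (1 / 2) * h1

end gen

section psi

variable {T : Pool.Agent.Y121.AHS.HodgeTheory ops} {X : 𝒱.Obj}

open Pool.Agent.Y121.AHS (toH)
open Pool.Agent.N996.FP (RForm IsPolarisation)

/-- The form on `H^1`, extended by zero. -/
noncomputable def psi1 (ψ : RForm T.W X) : T.W.H X →ₗ[T.W.K] T.W.H X →ₗ[T.W.K] T.W.K :=
  ψ.compl₁₂ (prj T.W X 1) (prj T.W X 1)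

theorem psi1_apply (ψ : RForm T.W X) (a b : T.W.H X) :
    psi1 ψ a b = ψ (prj T.W X 1 a) (prj T.W X 1 b) := rfl

theorem prj_pres {D : Module.End T.W.K (T.W.H X)} (hD : PresGr D) (i : ℕ) (a : T.W.H X) :
    prj T.W X i (D a) = D (prj T.W X i a) :=
  prj_comm (W := T.W) (X := X) (D := D.toAddMonoidHom) hD i a

theorem psi1_nhs {ψ : RForm T.W X} (hψ : IsPolarisation T X ψ) (χ : ℂ →ₗ[T.W.K] T.W.K)
    (a b : T.W.H X) : psi1 ψ (nhs (toH T) χ X a) b + psi1 ψ a (nhs (toH T) χ X b) =
      χ 1 * psi1 ψ a b := by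
  have h1 : ∀ a, prj T.W X 1 (nhs (toH T) χ X a) = nhs (toH T) χ X (prj T.W X 1 a) :=
    fun a => prj_pres (nhs_gr (T := toH T) χ) 1 a
  rw [psi1_apply, psi1_apply, psi1_apply, h1, h1]
  exact psi_nhs hψ χ (prj_mem 1 a) (prj_mem 1 b)

theorem psi1_dg (ψ : RForm T.W X) (a b : T.W.H X) :
    psi1 ψ (dg T.W X a) b + psi1 ψ a (dg T.W X b) = 2 * psi1 ψ a b := by
  have hp : PresGr (dg T.W X) := fun i a ha => by
    rw [dg_apply ha]
    exact Submodule.smul_mem _ _ ha
  have h1 : ∀ a, prj T.W X 1 (dg T.W X a) = prj T.W X 1 a := by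
    intro a
    rw [prj_pres hp, dg_apply (prj_mem 1 a), Nat.cast_one, one_smul]
  rw [psi1_apply, psi1_apply, psi1_apply, h1, h1]
  ring

theorem two_dim {K : Type*} [Field K] {g : ℕ} (hg : 0 < g) (x : K) :
    (g : K) * x + (g : K) * x - x = ((2 * g - 1 : ℕ) : K) * x := by
  rw [Nat.cast_sub (by omega)]
  push_cast
  ring

/-- The class of the polarisation. -/
theorem exists_psi_class (hX : AbType T.W X) {ψ : RForm T.W X} (hψ : IsPolarisation T X ψ)
    (hd : 0 < X.dim) : ∃ c : T.W.H (X.prod X), (∀ a b, formOf c a b = psi1 ψ a b) ∧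
      IsHodge (toH T) (X.prod X) (2 * X.dim - 1) c := by
  obtain ⟨c, hc⟩ := exists_kclass (W := T.W) (psi1 ψ)
  refine ⟨c, hc, ?_⟩
  have : Nontrivial ((toH T).W.H X) := hX.nt
  have hp : PresGr (dg T.W X) := fun i a ha => by
    rw [dg_apply ha]
    exact Submodule.smul_mem _ _ ha
  have hgr : c ∈ T.W.gr (X.prod X) (2 * (2 * X.dim - 1)) := by
    rw [mem_gr_iff, dg_prod]
    have h1 := (der_class (r := 2) hp hp dg_der dg_der dg_tr dg_tr hc).2 (psi1_dg ψ)
    rw [h1]
    congr 1
    have h2 : ((2 * (2 * X.dim - 1) : ℕ) : T.W.K) = 2 * (2 * X.dim - 1) := by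
      rw [Nat.cast_mul, Nat.cast_sub (by omega)]
      push_cast
      ring
    rw [h2]
    ring
  refine isHodge_of_nhs (T := toH T) hgr fun χ => ?_
  have h0 : nhs (toH T) χ (X.prod X) = kOp (nhs (toH T) χ X) (nhs (toH T) χ X) :=
    nhs_prod (T := toH T) hX χ
  rw [h0]
  have h1 := (der_class (W := T.W) (r := χ 1) (nhs_gr (T := toH T) χ) (nhs_gr (T := toH T) χ)
    (nhs_der (T := toH T) χ) (nhs_der (T := toH T) χ) (nhs_tr (T := toH T) χ)
    (nhs_tr (T := toH T) χ) hc).2 (psi1_nhs hψ χ)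
  refine h1.trans ?_
  congr 1
  exact two_dim hd (χ 1)

theorem psi_ND {ψ : RForm T.W X} (hψ : IsPolarisation T X ψ) {c : T.W.H (X.prod X)}
    (hc : ∀ a b, formOf c a b = psi1 ψ a b) : ND T.W X c := by
  intro a ha h
  refine psi_nondeg hψ ha fun b hb => ?_
  have h1 := h b hb
  rw [hc, psi1_apply, prj_same ha, prj_same hb] at h1
  exact h1

end psi

end Pool.Agent.P8H28.SQ
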