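import Pool.Agent.P8H28.SQ.Cen2

/-!
# The central elements: self-adjoint centres
-/

set_option linter.unusedSectionVars false

open CategoryTheory AlgebraicGeometry TensorProduct

universe u

namespace Pool.Agent.P8H28.SQ

open Module
open Pool.Agent.Y121.AH
open Pool.Agent.Y133.Half (pw)
open Pool.Agent.H914 Pool.Agent.H914.VarClass Pool.Agent.H914.VarClass.Obj
  Pool.Agent.H914.WeilCohomology

variable {k : Type u} [Field k] {𝒱 : VarClass k} {ops : CycleOps 𝒱} {T : HodgeTheory ops}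
  {X : 𝒱.Obj} {L Ω : Type} [Field L] [Algebra T.W.K L] [Field Ω] [Algebra (baseW T.W L).K Ω]

/-- Combinations of Hodge classes are Hodge classes. -/
theorem hodge_span {Y : 𝒱.Obj} {j : ℕ} {c : T.W.H Y}
    (hc : c ∈ Submodule.span T.W.K {c | IsHodge T Y j c}) : IsHodge T Y j c := by
  induction hc using Submodule.span_induction with
  | mem c hc => exact hc
  | zero => exact IsHodge.zero
  | add a b _ _ ha hb => exact ha.add hb
  | smul r a _ ha => exact ha.smul r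

variable {hX : AbType T.W X} {G : GaloisPowers (baseW T.W L) X}
  {P : Set (Module.End (baseW (baseW T.W L) Ω).K ((baseW (baseW T.W L) Ω).gr X 1))}

/-- The Künneth component of the class of an operator on `H^1`. -/
theorem opclass_prj {W : WeilCohomology.{u, 0} ops} {X : 𝒱.Obj} (hd : 0 < X.dim)
    {Z : Module.End W.K (W.gr X 1)} {c : W.H (X.prod X)}
    (hc : ∀ a b, W.tr (X.prod X) (c * (W.map (fst X X) a * W.map (snd X X) b)) =
      W.tr X (ext0 Z a * b)) :
    tOp (prj W X (2 * X.dim - 1)) (prj W X 1) c = c := by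
  refine eq_of_ktr fun a b => ?_
  have h1 := tOp_tr (W := W) (X := X) (Y := X) (i := 1) (j := 2 * X.dim - 1) (by omega)
    (Nat.sub_le (2 * X.dim) 1) c a b
  rw [Nat.sub_sub_self (by omega : 1 ≤ 2 * X.dim)] at h1
  rw [h1, hc, hc]
  have h2 : ext0 Z (prj W X 1 a) = ext0 Z a := by
    refine gr_ind (P := fun a => ext0 Z (prj W X 1 a) = ext0 Z a) ?_ ?_ a
    · intro i a ha
      by_cases hi : i = 1
      · subst hi
        rw [prj_same ha]
      · rw [prj_ne hi ha, map_zero, ext0_ne Z hi ha]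
    · intro a b h1 h2
      rw [map_add, map_add, map_add, h1, h2]
  have h3 : ext0 Z a ∈ W.gr X 1 := (Z (pr1 W X a)).2
  rw [h2]
  refine gr_ind (P := fun b => W.tr X (ext0 Z a * prj W X (2 * X.dim - 1) b) =
    W.tr X (ext0 Z a * b)) ?_ ?_ b
  · intro s b hb
    by_cases hs : s = 2 * X.dim - 1
    · subst hs
      rw [prj_same hb]
    · rw [prj_ne hs hb, mul_zero, map_zero, W.tr_eq_zero (W.mul_mem h3 hb) (by omega)]
  · intro b b' h7 h8
    rw [map_add, mul_add, mul_add, map_add, map_add, h7, h8]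

/-- The slices of the central elements have classes which are Hodge classes. -/
theorem exists_slice (hD : Dat ((hX.base L).base Ω) (G.base Ω) (TTs G Ω) (HHs T X L Ω) P)
    (hd : 0 < X.dim) (hF : ∀ c, IsTate G 1 X.dim c →
      c ∈ KC (baseW T.W L) X X (2 * X.dim - 1) 1 → c ∈ HSpan T X L 1 X.dim)
    {Z : Module.End (baseW (baseW T.W L) Ω).K ((baseW (baseW T.W L) Ω).gr X 1)}
    (hZ : ∃ Δ : Subgroup (G.base Ω).Γ, Δ.FiniteIndex ∧
      ∀ g ∈ Δ, ∀ a : (baseW (baseW T.W L) Ω).H X,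
        ext0 Z ((G.base Ω).ρ 0 g a) = (G.base Ω).ρ 0 g (ext0 Z a))
    (φ : Ω →ₗ[(baseW T.W L).K] (baseW T.W L).K) (φ' : L →ₗ[T.W.K] T.W.K) :
    ∃ c, IsOpClass (slo φ' (slo φ (ext0 Z))) c ∧ IsHodge T (X.prod X) X.dim c := by
  obtain ⟨Δ, hΔ, h1⟩ := hZ
  obtain ⟨c, hc⟩ := exists_opclass (W := baseW (baseW T.W L) Ω) (ext0 Z)
  have h2 : c ∈ Submodule.span (baseW (baseW T.W L) Ω).K (HHs T X L Ω 1 X.dim) := by
    rw [← opclass_prj hd hc]
    have h3 : Submodule.span (baseW (baseW T.W L) Ω).K (TTs G Ω 1 X.dim) ≤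
        (Submodule.span (baseW (baseW T.W L) Ω).K (HHs T X L Ω 1 X.dim)).comap
        (tOp (prj (baseW (baseW T.W L) Ω) X (2 * X.dim - 1))
          (prj (baseW (baseW T.W L) Ω) X 1)) := Submodule.span_le.2 (mid_ext hF)
    exact h3 (hD.tate 1 _ c (tate_opclass (ext0_gr Z) hΔ h1 hc))
  have h3 := opclass_slice (opclass_slice hc φ) φ'
  refine ⟨_, h3, hodge_span ?_⟩
  have h4 := sl_span (W := baseW T.W L) (L := Ω) (Y := X.prod X)
    (S := {x | ∃ c, IsHodge T (X.prod X) X.dim c ∧ x = em T.W L c}) (S' := HHs T X L Ω 1 X.dim)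
    (by
      rintro _ ⟨c, hc, rfl⟩
      exact ⟨_, Submodule.subset_span ⟨c, hc, rfl⟩, rfl⟩) h2 φ
  exact sl_span (W := T.W) (L := L) (Y := X.prod X) (by
    rintro _ ⟨c, hc, rfl⟩
    exact ⟨c, Submodule.subset_span hc, rfl⟩) h4 φ'

/-- Restriction of an operator. -/
noncomputable def res1 {W : WeilCohomology.{u, 0} ops} {X : 𝒱.Obj} (g : Module.End W.K (W.H X))
    (hg : ∀ c ∈ W.gr X 1, g c ∈ W.gr X 1) : Module.End W.K (W.gr X 1) := g.restrict hg

theorem ext0_res {W : WeilCohomology.{u, 0} ops} {X : 𝒱.Obj} {g : Module.End W.K (W.H X)}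
    (hg : ∀ c ∈ W.gr X 1, g c ∈ W.gr X 1) {c : W.H X} (hc : c ∈ W.gr X 1) :
    ext0 (res1 g hg) c = g c := ext0_same (res1 g hg) ⟨c, hc⟩

/-- The operator `ext0 g` commutes with the slices of the Hodge operator. -/
theorem ext0_comm {g : Module.End T.W.K (T.W.H X)} (hg : ∀ c ∈ T.W.gr X 1, g c ∈ T.W.gr X 1)
    (h : CommS T X g) (χ : ℂ →ₗ[T.W.K] T.W.K) (a : T.W.H X) :
    ext0 (res1 g hg) (nhs T χ X a) = nhs T χ X (ext0 (res1 g hg) a) := by
  refine gr_ind (P := fun a => ext0 (res1 g hg) (nhs T χ X a) =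
    nhs T χ X (ext0 (res1 g hg) a)) ?_ ?_ a
  · intro i a ha
    by_cases hi : i = 1
    · subst hi
      rw [ext0_res hg ha, ext0_res hg (nhs_gr χ 1 a ha)]
      exact h χ a ha
    · rw [ext0_ne _ hi ha, ext0_ne _ hi (nhs_gr χ i a ha), map_zero]
  · intro a b h1 h2
    rw [map_add, map_add, map_add, map_add, h1, h2]

theorem opE_gr {W : WeilCohomology.{u, 0} ops} {X : 𝒱.Obj} {L : Type} [Field L] [Algebra W.K L]
    {f : Module.End W.K (W.H X)} (hf : PresGr f) : PresGr (opE L f) :=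
  fun i _ ha => base_mem (hf i) ha

theorem opE_zero {W : WeilCohomology.{u, 0} ops} {X : 𝒱.Obj} {L : Type} [Field L] [Algebra W.K L]
    {f : Module.End W.K (W.H X)} {i : ℕ} (hf : ∀ a ∈ W.gr X i, f a = 0) :
    ∀ a ∈ (baseW W L).gr X i, opE L f a = 0 := by
  intro a ha
  refine gr1_ind (P := fun a => opE L f a = 0) (map_zero _) ?_ ?_ ha
  · intro a b h1 h2
    rw [map_add, h1, h2, add_zero]
  · intro l a ha
    rw [map_smul, opE_em, hf a ha, em_zero, smul_zero]

/-- The elements of the annihilator of the Hodge classes commute with the endomorphisms of the Hodge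
structure `H^1`. -/
theorem ann_comm (hD : Dat ((hX.base L).base Ω) (G.base Ω) (TTs G Ω) (HHs T X L Ω) P)
    {Z : Module.End (baseW (baseW T.W L) Ω).K ((baseW (baseW T.W L) Ω).gr X 1)}
    (hZ : Z ∈ Ann ((hX.base L).base Ω) (HHs T X L Ω)) {g : Module.End T.W.K (T.W.H X)}
    (hg : ∀ c ∈ T.W.gr X 1, g c ∈ T.W.gr X 1) (h : CommS T X g)
    (a : (baseW (baseW T.W L) Ω).H X) :
    opE Ω (opE L (ext0 (res1 g hg))) (ext0 Z a) = ext0 Z (opE Ω (opE L (ext0 (res1 g hg))) a) := by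
  obtain ⟨c, hc⟩ := exists_opclass (ext0 (res1 g hg))
  have h1 : IsHodge T (X.prod X) X.dim c :=
    (hodge_opclass hX (ext0_gr _) hc).2 (ext0_comm hg h)
  have h2 := opclass_em (L := Ω) (opclass_em (L := L) hc)
  obtain ⟨m, hm⟩ := hZ
  have h3 := (der_opclass (der0_gr ((hX.base L).base Ω) Z) (der0_der ((hX.base L).base Ω) Z)
    (hD.trDer hm) h2).1 (hm 1 X.dim _ ⟨c, h1, rfl⟩)
  have hE := opE_gr (L := Ω) (opE_gr (L := L) (ext0_gr (res1 g hg)))
  have hE0 : ∀ i, i ≠ 1 → ∀ a ∈ (baseW (baseW T.W L) Ω).gr X i,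
      opE Ω (opE L (ext0 (res1 g hg))) a = 0 := fun i hi =>
    opE_zero (opE_zero fun a ha => ext0_ne _ hi ha)
  have h4 : ∀ b ∈ (baseW (baseW T.W L) Ω).gr X 1, der0 ((hX.base L).base Ω) Z b = ext0 Z b :=
    fun b hb => (der0_apply ((hX.base L).base Ω) Z ⟨b, hb⟩).trans (ext0_same Z ⟨b, hb⟩).symm
  refine gr_ind (P := fun a => opE Ω (opE L (ext0 (res1 g hg))) (ext0 Z a) =
    ext0 Z (opE Ω (opE L (ext0 (res1 g hg))) a)) ?_ ?_ a
  · intro i a ha
    by_cases hi : i = 1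
    · subst hi
      rw [← h4 a ha, ← h4 _ (hE 1 a ha)]
      exact h3 a
    · rw [ext0_ne _ hi ha, hE0 i hi a ha, map_zero, map_zero]
  · intro a b h5 h6
    rw [map_add, map_add, map_add, map_add, h5, h6]

end Pool.Agent.P8H28.SQ
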