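import Pool.Agent.P8H28.SQ.Cen3

/-!
# The central elements: self-adjoint centres, conclusion
-/

set_option linter.unusedSectionVars false

open CategoryTheory AlgebraicGeometry TensorProduct

universe u

namespace Pool.Agent.P8H28.SQ

open Module
open Pool.Agent.Y121.AH
open Pool.Agent.Y121.AHS (toH)
open Pool.Agent.N996.FP (RForm IsPolarisation SelfAdjointCentre OfAbelianType)
open Pool.Agent.Y133.Half (pw)
open Pool.Agent.H914 Pool.Agent.H914.VarClass Pool.Agent.H914.VarClass.Obj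
  Pool.Agent.H914.WeilCohomology

variable {k : Type u} [Field k] {𝒱 : VarClass k} {ops : CycleOps 𝒱}
  {T : Pool.Agent.Y121.AHS.HodgeTheory ops}
  {X : 𝒱.Obj} {L Ω : Type} [Field L] [Algebra (toH T).W.K L] [Field Ω]
  [Algebra (baseW (toH T).W L).K Ω]

theorem isEnd_iff' {f : Module.End T.W.K (T.W.H X)} (hf : ∀ c ∈ T.W.gr X 1, f c ∈ T.W.gr X 1) :
    Pool.Agent.N996.FP.IsEnd (T.W.gr X 1) (T.pq X) f ↔ CommS (toH T) X f :=
  isEnd_iff (T := toH T) hf (toH_span T X 1)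

variable {hX : AbType (toH T).W X} {G : GaloisPowers (baseW (toH T).W L) X}
  {P : Set (Module.End (baseW (baseW (toH T).W L) Ω).K ((baseW (baseW (toH T).W L) Ω).gr X 1))}

/-- The double slice. -/
noncomputable def zsl
    (Z : Module.End (baseW (baseW (toH T).W L) Ω).K ((baseW (baseW (toH T).W L) Ω).gr X 1))
    (φ : Ω →ₗ[(baseW (toH T).W L).K] (baseW (toH T).W L).K) (φ' : L →ₗ[(toH T).W.K] (toH T).W.K) :
    Module.End (toH T).W.K ((toH T).W.H X) := slo φ' (slo φ (ext0 Z))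

/-- The slices of the central elements are in the centre. -/
theorem slice_central
    (hD : Dat ((hX.base L).base Ω) (G.base Ω) (TTs G Ω) (HHs (toH T) X L Ω) P)
    (hd : 0 < X.dim) (hF : ∀ c, IsTate G 1 X.dim c →
      c ∈ KC (baseW (toH T).W L) X X (2 * X.dim - 1) 1 → c ∈ HSpan (toH T) X L 1 X.dim)
    {Z : Module.End (baseW (baseW (toH T).W L) Ω).K ((baseW (baseW (toH T).W L) Ω).gr X 1)}
    (hZ : Z ∈ Ann ((hX.base L).base Ω) (HHs (toH T) X L Ω))
    (hΔ : ∃ Δ : Subgroup (G.base Ω).Γ, Δ.FiniteIndex ∧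
      ∀ g ∈ Δ, ∀ a : (baseW (baseW (toH T).W L) Ω).H X,
        ext0 Z ((G.base Ω).ρ 0 g a) = (G.base Ω).ρ 0 g (ext0 Z a))
    (φ : Ω →ₗ[(baseW (toH T).W L).K] (baseW (toH T).W L).K) (φ' : L →ₗ[(toH T).W.K] (toH T).W.K) :
    Pool.Agent.N996.FP.IsCentral (T.W.gr X 1) (T.pq X) (zsl Z φ φ') := by
  have hgr : PresGr (zsl Z φ φ') := slo_gr (slo_gr (ext0_gr Z) φ) φ'
  have hE : CommS (toH T) X (zsl Z φ φ') := by
    obtain ⟨c, hc, hc'⟩ := exists_slice (hX := hX) hD hd hF hΔ φ φ'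
    exact fun χ a _ => (hodge_opclass (T := toH T) hX hgr hc).1 hc' χ a
  refine ⟨(isEnd_iff' (T := T) (hgr 1)).2 hE, fun g hg c hc => ?_⟩
  have h1 := (isEnd_iff' (T := T) hg.1).1 hg
  have h2 := slo_comm (slo_comm (fun a => ann_comm (hX := hX) hD hZ hg.1 h1 a) φ) φ' c
  have h4 : ext0 (W := (toH T).W) (res1 g hg.1) c = g c := ext0_res (W := (toH T).W) hg.1 hc
  rw [h4] at h2
  have h3 : ext0 (W := (toH T).W) (res1 g hg.1) (zsl Z φ φ' c) = g (zsl Z φ φ' c) :=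
    ext0_res (W := (toH T).W) hg.1 (hgr 1 c hc)
  exact h2.symm.trans h3

/-- **Self-adjoint centres.** -/
theorem centre_sa
    (hD : Dat ((hX.base L).base Ω) (G.base Ω) (TTs G Ω) (HHs (toH T) X L Ω) P)
    (hF : ∀ c, IsTate G 1 X.dim c →
      c ∈ KC (baseW (toH T).W L) X X (2 * X.dim - 1) 1 → c ∈ HSpan (toH T) X L 1 X.dim)
    {ψ : RForm T.W X} (hψ : IsPolarisation T X ψ) (hSA : SelfAdjointCentre T X ψ)
    {Z : Module.End (baseW (baseW (toH T).W L) Ω).K ((baseW (baseW (toH T).W L) Ω).gr X 1)}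
    (hZ : Z ∈ Ann ((hX.base L).base Ω) (HHs (toH T) X L Ω))
    (hΔ : ∃ Δ : Subgroup (G.base Ω).Γ, Δ.FiniteIndex ∧
      ∀ g ∈ Δ, ∀ a : (baseW (baseW (toH T).W L) Ω).H X,
        ext0 Z ((G.base Ω).ρ 0 g a) = (G.base Ω).ρ 0 g (ext0 Z a)) :
    Z ∈ Ann ((hX.base L).base Ω) (TTs G Ω) := by
  rcases Nat.eq_zero_or_pos X.dim with hd | hd
  · have h1 := ((hX.base L).base Ω).dim
    rw [hd, mul_zero] at h1
    have h2 : Subsingleton ((baseW (baseW (toH T).W L) Ω).gr X 1) :=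
      Module.finrank_zero_iff.1 h1
    have h3 : Z = 0 := LinearMap.ext fun v => Subsingleton.elim _ _
    rw [h3]
    exact Submodule.zero_mem _
  obtain ⟨c, hc, hcH⟩ := exists_psi_class (T := T) hX hψ hd
  have hND : ND (baseW (baseW (toH T).W L) Ω) X (em (baseW (toH T).W L) Ω (em (toH T).W L c)) :=
    ND.base (ND.base (W := (toH T).W) (psi_ND hψ hc) L) Ω
  have hSA' : SAdj (em (baseW (toH T).W L) Ω (em (toH T).W L c)) (ext0 Z) := by
    refine SAdj.base fun φ => SAdj.base fun φ' => ?_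
    intro a ha b hb
    have hgr : PresGr (zsl Z φ φ') := slo_gr (slo_gr (ext0_gr Z) φ) φ'
    have h1 := hSA _ (slice_central (hX := hX) hD hd hF hZ hΔ φ φ') a ha b hb
    have h2 := hc (zsl Z φ φ' a) b
    have h3 := hc a (zsl Z φ φ' b)
    rw [psi1_apply] at h2 h3
    have h4 : prj T.W X 1 a = a := prj_same ha
    have h5 : prj T.W X 1 b = b := prj_same hb
    have h6 : prj T.W X 1 (zsl Z φ φ' a) = zsl Z φ φ' a :=
      prj_same (hgr 1 a ha)
    have h7 : prj T.W X 1 (zsl Z φ φ' b) = zsl Z φ φ' b :=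
      prj_same (hgr 1 b hb)
    rw [h5, h6] at h2
    rw [h4, h7] at h3
    exact h2.trans (h1.trans h3.symm)
  obtain ⟨m, hm⟩ := hZ
  have hmul : ∀ a ∈ (baseW (baseW (toH T).W L) Ω).gr X 1,
      ∀ b ∈ (baseW (baseW (toH T).W L) Ω).gr X 1,
      formOf (em (baseW (toH T).W L) Ω (em (toH T).W L c)) (ext0 Z a) b +
        formOf (em (baseW (toH T).W L) Ω (em (toH T).W L c)) a (ext0 Z b) =
        m * formOf (em (baseW (toH T).W L) Ω (em (toH T).W L c)) a b := by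
    have h1 := hm 1 (2 * X.dim - 1) _ ⟨c, hcH, rfl⟩
    have h4 : ∀ b ∈ (baseW (baseW (toH T).W L) Ω).gr X 1,
        der0 ((hX.base L).base Ω) Z b = ext0 Z b :=
      fun b hb => (der0_apply ((hX.base L).base Ω) Z ⟨b, hb⟩).trans (ext0_same Z ⟨b, hb⟩).symm
    have h2 := (der_class (r := m) (der0_gr ((hX.base L).base Ω) Z)
      (der0_gr ((hX.base L).base Ω) Z) (der0_der ((hX.base L).base Ω) Z)
      (der0_der ((hX.base L).base Ω) Z) (hD.trDer hm) (hD.trDer hm)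
      (B := formOf (em (baseW (toH T).W L) Ω (em (toH T).W L c)))
      (c := em (baseW (toH T).W L) Ω (em (toH T).W L c)) fun a b => rfl).1 (by
        rw [two_dim hd m]
        exact h1)
    intro a ha b hb
    have h3 := h2 a b
    rw [h4 a ha, h4 b hb] at h3
    exact h3
  have hZ1 : Z = (m / 2) • (1 : Module.End (baseW (baseW (toH T).W L) Ω).K
      ((baseW (baseW (toH T).W L) Ω).gr X 1)) := by
    refine LinearMap.ext fun v => Subtype.ext ?_
    have h1 := eq_half hND (ext0_gr Z 1) hSA' hmul v v.2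
    rw [ext0_same] at h1
    exact h1
  rw [hZ1]
  exact Submodule.smul_mem _ _ (one_mem_Ann hD.tgr)

end Pool.Agent.P8H28.SQ
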