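import Mathlib

/-!
# The core of the square theorem: weak Hodge elements and extremal vectors
-/

namespace Pool.Agent.P8H28.SQ

open Module

variable {K V M : Type*} [Field K] [AddCommGroup V] [Module K V] [AddCommGroup M] [Module K M]

/-- The subspace `g` of the operators is stable under brackets. -/
def IsLie (g : Submodule K (Module.End K V)) : Prop := ∀ x ∈ g, ∀ y ∈ g, x * y - y * x ∈ g

/-- The linear map `D` respects the brackets. -/
def IsRep (D : Module.End K V →ₗ[K] Module.End K M) : Prop :=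
  ∀ x y, D (x * y - y * x) = D x * D y - D y * D x

/-- The subspace `W` contains `u` and is stable under the operators in `D g`. -/
def StableWith (D : Module.End K V →ₗ[K] Module.End K M) (g : Submodule K (Module.End K V)) (u : M)
    (W : Submodule K M) : Prop := u ∈ W ∧ ∀ x ∈ g, ∀ w ∈ W, D x w ∈ W

/-- The vector `u` is extremal for the idempotent `p`: it is killed by the operators of degree one,
multiplied by scalars by the operators of degree zero, and not killed by the nonzero operators of
degree minus one. -/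
structure Extremal (D : Module.End K V →ₗ[K] Module.End K M) (p : Module.End K V) (u : M) :
    Prop where
  up : ∀ x, p * x = x → x * p = 0 → D x u = 0
  mid : ∀ x, p * x = x * p → ∃ c : K, D x u = c • u
  down : ∀ x, p * x = 0 → x * p = x → D x u = 0 → x = 0

section

variable {D : Module.End K V →ₗ[K] Module.End K M} {g : Submodule K (Module.End K V)}
  {p : Module.End K V} {u : M}

/-- The spaces obtained from `u` by `k` operators of degree `-1`. -/
def Wk (D : Module.End K V →ₗ[K] Module.End K M) (g : Submodule K (Module.End K V))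
    (p : Module.End K V) (u : M) : ℕ → Submodule K M
  | 0 => Submodule.span K {u}
  | k + 1 => Submodule.span K {x | ∃ y ∈ g, p * y = 0 ∧ y * p = y ∧ ∃ w ∈ Wk D g p u k, x = D y w}

theorem D_Wk {y : Module.End K V} (hy : y ∈ g) (h1 : p * y = 0) (h2 : y * p = y) {k : ℕ} {w : M}
    (hw : w ∈ Wk D g p u k) : D y w ∈ Wk D g p u (k + 1) :=
  Submodule.subset_span ⟨y, hy, h1, h2, w, hw, rfl⟩

theorem brk {x y : Module.End K V} (hD : IsRep D) (w : M) :
    D x (D y w) = D y (D x w) + D (x * y - y * x) w := by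
  rw [hD, LinearMap.sub_apply, Module.End.mul_apply, Module.End.mul_apply]
  abel

theorem Wk_eigen (hD : IsRep D) {d : K} (hd : D p u = d • u) (k : ℕ) :
    ∀ w ∈ Wk D g p u k, D p w = (d - k) • w := by
  induction k with
  | zero =>
    intro w hw
    obtain ⟨c, rfl⟩ := Submodule.mem_span_singleton.1 hw
    rw [map_smul, hd, Nat.cast_zero, sub_zero, smul_comm]
  | succ k ih =>
    intro w hw
    induction hw using Submodule.span_induction with
    | mem w hw =>
      obtain ⟨y, hy, h1, h2, w, hw, rfl⟩ := hw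
      rw [brk hD, ih w hw, h1, h2, zero_sub, map_neg, LinearMap.neg_apply, map_smul, Nat.cast_succ]
      module
    | zero => rw [map_zero, smul_zero]
    | add x y _ _ hx hy => rw [map_add, hx, hy, smul_add]
    | smul c x _ hx => rw [map_smul, hx, smul_comm]

theorem Wk_mid (hg : IsLie g) (hD : IsRep D) (hu : Extremal D p u) (k : ℕ) :
    ∀ x ∈ g, p * x = x * p → ∀ w ∈ Wk D g p u k, D x w ∈ Wk D g p u k := by
  induction k with
  | zero =>
    intro x _ hx w hw
    obtain ⟨c, rfl⟩ := Submodule.mem_span_singleton.1 hw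
    obtain ⟨c', hc'⟩ := hu.mid x hx
    rw [map_smul, hc']
    exact Submodule.smul_mem _ _ (Submodule.smul_mem _ _ (Submodule.mem_span_singleton_self u))
  | succ k ih =>
    intro x hxg hx w hw
    induction hw using Submodule.span_induction with
    | mem w hw =>
      obtain ⟨y, hy, h1, h2, w, hw, rfl⟩ := hw
      rw [brk hD]
      refine Submodule.add_mem _ (D_Wk hy h1 h2 (ih x hxg hx w hw))
        (D_Wk (hg x hxg y hy) ?_ ?_ hw)
      · rw [mul_sub, ← mul_assoc, hx, mul_assoc, h1, mul_zero, ← mul_assoc, h1, zero_mul, sub_zero]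
      · rw [sub_mul, mul_assoc, h2, mul_assoc, ← hx, ← mul_assoc, h2]
    | zero => rw [map_zero]; exact Submodule.zero_mem _
    | add x y _ _ hx hy => rw [map_add]; exact Submodule.add_mem _ hx hy
    | smul c x _ hx => rw [map_smul]; exact Submodule.smul_mem _ _ hx

theorem Wk_up (hg : IsLie g) (hD : IsRep D) (hu : Extremal D p u) (k : ℕ) :
    ∀ x ∈ g, p * x = x → x * p = 0 → (∀ w ∈ Wk D g p u 0, D x w = 0) ∧
      ∀ w ∈ Wk D g p u (k + 1), D x w ∈ Wk D g p u k := by
  intro x hxg hx1 hx2
  have h0 : ∀ w ∈ Wk D g p u 0, D x w = 0 := by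
    intro w hw
    obtain ⟨c, rfl⟩ := Submodule.mem_span_singleton.1 hw
    rw [map_smul, hu.up x hx1 hx2, smul_zero]
  refine ⟨h0, ?_⟩
  have key : ∀ k, (∀ w ∈ Wk D g p u k, ∀ y ∈ g, p * y = 0 → y * p = y →
      D y (D x w) ∈ Wk D g p u k) → ∀ w ∈ Wk D g p u (k + 1), D x w ∈ Wk D g p u k := by
    intro k hk w hw
    induction hw using Submodule.span_induction with
    | mem w hw =>
      obtain ⟨y, hy, h1, h2, w, hw, rfl⟩ := hw
      rw [brk hD]
      refine Submodule.add_mem _ (hk w hw y hy h1 h2)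
        (Wk_mid hg hD hu k _ (hg x hxg y hy) ?_ w hw)
      rw [mul_sub, sub_mul, ← mul_assoc, hx1, ← mul_assoc, h1, zero_mul, sub_zero, mul_assoc, h2,
        mul_assoc y, hx2, mul_zero, sub_zero]
    | zero => rw [map_zero]; exact Submodule.zero_mem _
    | add x y _ _ hx hy => rw [map_add]; exact Submodule.add_mem _ hx hy
    | smul c x _ hx => rw [map_smul]; exact Submodule.smul_mem _ _ hx
  induction k with
  | zero =>
    refine key 0 fun w hw y hy h1 h2 => ?_
    rw [h0 w hw, map_zero]
    exact Submodule.zero_mem _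
  | succ k ih => exact key (k + 1) fun w hw y hy h1 h2 => D_Wk hy h1 h2 (ih w hw)

/-- The components of an element of the Lie algebra. -/
theorem comps [CharZero K] (hg : IsLie g) (hp : p ∈ g) (hpp : p * p = p) {x : Module.End K V}
    (hx : x ∈ g) : p * x * (1 - p) ∈ g ∧ (1 - p) * x * p ∈ g ∧
      p * x * p + (1 - p) * x * (1 - p) ∈ g := by
  have h1 := hg p hp x hx
  have h2 := hg p hp _ h1
  have e1 : p * (p * x - x * p) - (p * x - x * p) * p =
      p * x * (1 - p) + (1 - p) * x * p := by
    have e2 : p * (p * x - x * p) - (p * x - x * p) * p =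
      (p * p) * x - p * x * p - p * x * p + x * (p * p) := by noncomm_ring
    rw [e2, hpp]
    noncomm_ring
  have e3 : p * x - x * p = p * x * (1 - p) - (1 - p) * x * p := by noncomm_ring
  rw [e1] at h2
  rw [e3] at h1
  have h3 : (2⁻¹ : K) • ((p * x * (1 - p) - (1 - p) * x * p) +
      (p * x * (1 - p) + (1 - p) * x * p)) ∈ g := Submodule.smul_mem _ _ (Submodule.add_mem _ h1 h2)
  have h4 : (2⁻¹ : K) • ((p * x * (1 - p) + (1 - p) * x * p) -
      (p * x * (1 - p) - (1 - p) * x * p)) ∈ g := Submodule.smul_mem _ _ (Submodule.sub_mem _ h2 h1)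
  have h20 : (2 : K) ≠ 0 := two_ne_zero
  have e5 : (2⁻¹ : K) • ((p * x * (1 - p) - (1 - p) * x * p) +
      (p * x * (1 - p) + (1 - p) * x * p)) = p * x * (1 - p) := by
    rw [show (p * x * (1 - p) - (1 - p) * x * p) + (p * x * (1 - p) + (1 - p) * x * p) =
      (2 : K) • (p * x * (1 - p)) by rw [two_smul]; abel, smul_smul, inv_mul_cancel₀ h20, one_smul]
  have e6 : (2⁻¹ : K) • ((p * x * (1 - p) + (1 - p) * x * p) -
      (p * x * (1 - p) - (1 - p) * x * p)) = (1 - p) * x * p := by
    rw [show (p * x * (1 - p) + (1 - p) * x * p) - (p * x * (1 - p) - (1 - p) * x * p) =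
      (2 : K) • ((1 - p) * x * p) by rw [two_smul]; abel, smul_smul, inv_mul_cancel₀ h20, one_smul]
  rw [e5] at h3
  rw [e6] at h4
  refine ⟨h3, h4, ?_⟩
  have h7 := Submodule.sub_mem _ (Submodule.sub_mem _ hx h3) h4
  convert h7 using 1
  noncomm_ring

/-- The sum of the spaces `Wk` is stable. -/
theorem stable_Wk [CharZero K] (hg : IsLie g) (hD : IsRep D) (hu : Extremal D p u) (hp : p ∈ g)
    (hpp : p * p = p) : StableWith D g u (⨆ k, Wk D g p u k) := by
  refine ⟨Submodule.mem_iSup_of_mem 0 (Submodule.mem_span_singleton_self u), fun x hx w hw => ?_⟩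
  obtain ⟨h1, h2, h3⟩ := comps hg hp hpp hx
  have hx' : x = p * x * (1 - p) + (1 - p) * x * p + (p * x * p + (1 - p) * x * (1 - p)) := by
    noncomm_ring
  have q1 : p * (1 - p) = 0 := by rw [mul_sub, mul_one, hpp, sub_self]
  have q2 : (1 - p) * p = 0 := by rw [sub_mul, one_mul, hpp, sub_self]
  induction hw using Submodule.iSup_induction' with
  | mem k w hw =>
    rw [hx', map_add, map_add, LinearMap.add_apply, LinearMap.add_apply]
    refine Submodule.add_mem _ (Submodule.add_mem _ ?_ ?_) ?_
    · have h4 := fun k => Wk_up hg hD hu k _ h1 (by rw [← mul_assoc, ← mul_assoc, hpp])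
        (by rw [mul_assoc, q2, mul_zero])
      cases k with
      | zero => rw [(h4 0).1 w hw]; exact Submodule.zero_mem _
      | succ k => exact Submodule.mem_iSup_of_mem k ((h4 k).2 w hw)
    · exact Submodule.mem_iSup_of_mem (k + 1) (D_Wk h2 (by rw [← mul_assoc, ← mul_assoc, q1,
        zero_mul, zero_mul]) (by rw [mul_assoc, hpp]) hw)
    · refine Submodule.mem_iSup_of_mem k (Wk_mid hg hD hu k _ h3 ?_ w hw)
      rw [mul_add, add_mul, ← mul_assoc, ← mul_assoc, hpp, ← mul_assoc, ← mul_assoc, q1, zero_mul,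
        zero_mul, mul_assoc _ (1 - p) p, q2, mul_zero, mul_assoc (p * x), hpp]
  | zero => rw [map_zero]; exact Submodule.zero_mem _
  | add x y _ _ hx hy => rw [map_add]; exact Submodule.add_mem _ hx hy

/-- **The core lemma.** An operator `x` of degree `-1` such that `D x u` belongs to all the
subspaces which contain `u` and are stable under `D g` is in `g`. -/
theorem core_down [CharZero K] (hg : IsLie g) (hD : IsRep D) (hu : Extremal D p u) (hp : p ∈ g)
    (hpp : p * p = p) {x : Module.End K V} (h1 : p * x = 0) (h2 : x * p = x)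
    (hx : ∀ W, StableWith D g u W → D x u ∈ W) : x ∈ g := by
  obtain ⟨d, hd⟩ := hu.mid p rfl
  have h3 := hx _ (stable_Wk hg hD hu hp hpp)
  have h4 : D p (D x u) = (d - 1) • D x u := by
    rw [brk hD, hd, h1, h2, zero_sub, map_neg, LinearMap.neg_apply, map_smul]
    module
  -- the component in `Wk 1`
  have h5 : D x u ∈ Wk D g p u 1 := by
    obtain ⟨f, hf, hsum⟩ := (Submodule.mem_iSup_iff_exists_finsupp _ _).1 h3
    have h6 : D x u - f 1 ∈ (⨆ (μ : K) (_ : μ ≠ d - 1), Module.End.eigenspace (D p) μ) := by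
      have h7 : D x u - f 1 = ∑ k ∈ f.support.erase 1, f k := by
        rw [← hsum, Finsupp.sum]
        by_cases h8 : (1 : ℕ) ∈ f.support
        · rw [← Finset.add_sum_erase _ _ h8, add_sub_cancel_left]
        · rw [Finsupp.notMem_support_iff.1 h8, sub_zero, Finset.erase_eq_of_notMem h8]
      rw [h7]
      refine Submodule.sum_mem _ fun k hk => ?_
      have hk1 : k ≠ 1 := (Finset.mem_erase.1 hk).1
      refine Submodule.mem_iSup_of_mem (d - k) (Submodule.mem_iSup_of_mem ?_ ?_)
      · intro h8
        apply hk1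
        have h9 : (k : K) = ((1 : ℕ) : K) := by
          rw [Nat.cast_one]
          linear_combination -h8
        exact Nat.cast_injective h9
      · rw [Module.End.mem_eigenspace_iff]
        exact Wk_eigen hD hd k _ (hf k)
    have h7 : D x u - f 1 ∈ Module.End.eigenspace (D p) (d - 1) := by
      rw [Module.End.mem_eigenspace_iff, map_sub, h4, Wk_eigen hD hd 1 _ (hf 1), Nat.cast_one,
        smul_sub]
    have h8 := (Module.End.eigenspaces_iSupIndep (D p) (d - 1)).le_bot ⟨h7, h6⟩
    rw [Submodule.mem_bot, sub_eq_zero] at h8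
    rw [h8]
    exact hf 1
  have h6 : ∀ w ∈ Wk D g p u 1, ∃ y ∈ g, p * y = 0 ∧ y * p = y ∧ w = D y u := by
    intro w hw
    change w ∈ Submodule.span K _ at hw
    induction hw using Submodule.span_induction with
    | mem w hw =>
      obtain ⟨y, hy, e1, e2, w', hw', rfl⟩ := hw
      obtain ⟨c, rfl⟩ := Submodule.mem_span_singleton.1 hw'
      exact ⟨c • y, Submodule.smul_mem _ _ hy, by rw [mul_smul_comm, e1, smul_zero],
        by rw [smul_mul_assoc, e2], by rw [map_smul, map_smul, LinearMap.smul_apply]⟩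
    | zero => exact ⟨0, Submodule.zero_mem _, mul_zero _, zero_mul _, by rw [map_zero]; rfl⟩
    | add x y _ _ hx hy =>
      obtain ⟨a, ha, a1, a2, rfl⟩ := hx
      obtain ⟨b, hb, b1, b2, rfl⟩ := hy
      exact ⟨a + b, Submodule.add_mem _ ha hb, by rw [mul_add, a1, b1, add_zero],
        by rw [add_mul, a2, b2], by rw [map_add, LinearMap.add_apply]⟩
    | smul c x _ hx =>
      obtain ⟨a, ha, a1, a2, rfl⟩ := hx
      exact ⟨c • a, Submodule.smul_mem _ _ ha, by rw [mul_smul_comm, a1, smul_zero],
        by rw [smul_mul_assoc, a2], by rw [map_smul, LinearMap.smul_apply]⟩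
  obtain ⟨y, hy, e1, e2, e3⟩ := h6 _ h5
  have h7 : x - y = 0 := hu.down _ (by rw [mul_sub, h1, e1, sub_zero]) (by rw [sub_mul, h2, e2])
    (by rw [map_sub, LinearMap.sub_apply, e3, sub_self])
  rw [sub_eq_zero.1 h7]
  exact hy

/-- For an element `x` of a larger Lie algebra `h` the bracket `[p, x]` is in `g`. -/
theorem core_bracket [CharZero K] (hg : IsLie g) (hD : IsRep D) {u' : M} (hu : Extremal D p u)
    (hu' : Extremal D (1 - p) u') (hp : p ∈ g) (h1 : (1 : Module.End K V) ∈ g) (hpp : p * p = p)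
    {h : Submodule K (Module.End K V)} (hh : IsLie h) (hgh : g ≤ h)
    (hS : ∀ x ∈ h, ∀ W, (StableWith D g u W → D x u ∈ W) ∧ (StableWith D g u' W → D x u' ∈ W))
    {x : Module.End K V} (hx : x ∈ h) : p * x - x * p ∈ g := by
  obtain ⟨h2, h3, -⟩ := comps hh (hgh hp) hpp hx
  have q1 : p * (1 - p) = 0 := by rw [mul_sub, mul_one, hpp, sub_self]
  have q2 : (1 - p) * p = 0 := by rw [sub_mul, one_mul, hpp, sub_self]
  have q3 : (1 - p) * (1 - p) = 1 - p := by rw [mul_sub, mul_one, q2, sub_zero]
  have h4 : (1 - p) * x * p ∈ g := core_down hg hD hu hp hpp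
    (by rw [← mul_assoc, ← mul_assoc, q1, zero_mul, zero_mul]) (by rw [mul_assoc, hpp])
    fun W => (hS _ h3 W).1
  have h5 : p * x * (1 - p) ∈ g := core_down (p := 1 - p) hg hD hu' (Submodule.sub_mem _ h1 hp) q3
    (by rw [← mul_assoc, ← mul_assoc, q2, zero_mul, zero_mul]) (by rw [mul_assoc, q3])
    fun W => (hS _ h2 W).2
  have h6 := Submodule.sub_mem _ h5 h4
  convert h6 using 1
  noncomm_ring

end

end Pool.Agent.P8H28.SQ
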