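import Pool.Agent.P8H28.SQ.Kun

/-!
# Operators on the cohomology and classes on the product
-/

set_option linter.unusedSectionVars false

open CategoryTheory AlgebraicGeometry TensorProduct

universe u v

namespace Pool.Agent.P8H28.SQ

open Module
open Pool.Agent.Y121.AH (dia dia_apply)
open Pool.Agent.H914 Pool.Agent.H914.VarClass Pool.Agent.H914.VarClass.Obj
  Pool.Agent.H914.WeilCohomology

variable {k : Type u} [Field k] {𝒱 : VarClass k} {ops : CycleOps 𝒱}
  {W : WeilCohomology.{u, v} ops} {X Y : 𝒱.Obj}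

/-- The linear form on the cohomology of the product given by a bilinear form. -/
noncomputable def kForm (B : W.H X →ₗ[W.K] W.H Y →ₗ[W.K] W.K) : W.H (X.prod Y) →ₗ[W.K] W.K :=
  TensorProduct.lift B ∘ₗ (LinearEquiv.ofBijective _ (W.kunneth X Y)).symm.toLinearMap

theorem kForm_apply (B : W.H X →ₗ[W.K] W.H Y →ₗ[W.K] W.K) (a : W.H X) (b : W.H Y) :
    kForm B (W.map (fst X Y) a * W.map (snd X Y) b) = B a b := by
  have h1 : (LinearEquiv.ofBijective _ (W.kunneth X Y)).symm
      (W.map (fst X Y) a * W.map (snd X Y) b) = a ⊗ₜ[W.K] b := by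
    rw [LinearEquiv.symm_apply_eq]
    rfl
  unfold kForm
  simp only [LinearMap.comp_apply, LinearEquiv.coe_coe]
  rw [h1, TensorProduct.lift.tmul]

/-- Poincaré duality: every linear form is given by a class. -/
theorem exists_class (F : W.H X →ₗ[W.K] W.K) : ∃ c : W.H X, ∀ z, W.tr X (c * z) = F z := by
  let P : W.H X →ₗ[W.K] Module.Dual W.K (W.H X) := (LinearMap.mul W.K (W.H X)).compr₂ (W.tr X)
  have hP : ∀ c z, P c z = W.tr X (c * z) := fun c z => rfl
  have hinj : Function.Injective P := by
    rw [injective_iff_map_eq_zero]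
    intro c hc
    refine W.nondeg c fun b => ?_
    rw [← hP, hc, LinearMap.zero_apply]
  have hsurj := (LinearMap.injective_iff_surjective_of_finrank_eq_finrank
    (Subspace.dual_finrank_eq (K := W.K) (V := W.H X)).symm).1 hinj
  obtain ⟨c, hc⟩ := hsurj F
  exact ⟨c, fun z => by rw [← hP, hc]⟩

/-- The class of a bilinear form. -/
theorem exists_kclass (B : W.H X →ₗ[W.K] W.H Y →ₗ[W.K] W.K) :
    ∃ c : W.H (X.prod Y), ∀ a b,
      W.tr (X.prod Y) (c * (W.map (fst X Y) a * W.map (snd X Y) b)) = B a b := by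
  obtain ⟨c, hc⟩ := exists_class (kForm B)
  exact ⟨c, fun a b => by rw [hc, kForm_apply]⟩

theorem eq_of_tr {c c' : W.H X} (h : ∀ z, W.tr X (c * z) = W.tr X (c' * z)) : c = c' := by
  rw [← sub_eq_zero]
  refine W.nondeg _ fun b => ?_
  rw [sub_mul, map_sub, h, sub_self]

theorem eq_of_ktr {c c' : W.H (X.prod Y)}
    (h : ∀ a b, W.tr (X.prod Y) (c * (W.map (fst X Y) a * W.map (snd X Y) b)) =
      W.tr (X.prod Y) (c' * (W.map (fst X Y) a * W.map (snd X Y) b))) : c = c' := by
  refine eq_of_tr fun z => ?_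
  refine kun_ind (P := fun z => W.tr (X.prod Y) (c * z) = W.tr (X.prod Y) (c' * z)) ?_ ?_ z
  · intro i j a _ b _
    exact h a b
  · intro z z' h1 h2
    rw [mul_add, mul_add, map_add, map_add, h1, h2]

/-- A derivation multiplies the traces by `t`. -/
def TrDer (D : Module.End W.K (W.H X)) (t : W.K) : Prop := ∀ z, W.tr X (D z) = t * W.tr X z

theorem kOp_tr {D : Module.End W.K (W.H X)} {E : Module.End W.K (W.H Y)} {s t : W.K}
    (hD : TrDer D s) (hE : TrDer E t) : TrDer (kOp D E) (s + t) := by
  intro z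
  refine kun_ind (P := fun z => W.tr (X.prod Y) (kOp D E z) = (s + t) * W.tr (X.prod Y) z) ?_ ?_ z
  · intro i j a _ b _
    rw [kOp_apply, map_add, W.tr_prod, W.tr_prod, W.tr_prod, hD, hE]
    ring
  · intro a b ha hb
    rw [map_add, map_add, ha, hb, map_add, mul_add]

theorem dg_tr : TrDer (dg W X) (2 * X.dim : W.K) := by
  intro z
  refine gr_ind (P := fun z => W.tr X (dg W X z) = (2 * X.dim : W.K) * W.tr X z) ?_ ?_ z
  · intro i a ha
    rw [dg_apply ha, map_smul, smul_eq_mul]
    by_cases h : i = 2 * X.dim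
    · rw [h]
      push_cast
      ring
    · rw [W.tr_eq_zero ha h, mul_zero, mul_zero]
  · intro a b ha hb
    rw [map_add, map_add, ha, hb, map_add, mul_add]

theorem dg_der : IsDer (dg W X) := by
  intro a b
  refine gr_ind (P := fun a => dg W X (a * b) = dg W X a * b + a * dg W X b) ?_ ?_ a
  · intro i a ha
    refine gr_ind (P := fun b => dg W X (a * b) = dg W X a * b + a * dg W X b) ?_ ?_ b
    · intro j b hb
      rw [dg_apply ha, dg_apply hb, dg_apply (W.mul_mem ha hb), Nat.cast_add, add_smul,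
        smul_mul_assoc, mul_smul_comm]
    · intro b b' h1 h2
      rw [mul_add, map_add, h1, h2, map_add]
      noncomm_ring
  · intro a a' h1 h2
    rw [add_mul, map_add, h1, h2, map_add]
    noncomm_ring

/-- The effect of a derivation of the product on the class of a bilinear form. -/
theorem der_class {D : Module.End W.K (W.H X)} {E : Module.End W.K (W.H Y)} (hD : PresGr D)
    (hE : PresGr E) (hD' : IsDer D) (hE' : IsDer E) {s t r : W.K} (hDt : TrDer D s)
    (hEt : TrDer E t) {B : W.H X →ₗ[W.K] W.H Y →ₗ[W.K] W.K} {c : W.H (X.prod Y)}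
    (hc : ∀ a b, W.tr (X.prod Y) (c * (W.map (fst X Y) a * W.map (snd X Y) b)) = B a b) :
    kOp D E c = (s + t - r) • c ↔ ∀ a b, B (D a) b + B a (E b) = r * B a b := by
  have h1 : ∀ a b, W.tr (X.prod Y) (kOp D E c * (W.map (fst X Y) a * W.map (snd X Y) b)) =
      (s + t) * B a b - (B (D a) b + B a (E b)) := by
    intro a b
    have h2 := kOp_der hD hE hD' hE' c (W.map (fst X Y) a * W.map (snd X Y) b)
    have h3 := kOp_tr hDt hEt (c * (W.map (fst X Y) a * W.map (snd X Y) b))
    rw [h2, kOp_apply, mul_add, map_add, map_add, hc, hc, hc] at h3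
    linear_combination h3
  constructor
  · intro h a b
    have h2 := h1 a b
    rw [h, smul_mul_assoc, map_smul, hc, smul_eq_mul] at h2
    linear_combination h2
  · intro h
    refine eq_of_ktr fun a b => ?_
    rw [h1, h, smul_mul_assoc, map_smul, hc, smul_eq_mul]
    ring

/-- The form given by an operator. -/
noncomputable def opForm (p : Module.End W.K (W.H X)) : W.H X →ₗ[W.K] W.H X →ₗ[W.K] W.K :=
  ((LinearMap.mul W.K (W.H X)).compr₂ (W.tr X)) ∘ₗ p

theorem opForm_apply (p : Module.End W.K (W.H X)) (a b : W.H X) :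
    opForm p a b = W.tr X (p a * b) := rfl

/-- The class of an operator. -/
theorem exists_opclass (p : Module.End W.K (W.H X)) :
    ∃ c : W.H (X.prod X), ∀ a b,
      W.tr (X.prod X) (c * (W.map (fst X X) a * W.map (snd X X) b)) = W.tr X (p a * b) :=
  exists_kclass (opForm p)

/-- A derivation commutes with an operator if and only if it multiplies the class of the operator by
its trace. -/
theorem der_opclass {D : Module.End W.K (W.H X)} (hD : PresGr D) (hD' : IsDer D) {s : W.K}
    (hDt : TrDer D s) {p : Module.End W.K (W.H X)} {c : W.H (X.prod X)}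
    (hc : ∀ a b, W.tr (X.prod X) (c * (W.map (fst X X) a * W.map (snd X X) b)) =
      W.tr X (p a * b)) : kOp D D c = s • c ↔ ∀ a, p (D a) = D (p a) := by
  have h1 := der_class (r := s) hD hD hD' hD' hDt hDt (B := opForm p) hc
  rw [add_sub_cancel_right] at h1
  rw [h1]
  constructor
  · intro h a
    refine eq_of_tr fun b => ?_
    have h2 := h a b
    have h3 := hDt (p a * b)
    rw [hD', map_add] at h3
    rw [opForm_apply, opForm_apply, opForm_apply] at h2
    linear_combination h2 - h3
  · intro h a b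
    have h3 := hDt (p a * b)
    rw [hD', map_add] at h3
    rw [opForm_apply, opForm_apply, opForm_apply, h]
    exact h3

/-- The class of an operator which preserves the degrees. -/
theorem opclass_gr {p : Module.End W.K (W.H X)} (hp : PresGr p) {c : W.H (X.prod X)}
    (hc : ∀ a b, W.tr (X.prod X) (c * (W.map (fst X X) a * W.map (snd X X) b)) =
      W.tr X (p a * b)) : c ∈ W.gr (X.prod X) (2 * X.dim) := by
  rw [mem_gr_iff, dg_prod]
  have h1 : PresGr (dg W X) := fun i a ha => by
    rw [dg_apply ha]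
    exact Submodule.smul_mem _ _ ha
  have h2 := (der_opclass h1 dg_der dg_tr hc).2 fun a => (presGr_iff.1 hp a).symm
  rw [h2]
  push_cast
  rfl

/-- The class of an operator which commutes with an automorphism. -/
theorem opclass_aut {p : Module.End W.K (W.H X)} {σ : W.H X → W.H X}
    (hσ : ∀ a b, σ (a * b) = σ a * σ b) {r : W.K}
    (hσt : ∀ a, W.tr X (σ a) = r * W.tr X a) (hp : ∀ a, p (σ a) = σ (p a)) {c : W.H (X.prod X)}
    (hc : ∀ a b, W.tr (X.prod X) (c * (W.map (fst X X) a * W.map (snd X X) b)) =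
      W.tr X (p a * b)) {τ : W.H (X.prod X) ≃ₐ[W.K] W.H (X.prod X)}
    (hτ1 : ∀ a, τ (W.map (fst X X) a) = W.map (fst X X) (σ a))
    (hτ2 : ∀ a, τ (W.map (snd X X) a) = W.map (snd X X) (σ a))
    (hτt : ∀ z, W.tr (X.prod X) (τ z) = r * r * W.tr (X.prod X) z) : τ c = r • c := by
  refine eq_of_tr fun z => ?_
  obtain ⟨z, rfl⟩ := τ.surjective z
  refine kun_ind (P := fun z => W.tr (X.prod X) (τ c * τ z) = W.tr (X.prod X) (r • c * τ z))
    ?_ ?_ z
  · intro i j a _ b _
    have h1 : W.tr (X.prod X) (τ c * τ (W.map (fst X X) a * W.map (snd X X) b)) =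
        r * r * W.tr X (p a * b) := by
      rw [← map_mul, hτt, hc]
    rw [h1, map_mul τ, hτ1, hτ2, smul_mul_assoc, map_smul, hc, hp, ← hσ, hσt,
      smul_eq_mul]
    ring
  · intro z z' h1 h2
    rw [map_add, mul_add, mul_add, map_add, map_add, h1, h2]

end Pool.Agent.P8H28.SQ
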