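import Pool.Agent.P8H28.SQ.Trace

/-!
# Nondegeneracy of the trace form
-/

set_option linter.unusedSectionVars false

namespace Pool.Agent.P8H28.SQ

open Module

section engel

variable {K V : Type*} [Field K] [AddCommGroup V] [Module K V] [FiniteDimensional K V]

attribute [local instance 100] LieRing.ofAssociativeRing

/-- Engel's theorem. -/
theorem exists_killed {r : Submodule K (Module.End K V)} (hr : IsLie r)
    (hnil : ∀ y ∈ r, IsNilpotent y) {W : Submodule K V} (hW : ∀ y ∈ r, ∀ w ∈ W, y w ∈ W)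
    (hne : W ≠ ⊥) : ∃ w ∈ W, w ≠ 0 ∧ ∀ y ∈ r, y w = 0 := by
  let L : LieSubalgebra K (Module.End K V) :=
    { r with lie_mem' := fun {x y} hx hy => hr x hx y hy }
  let N : LieSubmodule K L V := { W with lie_mem := fun {x w} hw => hW x.1 x.2 w hw }
  have h1 : ∀ x : L, IsNilpotent (LieModule.toEnd K L N x) := by
    intro x
    obtain ⟨k, hk⟩ := hnil x.1 x.2
    refine ⟨k, LinearMap.ext fun w => Subtype.ext ?_⟩
    have h2 : ∀ k : ℕ, (((LieModule.toEnd K L N x) ^ k) w : V) = ((x.1 : Module.End K V) ^ k) w := by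
      intro k
      induction k with
      | zero => rfl
      | succ k ih =>
        rw [pow_succ', pow_succ', Module.End.mul_apply, Module.End.mul_apply, ← ih]
        rfl
    rw [h2, hk]
    rfl
  have h2 : LieModule.IsNilpotent L N := (LieModule.isNilpotent_iff_forall' (R := K)).2 h1
  have h3 : Nontrivial N := by
    rw [Submodule.ne_bot_iff] at hne
    obtain ⟨w, hw, hw0⟩ := hne
    exact ⟨⟨w, hw⟩, 0, fun h => hw0 (congrArg Subtype.val h)⟩
  have h4 : Nontrivial (LieModule.maxTrivSubmodule K L N) :=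
    LieModule.nontrivial_max_triv_of_isNilpotent K L N
  obtain ⟨⟨w, hw⟩, hw0⟩ := exists_ne (0 : LieModule.maxTrivSubmodule K L N)
  rw [LieModule.mem_maxTrivSubmodule] at hw
  refine ⟨w.1, w.2, fun h => hw0 (Subtype.ext (Subtype.ext h)), fun y hy => ?_⟩
  exact congrArg Subtype.val (hw ⟨y, hy⟩)

/-- The operators in `g` which are orthogonal to `g`. -/
def rad (g : Submodule K (Module.End K V)) : Submodule K (Module.End K V) where
  carrier := {y | y ∈ g ∧ ∀ x ∈ g, LinearMap.trace K V (x * y) = 0}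
  zero_mem' := ⟨g.zero_mem, fun x _ => by rw [mul_zero, map_zero]⟩
  add_mem' := by
    rintro a b ⟨ha, h1⟩ ⟨hb, h2⟩
    exact ⟨g.add_mem ha hb, fun x hx => by rw [mul_add, map_add, h1 x hx, h2 x hx, add_zero]⟩
  smul_mem' := by
    rintro c a ⟨ha, h1⟩
    exact ⟨g.smul_mem c ha, fun x hx => by rw [mul_smul_comm, map_smul, h1 x hx, smul_zero]⟩

theorem trace_assoc (x y z : Module.End K V) :
    LinearMap.trace K V (x * (y * z - z * y)) = LinearMap.trace K V ((x * y - y * x) * z) := by
  have h1 : LinearMap.trace K V (x * (z * y)) = LinearMap.trace K V (y * (x * z)) := by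
    rw [← mul_assoc, LinearMap.trace_mul_comm]
  rw [mul_sub, map_sub, h1, sub_mul, map_sub, mul_assoc, mul_assoc]

theorem rad_ideal {g : Submodule K (Module.End K V)} (hg : IsLie g) {x y : Module.End K V}
    (hx : x ∈ g) (hy : y ∈ rad g) : x * y - y * x ∈ rad g := by
  refine ⟨hg x hx y hy.1, fun z hz => ?_⟩
  rw [trace_assoc]
  exact hy.2 _ (hg z hz x hx)

variable [IsAlgClosed K] [CharZero K]

/-- The trace form of a Lie algebra `g` which contains the replicas of its elements and acts
semisimply is nondegenerate. -/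
theorem rad_eq_bot {g : Submodule K (Module.End K V)} (hg : IsLie g)
    (hrep : ∀ Y ∈ g, ∀ φ : K →+ ℚ, ∀ y, IsReplica (fun μ => (φ μ : K)) Y y → y ∈ g)
    (hss : ∀ W : Submodule K V, (∀ x ∈ g, ∀ w ∈ W, x w ∈ W) →
      ∃ W' : Submodule K V, (∀ x ∈ g, ∀ w ∈ W', x w ∈ W') ∧ IsCompl W W') : rad g = ⊥ := by
  have hr : IsLie (rad g) := fun x hx y hy => rad_ideal hg hx.1 hy
  have hnil : ∀ y ∈ rad g, IsNilpotent y := fun y hy =>
    nilpotent_of_replicas fun φ z hz => hy.2 z (hrep y hy.1 φ z hz)
  let W : Submodule K V :=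
    { carrier := {w | ∀ y ∈ rad g, y w = 0}
      zero_mem' := fun y _ => map_zero y
      add_mem' := fun ha hb y hy => by rw [map_add, ha y hy, hb y hy, add_zero]
      smul_mem' := fun c a ha y hy => by rw [map_smul, ha y hy, smul_zero] }
  obtain ⟨W', hW', hc⟩ := hss W (by
    intro x hx w hw y hy
    have h1 := hw _ (rad_ideal hg hx hy)
    rw [LinearMap.sub_apply, Module.End.mul_apply, Module.End.mul_apply, hw y hy, map_zero,
      zero_sub, neg_eq_zero] at h1
    exact h1)
  have h1 : W' = ⊥ := by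
    by_contra hne
    obtain ⟨w, hw, hw0, h2⟩ := exists_killed hr hnil (fun y hy w hw => hW' y hy.1 w hw) hne
    exact hw0 ((Submodule.disjoint_def.1 hc.disjoint) w h2 hw)
  have h2 : W = ⊤ := by
    have h3 := hc.sup_eq_top
    rwa [h1, sup_bot_eq] at h3
  rw [eq_bot_iff]
  intro y hy
  rw [Submodule.mem_bot]
  refine LinearMap.ext fun w => ?_
  have h3 : w ∈ W := by rw [h2]; trivial
  exact h3 y hy

omit [IsAlgClosed K] [CharZero K] in
/-- Orthogonal decomposition. -/
theorem exists_orth {g : Submodule K (Module.End K V)} (h : rad g = ⊥) (x : Module.End K V) :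
    ∃ y ∈ g, ∀ z ∈ g, LinearMap.trace K V (z * (x - y)) = 0 := by
  let B : LinearMap.BilinForm K (Module.End K V) :=
    LinearMap.mk₂ K (fun a b => LinearMap.trace K V (a * b))
      (fun a b c => by rw [add_mul, map_add]) (fun a b c => by rw [smul_mul_assoc, map_smul])
      (fun a b c => by rw [mul_add, map_add]) (fun a b c => by rw [mul_smul_comm, map_smul])
  have hB : ∀ a b, B a b = LinearMap.trace K V (a * b) := fun a b => rfl
  have hsymm : B.IsRefl := fun a b hab => by rw [hB, LinearMap.trace_mul_comm]; exact hab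
  have hnd : (B.restrict g).Nondegenerate := by
    have h1 : (B.restrict g).SeparatingRight := by
      intro y hy
      have h2 : (y : Module.End K V) ∈ rad g := ⟨y.2, fun x hx => hy ⟨x, hx⟩⟩
      rw [h, Submodule.mem_bot] at h2
      exact Subtype.ext h2
    refine ⟨?_, h1⟩
    intro y hy
    refine h1 y fun x => ?_
    have h2 := hy x
    exact hsymm _ _ h2
  have h1 := (LinearMap.BilinForm.restrict_nondegenerate_iff_isCompl_orthogonal hsymm).1 hnd
  have h2 : x ∈ g ⊔ B.orthogonal g := by rw [h1.sup_eq_top]; trivial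
  obtain ⟨y, hy, z, hz, rfl⟩ := Submodule.mem_sup.1 h2
  refine ⟨y, hy, fun w hw => ?_⟩
  rw [add_sub_cancel_left]
  exact hz w hw

end engel

end Pool.Agent.P8H28.SQ
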