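import Pool.Agent.P8H28.SQ.Main3
import Pool.Agent.P8H28.SQ.Base

/-!
# Hodge classes and Tate classes on the powers
-/

set_option linter.unusedSectionVars false

open CategoryTheory AlgebraicGeometry TensorProduct

universe u

namespace Pool.Agent.P8H28.SQ

open Module
open Pool.Agent.Y121.AH
open Pool.Agent.Y133.Half (pw)
open Pool.Agent.H914 Pool.Agent.H914.VarClass Pool.Agent.H914.VarClass.Obj
  Pool.Agent.H914.WeilCohomology

variable {k : Type u} [Field k] {𝒱 : VarClass k} {ops : CycleOps 𝒱} {T : HodgeTheory ops}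
  {X : 𝒱.Obj} {L Ω : Type} [Field L] [Algebra T.W.K L] [Field Ω] [Algebra (baseW T.W L).K Ω]

/-- The Tate classes with extended coefficients. -/
def TTs (G : GaloisPowers (baseW T.W L) X) (Ω : Type) [Field Ω] [Algebra (baseW T.W L).K Ω]
    (n j : ℕ) : Set ((baseW (baseW T.W L) Ω).H (pw X n)) :=
  {x | ∃ c, IsTate G n j c ∧ x = em (baseW T.W L) Ω c}

/-- The Hodge classes with extended coefficients. -/
def HHs (T : HodgeTheory ops) (X : 𝒱.Obj) (L Ω : Type) [Field L] [Algebra T.W.K L] [Field Ω]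
    [Algebra (baseW T.W L).K Ω] (n j : ℕ) : Set ((baseW (baseW T.W L) Ω).H (pw X n)) :=
  {x | ∃ c, IsHodge T (pw X n) j c ∧ x = em (baseW T.W L) Ω (em T.W L c)}

/-- The restrictions of the weak Hodge operators to `H^1`. -/
def PP (G : GaloisPowers (baseW T.W L) X) (Ω : Type) [Field Ω] [Algebra (baseW T.W L).K Ω] :
    Set (Module.End (baseW (baseW T.W L) Ω).K ((baseW (baseW T.W L) Ω).gr X 1)) :=
  {p | ∃ N : WeakHodge G Ω, ∀ v : (baseW (baseW T.W L) Ω).gr X 1,
    (p v : (baseW (baseW T.W L) Ω).H X) = N.N 0 (v : (baseW (baseW T.W L) Ω).H X)}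

/-- Combinations of Hodge classes. -/
noncomputable def HSpan (T : HodgeTheory ops) (X : 𝒱.Obj) (L : Type) [Field L] [Algebra T.W.K L] (n j : ℕ) :
    Submodule (baseW T.W L).K ((baseW T.W L).H (pw X n)) :=
  Submodule.span (baseW T.W L).K {x | ∃ c, IsHodge T (pw X n) j c ∧ x = em T.W L c}

theorem em_span {W : WeilCohomology.{u, 0} ops} {Y : 𝒱.Obj} {L : Type} [Field L] [Algebra W.K L]
    {S : Set (W.H Y)} {S' : Set ((baseW W L).H Y)} (h : ∀ c ∈ S, em W L c ∈ S') {c : W.H Y}
    (hc : c ∈ Submodule.span W.K S) : em W L c ∈ Submodule.span (baseW W L).K S' := by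
  induction hc using Submodule.span_induction with
  | mem c hc => exact Submodule.subset_span (h c hc)
  | zero => rw [em_zero]; exact Submodule.zero_mem _
  | add a b _ _ ha hb => rw [em_add]; exact Submodule.add_mem _ ha hb
  | smul r a _ ha => rw [em_smul]; exact Submodule.smul_mem _ _ ha

/-- A weak Hodge operator is given by its restriction to `H^1`. -/
theorem weak_ext {G : GaloisPowers (baseW T.W L) X} (N : WeakHodge G Ω)
    {p : Module.End (baseW (baseW T.W L) Ω).K ((baseW (baseW T.W L) Ω).gr X 1)}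
    (hp : ∀ v : (baseW (baseW T.W L) Ω).gr X 1,
      (p v : (baseW (baseW T.W L) Ω).H X) = N.N 0 (v : (baseW (baseW T.W L) Ω).H X)) :
    IsExt p N.N where
  der := N.der
  fst := N.fst
  snd := N.snd
  zero v := (hp v).symm

/-- The Künneth components of the Tate classes with extended coefficients. -/
theorem mid_ext {G : GaloisPowers (baseW T.W L) X} {i j : ℕ}
    (hM : ∀ c, IsTate G 1 X.dim c → c ∈ KC (baseW T.W L) X X i j → c ∈ HSpan T X L 1 X.dim) :
    ∀ c ∈ TTs G Ω 1 X.dim, tOp (prj (baseW (baseW T.W L) Ω) X i)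
      (prj (baseW (baseW T.W L) Ω) X j) c ∈
        Submodule.span (baseW (baseW T.W L) Ω).K (HHs T X L Ω 1 X.dim) := by
  rintro _ ⟨c, hc, rfl⟩
  have h1 := tOp_em (W := baseW T.W L) (L := Ω) (X := X) (Y := X) i j c
  have h2 : em (baseW T.W L) Ω (tOp (prj (baseW T.W L) X i) (prj (baseW T.W L) X j) c) ∈
      Submodule.span (baseW (baseW T.W L) Ω).K (HHs T X L Ω 1 X.dim) := by
    refine em_span ?_ (hM _ (tate_tOp i j hc) (tOp_mem i j c))
    rintro _ ⟨h, hh, rfl⟩
    exact ⟨h, hh, rfl⟩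
  exact h1.symm ▸ h2

theorem dat (hX : AbType T.W X) {G : GaloisPowers (baseW T.W L) X}
    [Algebra.IsAlgebraic (baseW T.W L).K Ω]
    (hD : ∀ n j c, IsHodge T (pw X n) j c → IsTate G n j (em T.W L c)) (hS : Semisimple G)
    (hW : WeakHodgeGenerate G Ω) (hM : ∀ c, IsTate G 1 X.dim c →
      c ∈ KC (baseW T.W L) X X X.dim X.dim → c ∈ HSpan T X L 1 X.dim) :
    Dat ((hX.base L).base Ω) (G.base Ω) (TTs G Ω) (HHs T X L Ω) (PP G Ω) where
  tgr := by
    rintro n j _ ⟨c, hc, rfl⟩
    exact em_gr hc.1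
  tate n j c hc := tate_descent G hc
  sub := by
    rintro n j _ ⟨c, hc, rfl⟩
    exact Submodule.subset_span ⟨_, hD n j c hc, rfl⟩
  mid := mid_ext hM
  top := by
    have := hX.nt
    obtain ⟨l, hl, hl1⟩ := exists_tr_hodge T X
    refine ⟨_, ⟨l, hl, rfl⟩, ?_⟩
    have h1 : (baseW T.W L).tr X (em T.W L l) = 1 := by
      rw [em_tr, hl1]; exact map_one (algebraMap T.W.K L)
    have h2 : (baseW (baseW T.W L) Ω).tr X (em (baseW T.W L) Ω (em T.W L l)) = 1 := by
      rw [em_tr, h1]; exact map_one (algebraMap (baseW T.W L).K Ω)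
    intro h3
    exact one_ne_zero (h2.symm.trans h3)
  idem := by
    rintro p ⟨N, hN⟩
    refine LinearMap.ext fun v => Subtype.ext ?_
    rw [Module.End.mul_apply, hN, hN]
    exact (N.idem v v.2).2
  ann1 := by
    rintro p ⟨N, hN⟩ n j _ ⟨c, hc, rfl⟩
    rw [← (weak_ext N hN).eq ((hX.base L).base Ω) n]
    exact N.tate n j c hc
  gen n U hU := by
    obtain ⟨Δ, hΔ, h1⟩ := hW n U fun N x hx => by
      let p : Module.End (baseW (baseW T.W L) Ω).K ((baseW (baseW T.W L) Ω).gr X 1) :=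
        (N.N 0).restrict fun v hv => (N.idem v hv).1
      have hp : ∀ v : (baseW (baseW T.W L) Ω).gr X 1, (p v : (baseW (baseW T.W L) Ω).H X) =
        N.N 0 (v : (baseW (baseW T.W L) Ω).H X) := fun v => rfl
      have h2 := hU p ⟨N, hp⟩ x hx
      rw [← (weak_ext N hp).eq ((hX.base L).base Ω) n] at h2
      exact h2
    refine ⟨Δ, hΔ, fun g hg x hx => ?_⟩
    rw [base_rho]
    exact h1 g hg x hx
  proj Δ hΔ U hU := by
    obtain ⟨Q, h1, h2, h3⟩ := exists_proj (L := Ω) G hS hΔ U fun g hg x hx => by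
      rw [← base_rho]
      exact hU g hg x hx
    refine ⟨Q, h1, h2, fun g hg x => ?_⟩
    rw [base_rho, base_rho]
    exact h3 g hg x

end Pool.Agent.P8H28.SQ
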