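import Pool.Agent.P8H28.SQ.Fin1

/-!
# From the annihilators to the classes
-/

set_option linter.unusedSectionVars false

open CategoryTheory AlgebraicGeometry TensorProduct

universe u

namespace Pool.Agent.P8H28.SQ

open Module
open Pool.Agent.Y121.AH
open Pool.Agent.Y133.Half (pw)
open Pool.Agent.H914 Pool.Agent.H914.VarClass Pool.Agent.H914.VarClass.Obj
  Pool.Agent.H914.WeilCohomology

variable {k : Type u} [Field k] {𝒱 : VarClass k} {ops : CycleOps 𝒱} {T : HodgeTheory ops}
  {X : 𝒱.Obj} {L Ω : Type} [Field L] [Algebra T.W.K L] [Field Ω] [Algebra (baseW T.W L).K Ω]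

theorem dbl {K L Ω : Type} [Field K] [Field L] [Field Ω] [Algebra K L] [Algebra L Ω] (j : ℕ)
    (r : K) : algebraMap L Ω (algebraMap K L ((j : K) * r)) =
      (j : Ω) * algebraMap L Ω (algebraMap K L r) := by
  rw [map_mul, map_natCast, map_mul, map_natCast]

theorem em_inj {W : WeilCohomology.{u, 0} ops} {Y : 𝒱.Obj} {L : Type} [Field L] [Algebra W.K L]
    {a b : W.H Y} (h : em W L a = em W L b) : a = b := by
  rw [← sub_eq_zero]
  refine em_injective (L := L) ?_
  have h1 : em W L (a - b) = em W L a - em W L b := TensorProduct.tmul_sub _ _ _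
  rw [h1, h, sub_self]

/-- The slices of the Hodge operators belong to the annihilator of the Hodge classes. -/
theorem exE_mem (hX : AbType T.W X) (χ : ℂ →ₗ[T.W.K] T.W.K) (n j : ℕ) :
    ∀ c ∈ HHs T X L Ω n j, DL ((hX.base L).base Ω) n
      (exE (hX.base L) Ω (exE hX L (nh1 T χ X))) c =
      ((j : (baseW (baseW T.W L) Ω).K) * ex (baseW T.W L) Ω (ex T.W L (χ 1))) • c := by
  rintro _ ⟨c, hc, rfl⟩
  rw [DL_em, DL_em, ← nhs_eq hX χ n, nhs_hodge χ hc, em_smul, em_smul]
  congr 1
  exact @dbl T.W.K L Ω _ _ _ _ (inferInstanceAs (Algebra (baseW T.W L).K Ω)) j (χ 1)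

theorem slice_eig {K L V : Type*} [Field K] [Field L] [Algebra K L] [AddCommGroup V] [Module K V]
    {F : Module.End K V} {r : K} {x : L ⊗[K] V} (h : F.baseChange L x = algebraMap K L r • x)
    (φ : L →ₗ[K] K) : F (sl φ x) = r • sl φ x := by
  have h4 := sl_base φ F x
  rw [h, sl_smul] at h4
  exact h4.symm

/-- If the annihilators are the same, then all Tate classes are combinations of Hodge classes. -/
theorem tate_mem (hX : AbType T.W X) {G : GaloisPowers (baseW T.W L) X}
    (hD : ∀ n j c, IsHodge T (pw X n) j c → IsTate G n j (em T.W L c))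
    (h : Ann ((hX.base L).base Ω) (HHs T X L Ω) ≤ Ann ((hX.base L).base Ω) (TTs G Ω))
    {n j : ℕ} {c : (baseW T.W L).H (pw X n)} (hc : IsTate G n j c) : c ∈ HSpan T X L n j := by
  have h0 := mem_span_sl (K := T.W.K) (L := L) (V := T.W.H (pw X n)) c
  refine (Submodule.span_mono ?_ :
    Submodule.span L {y : L ⊗[T.W.K] T.W.H (pw X n) | ∃ φ : L →ₗ[T.W.K] T.W.K,
      y = (1 : L) ⊗ₜ[T.W.K] sl φ (c : L ⊗[T.W.K] T.W.H (pw X n))} ≤ _) h0
  rintro _ ⟨φ, rfl⟩
  have hgr : sl φ (c : L ⊗[T.W.K] T.W.H (pw X n)) ∈ T.W.gr (pw X n) (2 * j) := sl_mem φ hc.1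
  refine ⟨sl φ (c : L ⊗[T.W.K] T.W.H (pw X n)), isHodge_of_nhs hgr fun χ => ?_, rfl⟩
  obtain ⟨m, hm⟩ := h ⟨_, exE_mem (L := L) (Ω := Ω) hX χ⟩
  have hmul : (j : (baseW (baseW T.W L) Ω).K) * m =
      (j : (baseW (baseW T.W L) Ω).K) * ex (baseW T.W L) Ω (ex T.W L (χ 1)) ∨
      T.W.gr (pw X n) (2 * j) = ⊥ := by
    by_cases hj : j = 0
    · left
      rw [hj, Nat.cast_zero, zero_mul, zero_mul]
    by_cases hd : X.dim = 0
    · right
      have h1 : ∀ n, (pw X n).dim = 0 := by
        intro n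
        induction n with
        | zero => exact hd
        | succ n ih =>
          have h2 : (pw X (n + 1)).dim = (pw X n).dim + X.dim := dim_prod (pw X n) X
          rw [h2, ih, hd]
      exact T.W.gr_eq_bot _ _ (by rw [h1]; omega)
    · left
      congr 1
      have := hX.nt
      obtain ⟨l, hl, hl1⟩ := exists_tr_hodge T X
      have h1 := hm 0 X.dim _ ⟨_, hD 0 _ l hl, rfl⟩
      have h2 := exE_mem (L := L) (Ω := Ω) hX χ 0 X.dim _ ⟨l, hl, rfl⟩
      have h3 := h1.symm.trans h2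
      have h4 : em (baseW T.W L) Ω (em T.W L l) ≠ 0 := by
        intro h5
        have h6 := em_injective (L := L) (em_injective (L := Ω) h5)
        rw [h6, map_zero] at hl1
        exact zero_ne_one hl1
      have h5 := smul_left_injective (baseW (baseW T.W L) Ω).K h4 h3
      have h6 : (X.dim : (baseW (baseW T.W L) Ω).K) ≠ 0 := Nat.cast_ne_zero.2 hd
      exact mul_left_cancel₀ h6 h5
  rcases hmul with hmul | hbot
  · have h1 := hm n j _ ⟨c, hc, rfl⟩
    rw [DL_em, DL_base, hmul] at h1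
    rw [nhs_eq hX χ n]
    refine slice_eig ?_ φ
    refine em_inj (W := baseW T.W L) (L := Ω) (Y := pw X n) (h1.trans ?_)
    have h3 := em_smul (W := baseW T.W L) (L := Ω) (algebraMap T.W.K L ((j : T.W.K) * χ 1)) c
    refine Eq.trans ?_ h3.symm
    congr 1
    exact (@dbl T.W.K L Ω _ _ _ _ (inferInstanceAs (Algebra (baseW T.W L).K Ω)) j (χ 1)).symm
  · rw [hbot, Submodule.mem_bot] at hgr
    rw [hgr, map_zero, smul_zero]

end Pool.Agent.P8H28.SQ
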