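import Pool.Agent.P8H28.SQ.Slice
import Pool.Agent.P8H28.SQ.Defs

/-!
# Galois actions after an extension of the coefficients
-/

set_option linter.unusedSectionVars false

open CategoryTheory AlgebraicGeometry TensorProduct

universe u

namespace Pool.Agent.P8H28.SQ

open Module
open Pool.Agent.Y121.AH (em)
open Pool.Agent.Y133.Half (pw)
open Pool.Agent.H914 Pool.Agent.H914.VarClass Pool.Agent.H914.VarClass.Obj
  Pool.Agent.H914.WeilCohomology

variable {k : Type u} [Field k] {𝒱 : VarClass k} {ops : CycleOps 𝒱}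
  {W : WeilCohomology.{u, 0} ops} {X : 𝒱.Obj}

/-- The extension of an automorphism. -/
noncomputable def extAut {K L A : Type} [Field K] [Field L] [Algebra K L] [Ring A] [Algebra K A]
    (e : A ≃ₐ[K] A) : (L ⊗[K] A) ≃ₐ[L] (L ⊗[K] A) :=
  Algebra.TensorProduct.congr AlgEquiv.refl e

theorem extAut_tmul {K L A : Type} [Field K] [Field L] [Algebra K L] [Ring A] [Algebra K A]
    (e : A ≃ₐ[K] A) (l : L) (a : A) : extAut e (l ⊗ₜ[K] a) = l ⊗ₜ[K] e a := rfl

theorem extAut_base {K L A : Type} [Field K] [Field L] [Algebra K L] [Ring A] [Algebra K A]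
    (e : A ≃ₐ[K] A) (x : L ⊗[K] A) : extAut e x = (e.toLinearMap).baseChange L x := by
  refine tmul_induction (P := fun x => extAut e x = (e.toLinearMap).baseChange L x) ?_ ?_ ?_ x
  · rw [map_zero, map_zero]
  · intro x y h1 h2
    rw [map_add, map_add, h1, h2]
  · intro l a
    rw [extAut_tmul, LinearMap.baseChange_tmul]
    rfl

/-- The action with extended coefficients. -/
noncomputable def extRho {K L A Γ : Type} [Field K] [Field L] [Algebra K L] [Ring A] [Algebra K A]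
    [Group Γ] (ρ : Γ →* (A ≃ₐ[K] A)) : Γ →* ((L ⊗[K] A) ≃ₐ[L] (L ⊗[K] A)) where
  toFun g := extAut (ρ g)
  map_one' := by
    refine AlgEquiv.ext fun x => ?_
    refine tmul_induction (P := fun x => extAut (ρ 1) x =
      (1 : (L ⊗[K] A) ≃ₐ[L] (L ⊗[K] A)) x) ?_ ?_ ?_ x
    · rw [map_zero, map_zero]
    · intro x y h1 h2
      rw [map_add, map_add, h1, h2]
    · intro l a
      rw [extAut_tmul, map_one]
      rfl
  map_mul' g h := by
    refine AlgEquiv.ext fun x => ?_
    refine tmul_induction (P := fun x => extAut (ρ (g * h)) x =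
      (extAut (ρ g) * extAut (ρ h) : (L ⊗[K] A) ≃ₐ[L] (L ⊗[K] A)) x) ?_ ?_ ?_ x
    · rw [map_zero, map_zero]
    · intro x y h1 h2
      rw [map_add, map_add, h1, h2]
    · intro l a
      rw [extAut_tmul, map_mul]
      rfl

theorem extRho_comm {K L A B Γ : Type} [Field K] [Field L] [Algebra K L] [Ring A] [Algebra K A]
    [Ring B] [Algebra K B] [Group Γ] {ρ : Γ →* (A ≃ₐ[K] A)} {ρ' : Γ →* (B ≃ₐ[K] B)}
    {f : A →ₐ[K] B} {g : Γ} (h : ∀ a, ρ' g (f a) = f (ρ g a)) (x : L ⊗[K] A) :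
    extRho (L := L) ρ' g (mapBase L f x) = mapBase L f (extRho (L := L) ρ g x) := by
  refine tmul_induction (P := fun x => extRho (L := L) ρ' g (mapBase L f x) =
    mapBase L f (extRho (L := L) ρ g x)) ?_ ?_ ?_ x
  · rw [map_zero, map_zero, map_zero, map_zero]
  · intro x y h1 h2
    rw [map_add, map_add, map_add, map_add, h1, h2]
  · intro l a
    exact congrArg (fun z => l ⊗ₜ[K] z) (h a)

theorem extRho_apply {K L A Γ : Type} [Field K] [Field L] [Algebra K L] [Ring A] [Algebra K A]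
    [Group Γ] (ρ : Γ →* (A ≃ₐ[K] A)) (g : Γ) (x : L ⊗[K] A) :
    extRho (L := L) ρ g x = (ρ g).toLinearMap.baseChange L x := extAut_base (ρ g) x

theorem slice_tate {K L A : Type} [Field K] [Field L] [Algebra K L] [Ring A] [Algebra K A]
    {e : A ≃ₐ[K] A} {r : K} {x : L ⊗[K] A}
    (h : e.toLinearMap.baseChange L x = algebraMap K L r • x) (φ : L →ₗ[K] K) :
    e (sl φ x) = r • sl φ x := by
  have h4 := sl_base φ e.toLinearMap x
  rw [h, sl_smul] at h4
  exact h4.symm

theorem ext_tate {K L A : Type} [Field K] [Field L] [Algebra K L] [Ring A] [Algebra K A]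
    {e : A ≃ₐ[K] A} {r : K} {x : A} (h : e x = r • x) :
    e.toLinearMap.baseChange L ((1 : L) ⊗ₜ[K] x) = algebraMap K L r • ((1 : L) ⊗ₜ[K] x) := by
  rw [LinearMap.baseChange_tmul]
  change (1 : L) ⊗ₜ[K] e x = _
  rw [h, algebraMap_smul, TensorProduct.tmul_smul]

/-- The extension of the coefficients. -/
noncomputable def GaloisPowers.base (G : GaloisPowers W X) (L : Type) [Field L]
    [Algebra W.K L] : GaloisPowers (baseW W L) X where
  Γ := G.Γ
  group := G.group
  χ := (Units.map ((algebraMap W.K L : W.K →+* L) : W.K →* L)).comp G.χ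
  ρ n := extRho (L := L) (G.ρ n)
  gr n g i c hc := by
    refine base_induction (P := fun c => extRho (L := L) (G.ρ n) g c ∈ (W.gr (pw X n) i).baseChange L)
      ?_ ?_ ?_ hc
    · rw [map_zero]; exact Submodule.zero_mem _
    · intro x y h1 h2
      rw [map_add]
      exact Submodule.add_mem _ h1 h2
    · intro l a ha
      exact Submodule.tmul_mem_baseChange_of_mem l (G.gr n g i a ha)
  tr n g c := by
    refine tmul_induction (P := fun c => formBase L (W.tr (pw X n)) (extRho (L := L) (G.ρ n) g c) =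
      (algebraMap W.K L (G.χ g)) ^ (pw X n).dim * formBase L (W.tr (pw X n)) c) ?_ ?_ ?_ c
    · rw [map_zero, map_zero, mul_zero]
    · intro x y h1 h2
      rw [map_add, map_add, map_add, h1, h2, mul_add]
    · intro l a
      change formBase L (W.tr (pw X n)) (l ⊗ₜ[W.K] G.ρ n g a) = _
      rw [formBase_tmul, formBase_tmul, G.tr, map_mul, map_pow]
      ring
  fst n g c := extRho_comm (ρ := G.ρ n) (ρ' := G.ρ (n + 1))
    (f := W.map (VarClass.Obj.fst (pw X n) X)) (G.fst n g) c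
  snd n g c := extRho_comm (ρ := G.ρ 0) (ρ' := G.ρ (n + 1))
    (f := W.map (VarClass.Obj.snd (pw X n) X)) (G.snd n g) c

variable {L : Type} [Field L] [Algebra W.K L]

theorem base_rho (G : GaloisPowers W X) (n : ℕ) (g : G.Γ) (x : (baseW W L).H (pw X n)) :
    (G.base L).ρ n g x = extAct G L n g x :=
  extAut_base (G.ρ n g) x

theorem base_chi (G : GaloisPowers W X) (g : G.Γ) :
    ((G.base L).χ g : (baseW W L).K) = algebraMap W.K L (G.χ g) := rfl

theorem base_chi_pow (G : GaloisPowers W X) (g : G.Γ) (j : ℕ) :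
    ((G.base L).χ g : (baseW W L).K) ^ j = algebraMap W.K L ((G.χ g : W.K) ^ j) :=
  (map_pow (algebraMap W.K L) (G.χ g : W.K) j).symm

/-- Tate classes with extended coefficients are combinations of Tate classes. -/
theorem tate_descent (G : GaloisPowers W X) {n j : ℕ} {c : (baseW W L).H (pw X n)}
    (hc : IsTate (G.base L) n j c) :
    c ∈ Submodule.span (baseW W L).K {x | ∃ c', IsTate G n j c' ∧ x = em W L c'} := by
  obtain ⟨hgr, Δ, hΔ, h⟩ := hc
  have h1 := mem_span_sl (K := W.K) (L := L) (V := W.H (pw X n)) c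
  refine (Submodule.span_mono ?_ :
    Submodule.span L {y : L ⊗[W.K] W.H (pw X n) | ∃ φ : L →ₗ[W.K] W.K, y = (1 : L) ⊗ₜ[W.K]
      sl φ (c : L ⊗[W.K] W.H (pw X n))} ≤ _) h1
  rintro _ ⟨φ, rfl⟩
  refine ⟨sl φ (c : L ⊗[W.K] W.H (pw X n)), ⟨sl_mem φ hgr, Δ, hΔ, fun g hg => ?_⟩, rfl⟩
  refine slice_tate ?_ φ
  have h3 := h g hg
  rw [base_rho, base_chi_pow] at h3
  exact h3

/-- Tate classes are Tate classes with extended coefficients. -/
theorem tate_ext (G : GaloisPowers W X) {n j : ℕ} {c : W.H (pw X n)}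
    (hc : IsTate G n j c) : IsTate (G.base L) n j (em W L c) := by
  obtain ⟨hgr, Δ, hΔ, h⟩ := hc
  refine ⟨Submodule.tmul_mem_baseChange_of_mem (1 : L) hgr, Δ, hΔ, fun g hg => ?_⟩
  rw [base_rho, base_chi_pow]
  exact ext_tate (h g hg)

/-- The equivariant projections. -/
theorem exists_proj [Algebra.IsAlgebraic W.K L] (G : GaloisPowers W X) (hG : Semisimple G)
    {Δ : Subgroup G.Γ} (hΔ : Δ.FiniteIndex)
    (U : Submodule (baseW W L).K ((baseW W L).H (pw X 0)))
    (hU : ∀ g ∈ Δ, ∀ x ∈ U, extAct G L 0 g x ∈ U) :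
    ∃ Q : Module.End (baseW W L).K ((baseW W L).H (pw X 0)), (∀ x, Q x ∈ U) ∧
      (∀ x ∈ U, Q x = x) ∧ ∀ g ∈ Δ, ∀ x, Q (extAct G L 0 g x) = extAct G L 0 g (Q x) := by
  let S : Set (Module.End W.K (W.H (pw X 0))) := {T | ∃ g ∈ Δ, T = (G.ρ 0 g).toLinearMap}
  have h1 : Pool.Agent.H204R3.GP.SemiUnder S := by
    intro U hU
    obtain ⟨U', h2, h3⟩ := hG Δ hΔ U (fun g hg x hx => hU _ ⟨g, hg, rfl⟩ x hx)
    refine ⟨U', ?_, h3⟩
    rintro _ ⟨g, hg, rfl⟩ x hx
    exact h2 g hg x hx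
  obtain ⟨Q, hQ1, hQ2, hQ3⟩ := Pool.Agent.W522.U.exists_proj_algebraic (Ω := L) S h1 U (by
    rintro _ ⟨g, hg, rfl⟩ x hx
    exact hU g hg x hx)
  exact ⟨Q, hQ1, hQ2, fun g hg x => hQ3 _ ⟨g, hg, rfl⟩ x⟩

end Pool.Agent.P8H28.SQ
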