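import Pool.Agent.Y121.AH.Gop

/-!
# Gradings and eigenspaces
-/

set_option linter.unusedSectionVars false

namespace Pool.Agent.P8H28.SQ

open Module
open Pool.Agent.Y121.AH (dia dia_apply)

variable {K V : Type*} [Field K] [AddCommGroup V] [Module K V] {ι : Type} [DecidableEq ι]
  {gr : ι → Submodule K V}

/-- The elements of one component of the grading are the eigenvectors, if the eigenvalues are
different. -/
theorem mem_of_eigen (h : DirectSum.IsInternal gr) {f : ι → K} (hf : Function.Injective f) {i : ι}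
    {a : V} (ha : dia h f a = f i • a) : a ∈ gr i := by
  have h1 : a ∈ ⨆ i, gr i := by rw [h.submodule_iSup_eq_top]; trivial
  obtain ⟨g, hg, hsum⟩ := (Submodule.mem_iSup_iff_exists_finsupp _ _).1 h1
  have h6 : a - g i ∈ (⨆ (μ : K) (_ : μ ≠ f i), Module.End.eigenspace (dia h f) μ) := by
    have h7 : a - g i = ∑ k ∈ g.support.erase i, g k := by
      rw [← hsum, Finsupp.sum]
      by_cases h8 : i ∈ g.support
      · rw [← Finset.add_sum_erase _ _ h8, add_sub_cancel_left]
      · rw [Finsupp.notMem_support_iff.1 h8, sub_zero, Finset.erase_eq_of_notMem h8]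
    rw [h7]
    refine Submodule.sum_mem _ fun k hk => ?_
    refine Submodule.mem_iSup_of_mem (f k) (Submodule.mem_iSup_of_mem
      (fun h8 => (Finset.mem_erase.1 hk).1 (hf h8)) ?_)
    rw [Module.End.mem_eigenspace_iff]
    exact dia_apply h f (hg k)
  have h7 : a - g i ∈ Module.End.eigenspace (dia h f) (f i) := by
    rw [Module.End.mem_eigenspace_iff, map_sub, ha, dia_apply h f (hg i), smul_sub]
  have h8 := (Module.End.eigenspaces_iSupIndep (dia h f) (f i)).le_bot ⟨h7, h6⟩
  rw [Submodule.mem_bot, sub_eq_zero] at h8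
  rw [h8]
  exact hg i

theorem mem_iff_eigen (h : DirectSum.IsInternal gr) {f : ι → K} (hf : Function.Injective f) {i : ι}
    {a : V} : a ∈ gr i ↔ dia h f a = f i • a :=
  ⟨fun ha => dia_apply h f ha, mem_of_eigen h hf⟩

/-- Induction on the components. -/
theorem int_ind (h : DirectSum.IsInternal gr) {P : V → Prop} (hgr : ∀ i, ∀ a ∈ gr i, P a)
    (h0 : P 0) (hadd : ∀ a b, P a → P b → P (a + b)) (a : V) : P a := by
  have ha : a ∈ ⨆ i, gr i := by rw [h.submodule_iSup_eq_top]; trivial
  exact Submodule.iSup_induction gr (motive := P) ha hgr h0 hadd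

/-- Operators which preserve the grading commute with diagonal operators. -/
theorem dia_comm (h : DirectSum.IsInternal gr) (f : ι → K) {D : Module.End K V}
    (hD : ∀ i, ∀ a ∈ gr i, D a ∈ gr i) (a : V) : dia h f (D a) = D (dia h f a) := by
  refine int_ind h (P := fun a => dia h f (D a) = D (dia h f a)) ?_ ?_ ?_ a
  · intro i a ha
    rw [dia_apply h f ha, dia_apply h f (hD i a ha), map_smul]
  · rw [map_zero, map_zero, map_zero]
  · intro a b h1 h2
    rw [map_add, map_add, map_add, map_add, h1, h2]

theorem pres_of_comm (h : DirectSum.IsInternal gr) {f : ι → K} (hf : Function.Injective f)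
    {D : Module.End K V} (hD : ∀ a, dia h f (D a) = D (dia h f a)) :
    ∀ i, ∀ a ∈ gr i, D a ∈ gr i := by
  intro i a ha
  refine mem_of_eigen h hf ?_
  rw [hD, dia_apply h f ha, map_smul]

end Pool.Agent.P8H28.SQ
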