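import Pool.Agent.P8H28.SQ.Fin2
import Pool.Agent.N996.FP.Defs
import Pool.Agent.Y121.AHS.Conv

/-!
# Endomorphisms of the Hodge structure and the polarisation
-/

set_option linter.unusedSectionVars false

open CategoryTheory AlgebraicGeometry TensorProduct

universe u

namespace Pool.Agent.P8H28.SQ

open Module
open Pool.Agent.Y121.AH
open Pool.Agent.Y133.Half (pw)
open Pool.Agent.H914 Pool.Agent.H914.VarClass Pool.Agent.H914.VarClass.Obj
  Pool.Agent.H914.WeilCohomology

variable {k : Type u} [Field k] {𝒱 : VarClass k} {ops : CycleOps 𝒱} {T : HodgeTheory ops}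
  {X : 𝒱.Obj}

/-- Endomorphisms of the Hodge structure. -/
def IsEndA (T : HodgeTheory ops) (X : 𝒱.Obj) (f : Module.End T.W.K (T.W.H X)) : Prop :=
  (∀ c ∈ T.W.gr X 1, f c ∈ T.W.gr X 1) ∧ ∀ p q : ℤ, p + q = 1 → ∀ x ∈ T.pq X p q,
    (show (CW T).H X from f.baseChange ℂ (show ℂ ⊗[T.W.K] T.W.H X from x)) ∈ T.pq X p q

/-- The extension of an operator to complex coefficients. -/
noncomputable def fC (T : HodgeTheory ops) {X : 𝒱.Obj} (f : Module.End T.W.K (T.W.H X)) :
    Module.End (CW T).K ((CW T).H X) :=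
  (f.baseChange ℂ : ℂ ⊗[T.W.K] T.W.H X →ₗ[ℂ] ℂ ⊗[T.W.K] T.W.H X)

theorem fC_em (f : Module.End T.W.K (T.W.H X)) (c : T.W.H X) :
    fC T f (em T.W ℂ c) = em T.W ℂ (f c) := LinearMap.baseChange_tmul _ _ _

/-- The condition that an operator commutes with the slices of the Hodge operator on `H^1`. -/
def CommS (T : HodgeTheory ops) (X : 𝒱.Obj) (f : Module.End T.W.K (T.W.H X)) : Prop :=
  ∀ χ : ℂ →ₗ[T.W.K] T.W.K, ∀ c ∈ T.W.gr X 1, f (nhs T χ X c) = nhs T χ X (f c)

/-- Linear maps which agree on rational classes agree on their span. -/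
theorem agree {F F' : Module.End (CW T).K ((CW T).H X)} {i : ℕ}
    (h : ∀ c ∈ T.W.gr X i, F (em T.W ℂ c) = F' (em T.W ℂ c)) {x : (CW T).H X}
    (hx : x ∈ (CW T).gr X i) : F x = F' x := by
  refine base_induction (P := fun x : ℂ ⊗[T.W.K] T.W.H X => F x = F' x) ?_ ?_ ?_ hx
  · exact (map_zero F).trans (map_zero F').symm
  · intro x y h1 h2
    exact (map_add F x y).trans ((congrArg₂ (· + ·) h1 h2).trans (map_add F' x y).symm)
  · intro l a ha
    have h1 := tmul_eq (W := T.W) (L := ℂ) l a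
    have h2 := (map_smul F (show (CW T).K from l) (em T.W ℂ a)).trans
      ((congrArg (fun z => (show (CW T).K from l) • z) (h a ha)).trans
        (map_smul F' (show (CW T).K from l) (em T.W ℂ a)).symm)
    rw [← h1] at h2
    exact h2

theorem isEnd_iff {f : Module.End T.W.K (T.W.H X)} (hf : ∀ c ∈ T.W.gr X 1, f c ∈ T.W.gr X 1)
    (hspan : (CW T).gr X 1 = ⨆ r : {r : ℤ × ℤ // r.1 + r.2 = ((1 : ℕ) : ℤ)}, T.pq X r.1.1 r.1.2) :
    IsEndA T X f ↔ CommS T X f := by
  have key : (∀ c ∈ T.W.gr X 1, nh T X (fC T f (em T.W ℂ c)) = fC T f (nh T X (em T.W ℂ c))) ↔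
      CommS T X f := by
    constructor
    · intro h χ c hc
      have h1 := congrArg (fun x : (CW T).H X => sl χ (show ℂ ⊗[T.W.K] T.W.H X from x)) (h c hc)
      rw [fC_em] at h1
      have h2 := sl_base χ f (show ℂ ⊗[T.W.K] T.W.H X from nh T X (em T.W ℂ c))
      exact h2.symm.trans h1.symm
    · intro h c hc
      rw [fC_em]
      refine eq_of_sl (K := T.W.K) (L := ℂ) (V := T.W.H X) fun χ => ?_
      have h2 := sl_base χ f (show ℂ ⊗[T.W.K] T.W.H X from nh T X (em T.W ℂ c))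
      exact ((h χ c hc).symm.trans h2.symm)
  rw [← key]
  constructor
  · intro h c hc
    have h1 := T.dec.span hc
    refine Submodule.iSup_induction
      (fun r : {r : ℤ × ℤ // r.1 + r.2 = ((1 : ℕ) : ℤ)} => T.pq X r.1.1 r.1.2)
      (motive := fun x => nh T X (fC T f x) = fC T f (nh T X x)) h1 ?_ ?_ ?_
    · rintro ⟨⟨p, q⟩, hr⟩ x hx
      have h2 : fC T f x ∈ T.pq X p q := h.2 p q (by simpa using hr) x hx
      rw [nh_pq h2, nh_pq hx, map_smul]
    · rw [map_zero, map_zero, map_zero]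
    · intro x y h1 h2
      rw [map_add, map_add, map_add, map_add, h1, h2]
  · intro h
    refine ⟨hf, fun p q hpq x hx => ?_⟩
    have hx1 : x ∈ (CW T).gr X 1 := T.dec.le X (i := 1) (by simpa using hpq) hx
    have h1 : nh T X (fC T f x) = fC T f (nh T X x) :=
      agree (F := nh T X * fC T f) (F' := fC T f * nh T X) (fun c hc => h c hc) hx1
    rw [nh_pq hx, map_smul] at h1
    have h2 : fC T f x ∈ (CW T).gr X 1 := base_mem hf hx1
    rw [hspan] at h2
    exact pq_of_nh (i := ((1 : ℕ) : ℤ)) (by simpa using hpq) h2 h1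

end Pool.Agent.P8H28.SQ
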