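import Pool.Agent.P8H28.SQ.Slice
import Pool.Agent.Y121.AH.Fix

/-!
# The Hodge operator and its slices
-/

set_option linter.unusedSectionVars false

open CategoryTheory AlgebraicGeometry TensorProduct

universe u

namespace Pool.Agent.P8H28.SQ

open Module
open Pool.Agent.Y121.AH
open Pool.Agent.Y133.Half (pw)
open Pool.Agent.H914 Pool.Agent.H914.VarClass Pool.Agent.H914.VarClass.Obj
  Pool.Agent.H914.WeilCohomology

variable {k : Type u} [Field k] {𝒱 : VarClass k} {ops : CycleOps 𝒱} {T : HodgeTheory ops}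
  {X Y : 𝒱.Obj}

/-- The operator with the eigenvalue `p` on `H^(p,q)`. -/
noncomputable def nh (T : HodgeTheory ops) (X : 𝒱.Obj) : Module.End (CW T).K ((CW T).H X) :=
  dia (isInternal T X) fun r => ((r.1 : ℤ) : (CW T).K)

theorem nh_pq {p q : ℤ} {x : (CW T).H X} (hx : x ∈ T.pq X p q) :
    nh T X x = (p : (CW T).K) • x :=
  dia_apply (isInternal T X) _ (i := (p, q)) hx

theorem nh_der : IsDer (nh T X) := by
  intro x y
  refine pq_ind T (p := fun x => nh T X (x * y) = nh T X x * y + x * nh T X y) ?_ ?_ ?_ x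
  · intro a b x hx
    refine pq_ind T (p := fun y => nh T X (x * y) = nh T X x * y + x * nh T X y) ?_ ?_ ?_ y
    · intro c d y hy
      rw [nh_pq hx, nh_pq hy, nh_pq (T.dec.mul hx hy), smul_mul_assoc, mul_smul_comm, ← add_smul,
        Int.cast_add]
    · intro y z hy hz
      rw [mul_add, map_add, hy, hz, map_add]
      noncomm_ring
    · rw [mul_zero, map_zero, mul_zero, mul_zero, add_zero]
  · intro x z hx hz
    rw [add_mul, map_add, hx, hz, map_add]
    noncomm_ring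
  · rw [zero_mul, map_zero, zero_mul, zero_mul, add_zero]

theorem nh_map (f : X ⟶ Y) (y : (CW T).H Y) :
    nh T X ((CW T).map f y) = (CW T).map f (nh T Y y) := by
  refine pq_ind T (p := fun y => nh T X ((CW T).map f y) = (CW T).map f (nh T Y y)) ?_ ?_ ?_ y
  · intro a b y hy
    rw [nh_pq hy, nh_pq (T.dec.map f hy), map_smul]
  · intro y z hy hz; rw [map_add, map_add, hy, hz, map_add, map_add]
  · rw [map_zero, map_zero, map_zero, map_zero]

theorem nh_gr {i : ℕ} {c : T.W.H X} (hc : c ∈ T.W.gr X i) :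
    nh T X (em T.W ℂ c) ∈ (CW T).gr X i := by
  refine Submodule.iSup_induction (fun r : {r : ℤ × ℤ // r.1 + r.2 = i} => T.pq X r.1.1 r.1.2)
    (motive := fun x => nh T X x ∈ (CW T).gr X i) (T.dec.span hc) ?_ ?_ ?_
  · intro r x hx
    rw [nh_pq hx]
    exact Submodule.smul_mem _ _ (T.dec.le X r.2 hx)
  · rw [map_zero]; exact Submodule.zero_mem _
  · intro x y hx hy; rw [map_add]; exact Submodule.add_mem _ hx hy

theorem nh_hodge {j : ℕ} {c : T.W.H X} (hc : IsHodge T X j c) :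
    nh T X (em T.W ℂ c) = (j : (CW T).K) • em T.W ℂ c := by
  rw [nh_pq hc.2, Int.cast_natCast]

/-- The function `(p, q) ↦ i p + q`. -/
noncomputable def tf (r : ℤ × ℤ) : ℂ := Complex.I * r.1 + r.2

theorem tf_inj : Function.Injective tf := by
  rintro ⟨a, b⟩ ⟨c, d⟩ h
  have h1 := congrArg Complex.re h
  have h2 := congrArg Complex.im h
  simp only [tf, Complex.add_re, Complex.mul_re, Complex.I_re, Complex.I_im, Complex.intCast_re,
    Complex.intCast_im, Complex.add_im, Complex.mul_im, zero_mul, one_mul, mul_zero, sub_zero,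
    zero_add, add_zero] at h1 h2
  rw [Prod.mk.injEq]
  exact ⟨by exact_mod_cast h2, by exact_mod_cast h1⟩

/-- Eigenvectors of given degree. -/
theorem pq_of_nh {i p q : ℤ} (hpq : p + q = i) {x : (CW T).H X}
    (hx : x ∈ ⨆ r : {r : ℤ × ℤ // r.1 + r.2 = i}, T.pq X r.1.1 r.1.2)
    (h : nh T X x = (p : (CW T).K) • x) : x ∈ T.pq X p q := by
  have h1 : dia (isInternal T X) (fun r => (tf r : (CW T).K)) x =
      (show (CW T).K from (Complex.I - 1 : ℂ)) • nh T X x + (show (CW T).K from (i : ℂ)) • x := by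
    refine Submodule.iSup_induction
      (fun r : {r : ℤ × ℤ // r.1 + r.2 = i} => T.pq X r.1.1 r.1.2)
      (motive := fun x => dia (isInternal T X) (fun r => (tf r : (CW T).K)) x =
      (show (CW T).K from (Complex.I - 1 : ℂ)) • nh T X x +
        (show (CW T).K from (i : ℂ)) • x) hx ?_ ?_ ?_
    · rintro ⟨⟨a, b⟩, hr⟩ x hx
      have h2 := dia_apply (isInternal T X) (fun r => (tf r : (CW T).K)) (i := (a, b)) hx
      rw [nh_pq hx, h2, smul_smul, ← add_smul]
      congr 1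
      have h3 : a + b = i := hr
      have h4 : (b : ℂ) = i - a := by
        have h5 : b = i - a := by omega
        rw [h5]
        push_cast
        ring
      change Complex.I * a + b = (Complex.I - 1) * a + i
      rw [h4]
      ring
    · rw [map_zero, map_zero, smul_zero, smul_zero, add_zero]
    · intro x y hx hy
      rw [map_add, map_add, hx, hy, smul_add, smul_add]
      abel
  refine mem_of_eigen (isInternal T X) (f := fun r => (tf r : (CW T).K)) tf_inj (i := (p, q)) ?_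
  rw [h1, h, smul_smul, ← add_smul]
  congr 1
  change (Complex.I - 1) * p + i = Complex.I * p + q
  rw [← hpq]
  push_cast
  ring

theorem isHodge_of_nh {j : ℕ} {c : T.W.H X} (hc : c ∈ T.W.gr X (2 * j))
    (h : nh T X (em T.W ℂ c) = (j : (CW T).K) • em T.W ℂ c) : IsHodge T X j c :=
  ⟨hc, pq_of_nh (i := ((2 * j : ℕ) : ℤ)) (by push_cast; ring) (T.dec.span hc)
    (by rw [Int.cast_natCast]; exact h)⟩

theorem sl_map {K L A B : Type*} [Field K] [Field L] [Algebra K L] [Ring A] [Algebra K A]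
    [Ring B] [Algebra K B] (φ : L →ₗ[K] K) (f : A →ₐ[K] B) (x : L ⊗[K] A) :
    sl φ (mapBase L f x) = f (sl φ x) := by
  refine tmul_induction (P := fun x => sl φ (mapBase L f x) = f (sl φ x)) ?_ ?_ ?_ x
  · rw [map_zero, map_zero, map_zero, map_zero]
  · intro x y h1 h2
    rw [map_add, map_add, map_add, map_add, h1, h2]
  · intro l a
    rw [Algebra.TensorProduct.map_tmul, sl_tmul, sl_tmul, map_smul]
    rfl

/-- The slice of the Hodge operator. -/
noncomputable def nhs (T : HodgeTheory ops) (χ : ℂ →ₗ[T.W.K] T.W.K) (X : 𝒱.Obj) :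
    Module.End T.W.K (T.W.H X) :=
  slOp χ (nh T X : ℂ ⊗[T.W.K] T.W.H X →ₗ[ℂ] ℂ ⊗[T.W.K] T.W.H X)

theorem nhs_apply (χ : ℂ →ₗ[T.W.K] T.W.K) (c : T.W.H X) :
    nhs T χ X c = sl χ (nh T X (em T.W ℂ c) : ℂ ⊗[T.W.K] T.W.H X) := rfl

theorem nhs_gr (χ : ℂ →ₗ[T.W.K] T.W.K) : PresGr (nhs T χ X) := fun _ _ hc =>
  sl_mem χ (nh_gr hc)

theorem nhs_der (χ : ℂ →ₗ[T.W.K] T.W.K) : IsDer (nhs T χ X) :=
  slOp_der χ (F := (nh T X : ℂ ⊗[T.W.K] T.W.H X →ₗ[ℂ] ℂ ⊗[T.W.K] T.W.H X)) nh_der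

theorem nhs_map (χ : ℂ →ₗ[T.W.K] T.W.K) (f : X ⟶ Y) (y : T.W.H Y) :
    nhs T χ X (T.W.map f y) = T.W.map f (nhs T χ Y y) := by
  rw [nhs_apply, nhs_apply]
  have h1 : em T.W ℂ (T.W.map f y) = (CW T).map f (em T.W ℂ y) := rfl
  rw [h1, nh_map]
  exact sl_map χ (T.W.map f) (nh T Y (em T.W ℂ y) : ℂ ⊗[T.W.K] T.W.H Y)

/-- The restriction of the slice of the Hodge operator to `H^1`. -/
noncomputable def nh1 (T : HodgeTheory ops) (χ : ℂ →ₗ[T.W.K] T.W.K) (X : 𝒱.Obj) :
    Module.End T.W.K (T.W.gr X 1) :=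
  (nhs T χ X).restrict fun _ hc => nhs_gr χ 1 _ hc

theorem nhs_isExt (χ : ℂ →ₗ[T.W.K] T.W.K) : IsExt (nh1 T χ X) fun n => nhs T χ (pw X n) where
  der _ := nhs_der χ
  fst n a := nhs_map χ (VarClass.Obj.fst (pw X n) X) a
  snd n b := nhs_map χ (VarClass.Obj.snd (pw X n) X) b
  zero _ := rfl

theorem nhs_eq (hX : AbType T.W X) (χ : ℂ →ₗ[T.W.K] T.W.K) (n : ℕ) :
    nhs T χ (pw X n) = DL hX n (nh1 T χ X) := (nhs_isExt χ).eq hX n

theorem sl_eig {K L V : Type*} [Field K] [Field L] [Algebra K L] [AddCommGroup V] [Module K V]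
    (φ : L →ₗ[K] K) (j : ℕ) (c : V) :
    sl φ ((j : L) • ((1 : L) ⊗ₜ[K] c)) = ((j : K) * φ 1) • c := by
  rw [TensorProduct.smul_tmul', smul_eq_mul, mul_one, sl_tmul]
  congr 1
  have h1 : (j : L) = (j : K) • (1 : L) := by rw [Algebra.smul_def, mul_one, map_natCast]
  rw [h1, map_smul, smul_eq_mul]

/-- The slices of the Hodge operator multiply Hodge classes. -/
theorem nhs_hodge (χ : ℂ →ₗ[T.W.K] T.W.K) {j : ℕ} {c : T.W.H X} (hc : IsHodge T X j c) :
    nhs T χ X c = ((j : T.W.K) * χ 1) • c := by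
  rw [nhs_apply, nh_hodge hc]
  exact sl_eig χ j c

/-- A class of even degree which is multiplied by the slices of the Hodge operator is a Hodge
class. -/
theorem isHodge_of_nhs {j : ℕ} {c : T.W.H X} (hc : c ∈ T.W.gr X (2 * j))
    (h : ∀ χ : ℂ →ₗ[T.W.K] T.W.K, nhs T χ X c = ((j : T.W.K) * χ 1) • c) : IsHodge T X j c := by
  refine isHodge_of_nh hc ?_
  refine eq_of_sl (K := T.W.K) (L := ℂ) (V := T.W.H X) fun χ => ?_
  have h1 := h χ
  rw [nhs_apply] at h1
  rw [h1]
  exact (sl_eig χ j c).symm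

end Pool.Agent.P8H28.SQ
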