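import Pool.Agent.P8H28.SQ.Main1

/-!
# Künneth components
-/

set_option linter.unusedSectionVars false

open CategoryTheory AlgebraicGeometry TensorProduct

universe u

namespace Pool.Agent.P8H28.SQ

open Module
open Pool.Agent.Y121.AH (em dia dia_apply)
open Pool.Agent.Y133.Half (pw)
open Pool.Agent.H914 Pool.Agent.H914.VarClass Pool.Agent.H914.VarClass.Obj
  Pool.Agent.H914.WeilCohomology

variable {k : Type u} [Field k] {𝒱 : VarClass k} {ops : CycleOps 𝒱}
  {W : WeilCohomology.{u, 0} ops} {X Y : 𝒱.Obj}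

/-- The tensor product of two operators. -/
noncomputable def tOp (D : Module.End W.K (W.H X)) (E : Module.End W.K (W.H Y)) :
    Module.End W.K (W.H (X.prod Y)) :=
  let e := LinearEquiv.ofBijective _ (W.kunneth X Y)
  e.toLinearMap ∘ₗ TensorProduct.map D E ∘ₗ e.symm.toLinearMap

theorem tOp_apply (D : Module.End W.K (W.H X)) (E : Module.End W.K (W.H Y)) (a : W.H X)
    (b : W.H Y) : tOp D E (W.map (fst X Y) a * W.map (snd X Y) b) =
      W.map (fst X Y) (D a) * W.map (snd X Y) (E b) := by
  have h1 : (LinearEquiv.ofBijective _ (W.kunneth X Y)).symm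
      (W.map (fst X Y) a * W.map (snd X Y) b) = a ⊗ₜ[W.K] b := by
    rw [LinearEquiv.symm_apply_eq]
    rfl
  unfold tOp
  simp only [LinearMap.comp_apply, LinearEquiv.coe_coe]
  rw [h1, TensorProduct.map_tmul]
  rfl

/-- The Künneth component. -/
noncomputable def KC (W : WeilCohomology.{u, 0} ops) (X Y : 𝒱.Obj) (i j : ℕ) :
    Submodule W.K (W.H (X.prod Y)) :=
  Submodule.span W.K {x | ∃ a ∈ W.gr X i, ∃ b ∈ W.gr Y j,
    x = W.map (fst X Y) a * W.map (snd X Y) b}

theorem tOp_mem (i j : ℕ) (c : W.H (X.prod Y)) : tOp (prj W X i) (prj W Y j) c ∈ KC W X Y i j := by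
  refine kun_ind (P := fun c => tOp (prj W X i) (prj W Y j) c ∈ KC W X Y i j) ?_ ?_ c
  · intro p q a _ b _
    rw [tOp_apply]
    exact Submodule.subset_span ⟨_, prj_mem i a, _, prj_mem j b, rfl⟩
  · intro a b h1 h2
    rw [map_add]
    exact Submodule.add_mem _ h1 h2

theorem tOp_same {i j : ℕ} {c : W.H (X.prod Y)} (hc : c ∈ KC W X Y i j) :
    tOp (prj W X i) (prj W Y j) c = c := by
  induction hc using Submodule.span_induction with
  | mem c hc =>
    obtain ⟨a, ha, b, hb, rfl⟩ := hc
    rw [tOp_apply, prj_same ha, prj_same hb]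
  | zero => exact map_zero _
  | add a b _ _ ha hb => rw [map_add, ha, hb]
  | smul r a _ ha => rw [map_smul, ha]

/-- The trace of a product of four classes. -/
theorem tr_four {q r : ℕ} (x a : W.H X) (y b : W.H Y) (hy : y ∈ W.gr Y q) (ha : a ∈ W.gr X r) :
    W.tr (X.prod Y) ((W.map (fst X Y) x * W.map (snd X Y) y) *
      (W.map (fst X Y) a * W.map (snd X Y) b)) =
      (-1) ^ (q * r) * (W.tr X (x * a) * W.tr Y (y * b)) := by
  have h1 := W.comm (W.map_mem (snd X Y) hy) (W.map_mem (fst X Y) ha)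
  have h2 : (W.map (fst X Y) x * W.map (snd X Y) y) * (W.map (fst X Y) a * W.map (snd X Y) b) =
      (-1 : W.K) ^ (q * r) • (W.map (fst X Y) (x * a) * W.map (snd X Y) (y * b)) := by
    rw [map_mul, map_mul, mul_assoc, ← mul_assoc (W.map (snd X Y) y), h1, smul_mul_assoc,
      mul_smul_comm, mul_assoc, mul_assoc]
  rw [h2, map_smul, W.tr_prod, smul_eq_mul]

theorem tOp_tr {i j : ℕ} (hi : i ≤ 2 * X.dim) (hj : j ≤ 2 * Y.dim) (c : W.H (X.prod Y))
    (a : W.H X) (b : W.H Y) :
    W.tr (X.prod Y) (tOp (prj W X (2 * X.dim - i)) (prj W Y (2 * Y.dim - j)) c *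
      (W.map (fst X Y) a * W.map (snd X Y) b)) =
    W.tr (X.prod Y) (c * (W.map (fst X Y) (prj W X i a) * W.map (snd X Y) (prj W Y j b))) := by
  refine gr_ind (P := fun a => W.tr (X.prod Y) (tOp (prj W X (2 * X.dim - i))
    (prj W Y (2 * Y.dim - j)) c * (W.map (fst X Y) a * W.map (snd X Y) b)) =
    W.tr (X.prod Y) (c * (W.map (fst X Y) (prj W X i a) * W.map (snd X Y) (prj W Y j b))))
    ?_ ?_ a
  · intro r a ha
    refine gr_ind (P := fun b => W.tr (X.prod Y) (tOp (prj W X (2 * X.dim - i))
      (prj W Y (2 * Y.dim - j)) c * (W.map (fst X Y) a * W.map (snd X Y) b)) =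
      W.tr (X.prod Y) (c * (W.map (fst X Y) (prj W X i a) * W.map (snd X Y) (prj W Y j b))))
      ?_ ?_ b
    · intro s b hb
      refine kun_ind (P := fun c => W.tr (X.prod Y) (tOp (prj W X (2 * X.dim - i))
        (prj W Y (2 * Y.dim - j)) c * (W.map (fst X Y) a * W.map (snd X Y) b)) =
        W.tr (X.prod Y) (c * (W.map (fst X Y) (prj W X i a) * W.map (snd X Y) (prj W Y j b))))
        ?_ ?_ c
      · intro p q x hx y hy
        rw [tOp_apply, tr_four _ _ _ _ (prj_comm_mem (2 * Y.dim - j) hy) ha,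
          tr_four _ _ _ _ hy (prj_comm_mem i ha)]
        have e1 : W.tr X (prj W X (2 * X.dim - i) x * a) = W.tr X (x * prj W X i a) := by
          by_cases h1 : p = 2 * X.dim - i
          · subst h1
            rw [prj_same hx]
            by_cases h2 : r = i
            · subst h2
              rw [prj_same ha]
            · rw [prj_ne h2 ha, mul_zero, map_zero, W.tr_eq_zero (W.mul_mem hx ha) (by omega)]
          · rw [prj_ne h1 hx, zero_mul, map_zero]
            by_cases h2 : r = i
            · subst h2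
              rw [prj_same ha, W.tr_eq_zero (W.mul_mem hx ha) (by omega)]
            · rw [prj_ne h2 ha, mul_zero, map_zero]
        have e2 : W.tr Y (prj W Y (2 * Y.dim - j) y * b) = W.tr Y (y * prj W Y j b) := by
          by_cases h1 : q = 2 * Y.dim - j
          · subst h1
            rw [prj_same hy]
            by_cases h2 : s = j
            · subst h2
              rw [prj_same hb]
            · rw [prj_ne h2 hb, mul_zero, map_zero, W.tr_eq_zero (W.mul_mem hy hb) (by omega)]
          · rw [prj_ne h1 hy, zero_mul, map_zero]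
            by_cases h2 : s = j
            · subst h2
              rw [prj_same hb, W.tr_eq_zero (W.mul_mem hy hb) (by omega)]
            · rw [prj_ne h2 hb, mul_zero, map_zero]
        rw [e1, e2]
      · intro c c' h1 h2
        rw [map_add, add_mul, map_add, h1, h2, add_mul, map_add]
    · intro b b' h1 h2
      rw [map_add, mul_add, mul_add, map_add, h1, h2, map_add, map_add, mul_add, mul_add, map_add]
  · intro a a' h1 h2
    rw [map_add, add_mul, mul_add, map_add, h1, h2, map_add, map_add, add_mul, mul_add, map_add]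

section Ext

variable {L : Type} [Field L] [Algebra W.K L]

theorem prj_em (i : ℕ) (a : W.H X) :
    prj (baseW W L) X i (em W L a) = em W L (prj W X i a) := by
  refine gr_ind (P := fun a => prj (baseW W L) X i (em W L a) = em W L (prj W X i a)) ?_ ?_ a
  · intro j a ha
    have h1 : em W L a ∈ (baseW W L).gr X j := Submodule.tmul_mem_baseChange_of_mem (1 : L) ha
    by_cases h : j = i
    · subst h
      rw [prj_same h1, prj_same ha]
    · rw [prj_ne h h1, prj_ne h ha]
      exact (TensorProduct.tmul_zero _ _).symm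
  · intro a b h1 h2
    have h3 : em W L (a + b) = em W L a + em W L b := TensorProduct.tmul_add _ _ _
    have h4 : em W L (prj W X i a + prj W X i b) = em W L (prj W X i a) + em W L (prj W X i b) :=
      TensorProduct.tmul_add _ _ _
    rw [h3, map_add, h1, h2, map_add, h4]

theorem em_prod (a : W.H X) (b : W.H Y) :
    em W L (W.map (fst X Y) a * W.map (snd X Y) b) =
      (baseW W L).map (fst X Y) (em W L a) * (baseW W L).map (snd X Y) (em W L b) := by
  have h1 : ∀ x y : W.H (X.prod Y), em W L (x * y) = em W L x * em W L y := by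
    intro x y
    have h2 : (1 : L) ⊗ₜ[W.K] (x * y) = ((1 : L) ⊗ₜ[W.K] x) * ((1 : L) ⊗ₜ[W.K] y) := by
      rw [Algebra.TensorProduct.tmul_mul_tmul, one_mul]
    exact h2
  rw [h1]
  rfl

theorem tOp_em (i j : ℕ) (c : W.H (X.prod Y)) :
    tOp (prj (baseW W L) X i) (prj (baseW W L) Y j) (em W L c) =
      em W L (tOp (prj W X i) (prj W Y j) c) := by
  refine kun_ind (P := fun c => tOp (prj (baseW W L) X i) (prj (baseW W L) Y j) (em W L c) =
      em W L (tOp (prj W X i) (prj W Y j) c)) ?_ ?_ c
  · intro p q a _ b _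
    rw [em_prod, tOp_apply, tOp_apply, em_prod, prj_em, prj_em]
  · intro a b h1 h2
    have h3 : ∀ x y : W.H (X.prod Y), em W L (x + y) = em W L x + em W L y :=
      fun x y => TensorProduct.tmul_add _ _ _
    rw [h3, map_add, h1, h2, map_add, h3]

end Ext

theorem tOp_gr (i j : ℕ) {m : ℕ} {c : W.H (X.prod Y)} (hc : c ∈ W.gr (X.prod Y) m) :
    tOp (prj W X i) (prj W Y j) c ∈ W.gr (X.prod Y) m := by
  have h1 : PresGr (tOp (prj W X i) (prj W Y j)) := by
    rw [presGr_iff]
    intro c
    refine kun_ind (P := fun c => dg W (X.prod Y) (tOp (prj W X i) (prj W Y j) c) =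
      tOp (prj W X i) (prj W Y j) (dg W (X.prod Y) c)) ?_ ?_ c
    · intro p q a ha b hb
      rw [tOp_apply, dg_apply (W.mul_mem (W.map_mem (fst X Y) ha) (W.map_mem (snd X Y) hb)),
        map_smul, tOp_apply,
        dg_apply (W.mul_mem (W.map_mem (fst X Y) (prj_comm_mem i ha))
          (W.map_mem (snd X Y) (prj_comm_mem j hb)))]
    · intro a b h1 h2
      rw [map_add, map_add, h1, h2, map_add, map_add]
  exact h1 m c hc

theorem tOp_aut {σ : W.H X → W.H X} {τ : W.H (X.prod X) → W.H (X.prod X)} (i j : ℕ)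
    (h3 : ∀ a, τ (W.map (fst X X) a) = W.map (fst X X) (σ a))
    (h4 : ∀ a, τ (W.map (snd X X) a) = W.map (snd X X) (σ a))
    (h5 : ∀ (i : ℕ) (a : W.H X), prj W X i (σ a) = σ (prj W X i a))
    (h6 : ∀ a b, τ (a * b) = τ a * τ b) (h7 : ∀ a b, τ (a + b) = τ a + τ b)
    (c : W.H (X.prod X)) : τ (tOp (prj W X i) (prj W X j) c) =
      tOp (prj W X i) (prj W X j) (τ c) := by
  refine kun_ind (P := fun c => τ (tOp (prj W X i) (prj W X j) c) =
    tOp (prj W X i) (prj W X j) (τ c)) ?_ ?_ c
  · intro p q a _ b _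
    rw [tOp_apply, h6, h6, h3, h4, h3, h4, tOp_apply, h5, h5]
  · intro a b h1 h2
    rw [map_add, h7, h7, map_add, h1, h2]

/-- The Künneth components of Tate classes are Tate classes. -/
theorem tate_tOp {G : GaloisPowers W X} (i j : ℕ) {l : ℕ} {c : W.H (X.prod X)}
    (hc : IsTate G 1 l c) : IsTate G 1 l (tOp (prj W X i) (prj W X j) c) := by
  obtain ⟨hgr, Δ, hΔ, h⟩ := hc
  refine ⟨tOp_gr i j hgr, Δ, hΔ, fun g hg => ?_⟩
  have h2 := tOp_aut (W := W) (X := X) (σ := fun a => G.ρ 0 g a) (τ := fun a => G.ρ 1 g a) i j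
    (fun a => G.fst 0 g a) (fun a => G.snd 0 g a)
    (fun i a => prj_comm (W := W) (X := X) (D := (G.ρ 0 g).toLinearMap.toAddMonoidHom)
      (fun i a ha => G.gr 0 g i a ha) i a) (fun a b => map_mul (G.ρ 1 g) a b)
    (fun a b => map_add (G.ρ 1 g) a b) c
  refine h2.trans ?_
  have h3 := congrArg (fun t : W.H (X.prod X) => tOp (prj W X i) (prj W X j) t) (h g hg)
  refine h3.trans ?_
  exact map_smul (tOp (prj W X i) (prj W X j)) _ _

end Pool.Agent.P8H28.SQ
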