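import Pool.Agent.P8H28.SQ.Der
import Pool.Agent.P8H28.SQ.Grd
import Pool.Agent.H914R2.WBase2
import Pool.Agent.H914R2.CorrDefs
import Pool.Agent.Y133.Half.PwDefs

/-!
# Derivations of the cohomology of products
-/

set_option linter.unusedSectionVars false

open CategoryTheory AlgebraicGeometry TensorProduct

universe u v

namespace Pool.Agent.P8H28.SQ

open Module
open Pool.Agent.Y121.AH (dia dia_apply)
open Pool.Agent.H914 Pool.Agent.H914.VarClass Pool.Agent.H914.VarClass.Obj
  Pool.Agent.H914.WeilCohomology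

variable {k : Type u} [Field k] {𝒱 : VarClass k} {ops : CycleOps 𝒱}
  {W : WeilCohomology.{u, v} ops} {X Y : 𝒱.Obj}

theorem gr_ind {P : W.H X → Prop} (h : ∀ i, ∀ a ∈ W.gr X i, P a)
    (hadd : ∀ a b, P a → P b → P (a + b)) (a : W.H X) : P a := by
  have ha : a ∈ ⨆ i, W.gr X i := by
    rw [(W.isInternal X).submodule_iSup_eq_top]
    trivial
  exact Submodule.iSup_induction (W.gr X) (motive := P) ha h (h 0 0 (Submodule.zero_mem _)) hadd

/-- Induction on the cohomology of a product. -/
theorem kun_ind {P : W.H (X.prod Y) → Prop}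
    (h : ∀ i j, ∀ a ∈ W.gr X i, ∀ b ∈ W.gr Y j, P (W.map (fst X Y) a * W.map (snd X Y) b))
    (hadd : ∀ a b, P a → P b → P (a + b)) (c : W.H (X.prod Y)) : P c := by
  obtain ⟨t, rfl⟩ := (W.kunneth X Y).2 c
  induction t using TensorProduct.induction_on with
  | zero =>
    have h1 := h 0 0 0 (Submodule.zero_mem _) 0 (Submodule.zero_mem _)
    rwa [map_zero, zero_mul] at h1
  | add x y hx hy => rw [map_add]; exact hadd _ _ hx hy
  | tmul a b =>
    have h1 : kunnethMap (W.map (fst X Y)) (W.map (snd X Y)) (a ⊗ₜ[W.K] b) =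
        W.map (fst X Y) a * W.map (snd X Y) b := rfl
    rw [h1]
    refine gr_ind (P := fun a => P (W.map (fst X Y) a * W.map (snd X Y) b)) ?_ ?_ a
    · intro i a ha
      refine gr_ind (P := fun b => P (W.map (fst X Y) a * W.map (snd X Y) b)) ?_ ?_ b
      · intro j b hb
        exact h i j a ha b hb
      · intro b b' h1 h2
        rw [map_add, mul_add]
        exact hadd _ _ h1 h2
    · intro a a' h1 h2
      rw [map_add, add_mul]
      exact hadd _ _ h1 h2

/-- The operator on the cohomology of the product given by derivations of the factors. -/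
noncomputable def kOp (D : Module.End W.K (W.H X)) (E : Module.End W.K (W.H Y)) :
    Module.End W.K (W.H (X.prod Y)) :=
  let e := LinearEquiv.ofBijective _ (W.kunneth X Y)
  e.toLinearMap ∘ₗ (TensorProduct.map D LinearMap.id + TensorProduct.map LinearMap.id E) ∘ₗ
    e.symm.toLinearMap

theorem kOp_apply (D : Module.End W.K (W.H X)) (E : Module.End W.K (W.H Y)) (a : W.H X)
    (b : W.H Y) : kOp D E (W.map (fst X Y) a * W.map (snd X Y) b) =
      W.map (fst X Y) (D a) * W.map (snd X Y) b + W.map (fst X Y) a * W.map (snd X Y) (E b) := by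
  have h1 : (LinearEquiv.ofBijective _ (W.kunneth X Y)).symm
      (W.map (fst X Y) a * W.map (snd X Y) b) = a ⊗ₜ[W.K] b := by
    rw [LinearEquiv.symm_apply_eq]
    rfl
  unfold kOp
  simp only [LinearMap.comp_apply, LinearEquiv.coe_coe]
  rw [h1, LinearMap.add_apply, map_add, TensorProduct.map_tmul, TensorProduct.map_tmul]
  rfl

theorem kOp_add (D D' : Module.End W.K (W.H X)) (E E' : Module.End W.K (W.H Y)) :
    kOp (D + D') (E + E') = kOp D E + kOp D' E' := by
  refine LinearMap.ext fun c => ?_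
  refine kun_ind (P := fun c => kOp (D + D') (E + E') c = (kOp D E + kOp D' E') c) ?_ ?_ c
  · intro i j a _ b _
    rw [LinearMap.add_apply, kOp_apply, kOp_apply, kOp_apply, LinearMap.add_apply,
      LinearMap.add_apply, map_add, map_add]
    noncomm_ring
  · intro a b ha hb
    rw [map_add, map_add, ha, hb]

theorem kOp_smul (c : W.K) (D : Module.End W.K (W.H X)) (E : Module.End W.K (W.H Y)) :
    kOp (c • D) (c • E) = c • kOp D E := by
  refine LinearMap.ext fun z => ?_
  refine kun_ind (P := fun z => kOp (c • D) (c • E) z = (c • kOp D E) z) ?_ ?_ z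
  · intro i j a _ b _
    rw [LinearMap.smul_apply, kOp_apply, kOp_apply, LinearMap.smul_apply,
      LinearMap.smul_apply, map_smul, map_smul, smul_add, smul_mul_assoc, mul_smul_comm]
  · intro a b ha hb
    rw [map_add, map_add, ha, hb]

/-- The operator preserves the degrees. -/
def PresGr (D : Module.End W.K (W.H X)) : Prop := ∀ i, ∀ a ∈ W.gr X i, D a ∈ W.gr X i

/-- The degree operator. -/
noncomputable def dg (W : WeilCohomology.{u, v} ops) (X : 𝒱.Obj) : Module.End W.K (W.H X) :=
  dia (W.isInternal X) fun i => (i : W.K)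

theorem dg_apply {i : ℕ} {a : W.H X} (ha : a ∈ W.gr X i) : dg W X a = (i : W.K) • a :=
  dia_apply (W.isInternal X) _ ha

theorem mem_gr_iff {i : ℕ} {a : W.H X} : a ∈ W.gr X i ↔ dg W X a = (i : W.K) • a :=
  mem_iff_eigen (W.isInternal X) Nat.cast_injective

theorem presGr_iff {D : Module.End W.K (W.H X)} :
    PresGr D ↔ ∀ a, dg W X (D a) = D (dg W X a) :=
  ⟨fun h a => dia_comm (W.isInternal X) _ h a, fun h =>
    pres_of_comm (W.isInternal X) Nat.cast_injective h⟩

theorem dg_prod : dg W (X.prod Y) = kOp (dg W X) (dg W Y) := by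
  refine LinearMap.ext fun c => ?_
  refine kun_ind (P := fun c => dg W (X.prod Y) c = kOp (dg W X) (dg W Y) c) ?_ ?_ c
  · intro i j a ha b hb
    rw [kOp_apply, dg_apply (W.mul_mem (W.map_mem (fst X Y) ha) (W.map_mem (snd X Y) hb)),
      dg_apply ha, dg_apply hb, map_smul, map_smul, smul_mul_assoc, mul_smul_comm, Nat.cast_add,
      add_smul]
  · intro a b ha hb
    rw [map_add, map_add, ha, hb]

theorem kOp_comm {D D' : Module.End W.K (W.H X)} {E E' : Module.End W.K (W.H Y)}
    (h : ∀ a, D (D' a) = D' (D a)) (h' : ∀ a, E (E' a) = E' (E a)) (c : W.H (X.prod Y)) :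
    kOp D E (kOp D' E' c) = kOp D' E' (kOp D E c) := by
  refine kun_ind (P := fun c => kOp D E (kOp D' E' c) = kOp D' E' (kOp D E c)) ?_ ?_ c
  · intro i j a _ b _
    rw [kOp_apply, kOp_apply, map_add, map_add, kOp_apply, kOp_apply, kOp_apply, kOp_apply, h, h']
    abel
  · intro a b ha hb
    rw [map_add, map_add, map_add, map_add, ha, hb]

theorem kOp_gr {D : Module.End W.K (W.H X)} {E : Module.End W.K (W.H Y)} (hD : PresGr D)
    (hE : PresGr E) : PresGr (kOp D E) := by
  rw [presGr_iff, dg_prod]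
  exact fun a => kOp_comm (presGr_iff.1 hD) (presGr_iff.1 hE) a

theorem kOp_der {D : Module.End W.K (W.H X)} {E : Module.End W.K (W.H Y)} (hD : PresGr D)
    (hE : PresGr E) (hD' : IsDer D) (hE' : IsDer E) : IsDer (kOp D E) := by
  have key : ∀ i j, ∀ a : W.H X, ∀ b ∈ W.gr Y i, ∀ a' ∈ W.gr X j, ∀ b' : W.H Y,
      kOp D E ((W.map (fst X Y) a * W.map (snd X Y) b) *
        (W.map (fst X Y) a' * W.map (snd X Y) b')) =
      kOp D E (W.map (fst X Y) a * W.map (snd X Y) b) *
        (W.map (fst X Y) a' * W.map (snd X Y) b') +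
      (W.map (fst X Y) a * W.map (snd X Y) b) *
        kOp D E (W.map (fst X Y) a' * W.map (snd X Y) b') := by
    intro i j a b hb a' ha' b'
    have hc : ∀ b ∈ W.gr Y i, ∀ a' ∈ W.gr X j, ∀ a : W.H X, ∀ b' : W.H Y,
        (W.map (fst X Y) a * W.map (snd X Y) b) * (W.map (fst X Y) a' * W.map (snd X Y) b') =
        (-1 : W.K) ^ (i * j) • (W.map (fst X Y) (a * a') * W.map (snd X Y) (b * b')) := by
      intro b hb a' ha' a b'
      have h1 := W.comm (W.map_mem (snd X Y) hb) (W.map_mem (fst X Y) ha')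
      rw [mul_assoc, ← mul_assoc (W.map (snd X Y) b), h1, map_mul, map_mul, smul_mul_assoc,
        mul_smul_comm]
      congr 1
      noncomm_ring
    rw [hc b hb a' ha', map_smul, kOp_apply, kOp_apply, kOp_apply, hD', hE', add_mul, mul_add,
      hc b hb a' ha' (D a) b', hc (E b) (hE i b hb) a' ha' a b', hc b hb (D a') (hD j a' ha') a b',
      hc b hb a' ha' a (E b'), map_add, map_add, add_mul, mul_add, ← smul_add, ← smul_add,
      ← smul_add]
    congr 1
    abel
  intro x y
  refine kun_ind (P := fun x => kOp D E (x * y) = kOp D E x * y + x * kOp D E y) ?_ ?_ x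
  · intro i j a _ b hb
    refine kun_ind (P := fun y => kOp D E ((W.map (fst X Y) a * W.map (snd X Y) b) * y) =
      kOp D E (W.map (fst X Y) a * W.map (snd X Y) b) * y +
      (W.map (fst X Y) a * W.map (snd X Y) b) * kOp D E y) ?_ ?_ y
    · intro i' j' a' ha' b' _
      exact key j i' a b hb a' ha' b'
    · intro y y' h1 h2
      rw [mul_add, map_add, h1, h2, map_add]
      noncomm_ring
  · intro x x' h1 h2
    rw [add_mul, map_add, h1, h2, map_add]
    noncomm_ring

end Pool.Agent.P8H28.SQ
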