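import Pool.Agent.P8H28.SQ.Gal

/-!
# The comparison of the annihilators of Hodge classes and of Tate classes
-/

set_option linter.unusedSectionVars false

open CategoryTheory AlgebraicGeometry TensorProduct

universe u

namespace Pool.Agent.P8H28.SQ

open Module
open Pool.Agent.Y121.AH (em dia dia_apply)
open Pool.Agent.Y133.Half (pw)
open Pool.Agent.H914 Pool.Agent.H914.VarClass Pool.Agent.H914.VarClass.Obj
  Pool.Agent.H914.WeilCohomology

variable {k : Type u} [Field k] {𝒱 : VarClass k} {ops : CycleOps 𝒱}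
  {W : WeilCohomology.{u, 0} ops} {X : 𝒱.Obj}

/-- The projection to the component of degree `i`. -/
noncomputable def prj (W : WeilCohomology.{u, 0} ops) (X : 𝒱.Obj) (i : ℕ) :
    Module.End W.K (W.H X) :=
  dia (W.isInternal X) fun j => if j = i then 1 else 0

theorem prj_same {i : ℕ} {a : W.H X} (ha : a ∈ W.gr X i) : prj W X i a = a := by
  have h := dia_apply (W.isInternal X) (fun j => if j = i then (1 : W.K) else 0) ha
  rw [if_pos rfl, one_smul] at h
  exact h

theorem prj_ne {i j : ℕ} (hij : j ≠ i) {a : W.H X} (ha : a ∈ W.gr X j) : prj W X i a = 0 := by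
  have h := dia_apply (W.isInternal X) (fun j => if j = i then (1 : W.K) else 0) ha
  rw [if_neg hij, zero_smul] at h
  exact h

theorem prj_mem (i : ℕ) (a : W.H X) : prj W X i a ∈ W.gr X i := by
  refine gr_ind (P := fun a => prj W X i a ∈ W.gr X i) ?_ ?_ a
  · intro j a ha
    by_cases h : j = i
    · subst h
      rwa [prj_same ha]
    · rw [prj_ne h ha]
      exact Submodule.zero_mem _
  · intro a b h1 h2
    rw [map_add]
    exact Submodule.add_mem _ h1 h2

theorem prj_comm_mem (i : ℕ) {j : ℕ} {a : W.H X} (ha : a ∈ W.gr X j) :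
    prj W X i a ∈ W.gr X j := by
  by_cases h : j = i
  · subst h
    exact prj_mem j a
  · rw [prj_ne h ha]
    exact Submodule.zero_mem _

theorem prj_comm {D : W.H X →+ W.H X} (hD : ∀ i, ∀ a ∈ W.gr X i, D a ∈ W.gr X i) (i : ℕ)
    (a : W.H X) : prj W X i (D a) = D (prj W X i a) := by
  refine gr_ind (P := fun a => prj W X i (D a) = D (prj W X i a)) ?_ ?_ a
  · intro j a ha
    by_cases h : j = i
    · subst h
      rw [prj_same ha, prj_same (hD _ _ ha)]
    · rw [prj_ne h ha, prj_ne h (hD _ _ ha), map_zero]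
  · intro a b h1 h2
    rw [map_add, map_add, map_add, map_add, h1, h2]

/-- The projection to `H^1`. -/
noncomputable def pr1 (W : WeilCohomology.{u, 0} ops) (X : 𝒱.Obj) : W.H X →ₗ[W.K] W.gr X 1 :=
  (prj W X 1).codRestrict (W.gr X 1) fun a => prj_mem 1 a

theorem pr1_same (v : W.gr X 1) : pr1 W X v = v := by
  apply Subtype.ext
  exact prj_same v.2

theorem pr1_ne {i : ℕ} (hi : i ≠ 1) {a : W.H X} (ha : a ∈ W.gr X i) : pr1 W X a = 0 := by
  apply Subtype.ext
  exact prj_ne hi ha

/-- The extension of an operator on `H^1` by zero. -/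
noncomputable def ext0 (x : Module.End W.K (W.gr X 1)) : Module.End W.K (W.H X) :=
  (W.gr X 1).subtype ∘ₗ x ∘ₗ pr1 W X

theorem ext0_same (x : Module.End W.K (W.gr X 1)) (v : W.gr X 1) : ext0 x (v : W.H X) = x v := by
  change (x (pr1 W X v) : W.H X) = x v
  rw [pr1_same]

theorem ext0_ne (x : Module.End W.K (W.gr X 1)) {i : ℕ} (hi : i ≠ 1) {a : W.H X}
    (ha : a ∈ W.gr X i) : ext0 x a = 0 := by
  change (x (pr1 W X a) : W.H X) = 0
  rw [pr1_ne hi ha, map_zero]
  rfl

theorem ext0_gr (x : Module.End W.K (W.gr X 1)) : PresGr (ext0 x) := by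
  intro i a ha
  by_cases hi : i = 1
  · subst hi
    rw [ext0_same x ⟨a, ha⟩]
    exact (x ⟨a, ha⟩).2
  · rw [ext0_ne x hi ha]
    exact Submodule.zero_mem _

/-- The multiplier of a derivation on the top degree. -/
theorem trDer_of_top {D : Module.End W.K (W.H X)} (hD : PresGr D) {t : W.K} {c : W.H X}
    (hc : c ∈ W.gr X (2 * X.dim)) (hc0 : W.tr X c ≠ 0) (hDc : D c = t • c) : TrDer D t := by
  intro z
  refine gr_ind (P := fun z => W.tr X (D z) = t * W.tr X z) ?_ ?_ z
  · intro i z hz
    by_cases hi : i = 2 * X.dim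
    · subst hi
      have h1 : z = (W.tr X z / W.tr X c) • c := by
        rw [← sub_eq_zero]
        set y := z - (W.tr X z / W.tr X c) • c with hy
        have hy1 : y ∈ W.gr X (2 * X.dim) :=
          Submodule.sub_mem _ hz (Submodule.smul_mem _ _ hc)
        have hy2 : W.tr X y = 0 := by
          rw [hy, map_sub, map_smul, smul_eq_mul, div_mul_cancel₀ _ hc0, sub_self]
        refine W.nondeg y fun b => ?_
        refine gr_ind (P := fun b => W.tr X (y * b) = 0) ?_ ?_ b
        · intro j b hb
          by_cases hj : j = 0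
          · subst hj
            rw [W.gr_zero] at hb
            obtain ⟨r, rfl⟩ := Submodule.mem_span_singleton.1 hb
            rw [mul_smul_comm, mul_one, map_smul, hy2, smul_zero]
          · exact W.tr_eq_zero (W.mul_mem hy1 hb) (by omega)
        · intro a b h1 h2
          rw [mul_add, map_add, h1, h2, add_zero]
      rw [h1, map_smul, map_smul, hDc, map_smul, map_smul, smul_eq_mul, smul_eq_mul, smul_eq_mul]
      ring
    · rw [W.tr_eq_zero (hD i z hz) hi, W.tr_eq_zero hz hi, mul_zero]
  · intro a b h1 h2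
    rw [map_add, map_add, map_add, h1, h2, mul_add]

theorem pL_gr {r : ℕ} (e : Fin r → W.gr X 1) : pL (W.gr X 1).subtype e ∈ W.gr X r := by
  have key : ∀ l : List (W.H X), (∀ x ∈ l, x ∈ W.gr X 1) → l.prod ∈ W.gr X l.length := by
    intro l
    induction l with
    | nil => intro _; rw [List.prod_nil]; exact W.one_mem X
    | cons a l ih =>
      intro h
      rw [List.prod_cons, List.length_cons, add_comm]
      exact W.mul_mem (h a (List.mem_cons_self ..)) (ih fun x hx => h x (List.mem_cons_of_mem _ hx))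
  have h1 := key (List.ofFn fun i => (W.gr X 1).subtype (e i)) (by
    intro x hx
    rw [List.mem_ofFn] at hx
    obtain ⟨i, rfl⟩ := hx
    exact (e i).2)
  rw [List.length_ofFn] at h1
  exact h1

/-- Injectivity on the sum of the pull-backs of `H^1`. -/
theorem fst_snd_inj {Y : 𝒱.Obj} {a : W.H X} {b : W.H Y} {i j : ℕ} (hi : 0 < i) (hj : 0 < j)
    (ha : a ∈ W.gr X i) (hb : b ∈ W.gr Y j)
    (h : W.map (fst X Y) a + W.map (snd X Y) b = 0)
    (hX : ∃ c ∈ W.gr X (2 * X.dim), W.tr X c ≠ 0) (hY : ∃ c ∈ W.gr Y (2 * Y.dim), W.tr Y c ≠ 0) :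
    a = 0 ∧ b = 0 := by
  constructor
  · refine W.nondeg a fun z => ?_
    obtain ⟨c, hc, hc0⟩ := hY
    have h2 : b * c = 0 := by
      have h3 := W.mul_mem hb hc
      rw [W.gr_eq_bot Y _ (by omega)] at h3
      exact (Submodule.mem_bot _).1 h3
    have h4 : W.map (fst X Y) (a * z) * W.map (snd X Y) c = 0 := by
      have h5 : W.map (fst X Y) a * W.map (snd X Y) c = 0 := by
        have h6 := congrArg (fun t => t * W.map (snd X Y) c) h
        simp only [add_mul, zero_mul] at h6
        rw [← map_mul (W.map (snd X Y)), h2, map_zero, add_zero] at h6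
        exact h6
      refine gr_ind (P := fun z => W.map (fst X Y) (a * z) * W.map (snd X Y) c = 0) ?_ ?_ z
      · intro l z hz
        have h6 := W.comm (W.map_mem (fst X Y) hz) (W.map_mem (snd X Y) hc)
        rw [map_mul, mul_assoc, h6, mul_smul_comm, ← mul_assoc (W.map (fst X Y) a), h5, zero_mul,
          smul_zero]
      · intro z z' h6 h7
        rw [mul_add, map_add, add_mul, h6, h7, add_zero]
    have h5 := W.tr_prod (a * z) c
    rw [h4, map_zero] at h5
    exact (mul_eq_zero.1 h5.symm).resolve_right hc0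
  · refine W.nondeg b fun z => ?_
    obtain ⟨c, hc, hc0⟩ := hX
    have h2 : c * a = 0 := by
      have h3 := W.mul_mem hc ha
      rw [W.gr_eq_bot X _ (by omega)] at h3
      exact (Submodule.mem_bot _).1 h3
    have h4 : W.map (fst X Y) c * W.map (snd X Y) (b * z) = 0 := by
      have h5 : W.map (fst X Y) c * W.map (snd X Y) b = 0 := by
        have h6 := congrArg (fun t => W.map (fst X Y) c * t) h
        simp only [mul_add, mul_zero] at h6
        rw [← map_mul (W.map (fst X Y)), h2, map_zero, zero_add] at h6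
        exact h6
      rw [map_mul, ← mul_assoc, h5, zero_mul]
    have h5 := W.tr_prod c (b * z)
    rw [h4, map_zero] at h5
    exact (mul_eq_zero.1 h5.symm).resolve_left hc0

end Pool.Agent.P8H28.SQ
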