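import Pool.Agent.P8H28.SQ.Kc

/-!
# The comparison of the annihilators of Hodge classes and of Tate classes: the theorem
-/

set_option linter.unusedSectionVars false

open CategoryTheory AlgebraicGeometry TensorProduct

universe u

namespace Pool.Agent.P8H28.SQ

open Module
open Pool.Agent.Y121.AH (em dia dia_apply)
open Pool.Agent.Y133.Half (pw)
open Pool.Agent.H914 Pool.Agent.H914.VarClass Pool.Agent.H914.VarClass.Obj
  Pool.Agent.H914.WeilCohomology

variable {k : Type u} [Field k] {𝒱 : VarClass k} {ops : CycleOps 𝒱}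
  {W : WeilCohomology.{u, 0} ops} {X : 𝒱.Obj}

theorem one_sub_idem {K V : Type*} [Field K] [AddCommGroup V] [Module K V] {p : Module.End K V}
    (h : p * p = p) : (1 - p) * (1 - p) = 1 - p := by
  have q1 : p * (1 - p) = 0 := by rw [mul_sub, mul_one, h, sub_self]
  rw [sub_mul, one_mul, q1, sub_zero]

/-- The assumptions of the comparison. -/
structure Dat (hX : AbType W X) (G : GaloisPowers W X)
    (TT HH : ∀ n : ℕ, ℕ → Set (W.H (pw X n))) (P : Set (Module.End W.K (W.gr X 1))) : Prop where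
  tgr : ∀ n j, ∀ c ∈ TT n j, c ∈ W.gr (pw X n) (2 * j)
  tate : ∀ n j c, IsTate G n j c → c ∈ Submodule.span W.K (TT n j)
  sub : ∀ n j, ∀ c ∈ HH n j, c ∈ Submodule.span W.K (TT n j)
  mid : ∀ c ∈ TT 1 X.dim, tOp (prj W X X.dim) (prj W X X.dim) c ∈ Submodule.span W.K (HH 1 X.dim)
  top : ∃ c ∈ HH 0 X.dim, W.tr X c ≠ 0
  idem : ∀ p ∈ P, p * p = p
  ann1 : ∀ p ∈ P, ∀ n j, ∀ c ∈ TT n j, DL hX n p c = (j : W.K) • c
  gen : ∀ n (U : Submodule W.K (W.H (pw X n))), (∀ p ∈ P, ∀ x ∈ U, DL hX n p x ∈ U) →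
    ∃ Δ : Subgroup G.Γ, Δ.FiniteIndex ∧ ∀ g ∈ Δ, ∀ x ∈ U, G.ρ n g x ∈ U
  proj : ∀ Δ : Subgroup G.Γ, Δ.FiniteIndex → ∀ U : Submodule W.K (W.H (pw X 0)),
    (∀ g ∈ Δ, ∀ x ∈ U, G.ρ 0 g x ∈ U) → ∃ Q : Module.End W.K (W.H (pw X 0)), (∀ x, Q x ∈ U) ∧
      (∀ x ∈ U, Q x = x) ∧ ∀ g ∈ Δ, ∀ x, Q (G.ρ 0 g x) = G.ρ 0 g (Q x)

variable {hX : AbType W X} {G : GaloisPowers W X} {TT HH : ∀ n : ℕ, ℕ → Set (W.H (pw X n))}
  {P : Set (Module.End W.K (W.gr X 1))}

theorem Dat.le (h : Dat hX G TT HH P) : Ann hX TT ≤ Ann hX HH := Ann_mono h.sub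

theorem Dat.ann (h : Dat hX G TT HH P) : ∀ p ∈ P, p ∈ Ann hX TT :=
  fun p hp => ⟨1, fun n j c hc => by rw [mul_one]; exact h.ann1 p hp n j c hc⟩

theorem Dat.hgr (h : Dat hX G TT HH P) {n j : ℕ} {c : W.H (pw X n)} (hc : c ∈ HH n j) :
    c ∈ W.gr (pw X n) (2 * j) :=
  (Submodule.span_le.2 (h.tgr n j) : Submodule.span W.K (TT n j) ≤ _) (h.sub n j c hc)

/-- The multiplier of the trace. -/
theorem Dat.trDer (h : Dat hX G TT HH P) {x : Module.End W.K (W.gr X 1)} {m : W.K}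
    (hm : ∀ n j, ∀ c ∈ HH n j, DL hX n x c = (j * m) • c) : TrDer (der0 hX x) (X.dim * m) := by
  obtain ⟨c, hc, hc0⟩ := h.top
  exact trDer_of_top (der0_gr hX x) (h.hgr hc) hc0 (hm 0 _ c hc)

theorem finrank_ker_idem {K V : Type*} [Field K] [AddCommGroup V] [Module K V]
    [FiniteDimensional K V] (p : Module.End K V) :
    finrank K (LinearMap.range p) + finrank K (LinearMap.ker p) = finrank K V :=
  LinearMap.finrank_range_add_finrank_ker p

theorem range_one_sub {K V : Type*} [Field K] [AddCommGroup V] [Module K V]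
    {p : Module.End K V} (h : p * p = p) : LinearMap.range (1 - p) = LinearMap.ker p := by
  ext v
  constructor
  · rintro ⟨w, rfl⟩
    rw [LinearMap.mem_ker, LinearMap.sub_apply, map_sub, Module.End.one_apply,
      ← Module.End.mul_apply, h, sub_self]
  · intro hv
    refine ⟨v, ?_⟩
    rw [LinearMap.sub_apply, Module.End.one_apply, LinearMap.mem_ker.1 hv, sub_zero]

theorem finrank_range_one_sub {K V : Type*} [Field K] [AddCommGroup V] [Module K V]
    [FiniteDimensional K V] {p : Module.End K V} (h : p * p = p) :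
    finrank K (LinearMap.range p) + finrank K (LinearMap.range (1 - p)) = finrank K V := by
  rw [range_one_sub h]
  exact finrank_ker_idem p

/-- The rank of the weak Hodge operators. -/
theorem Dat.rank (h : Dat hX G TT HH P) {p : Module.End W.K (W.gr X 1)} (hp : p ∈ P) :
    finrank W.K (LinearMap.range p) = X.dim := by
  obtain ⟨v, hv0, hv⟩ := exists_split (W.gr X 1).subtype sq_zero (exists_top hX)
    (D := der0 hX) (der0_der hX) (der0_apply hX) (h.idem p hp)
  have h1 : TrDer (der0 hX p) (X.dim * 1) :=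
    h.trDer (x := p) fun n j c hc => by
      rw [mul_one]
      have h2 : ∀ c ∈ TT n j, DL hX n p c = ((j : W.K) * 1) • c := fun c hc => by
        rw [mul_one]; exact h.ann1 p hp n j c hc
      have h3 := DL_span hX h2 (h.sub n j c hc)
      rwa [mul_one] at h3
  have h2 : finrank W.K (LinearMap.range p) + finrank W.K (LinearMap.ker p) = 2 * X.dim := by
    rw [finrank_ker_idem]
    exact hX.dim
  have hgr : pL (W.gr X 1).subtype v ∈ W.gr X (2 * X.dim) := by
    rw [← h2]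
    exact pL_gr v
  have htr : W.tr X (pL (W.gr X 1).subtype v) ≠ 0 := by
    intro h0
    apply hv0
    refine W.nondeg _ fun b => ?_
    refine gr_ind (P := fun b => W.tr X (pL (W.gr X 1).subtype v * b) = 0) ?_ ?_ b
    · intro j b hb
      by_cases hj : j = 0
      · subst hj
        rw [W.gr_zero] at hb
        obtain ⟨r, rfl⟩ := Submodule.mem_span_singleton.1 hb
        rw [mul_smul_comm, mul_one, map_smul, h0, smul_zero]
      · exact W.tr_eq_zero (W.mul_mem hgr hb) (by omega)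
    · intro a b h1 h2
      rw [mul_add, map_add, h1, h2, add_zero]
  have h3 := h1 (pL (W.gr X 1).subtype v)
  rw [hv, map_smul, smul_eq_mul, mul_one] at h3
  exact Nat.cast_injective (mul_right_cancel₀ htr h3)

theorem Dat.rank' (h : Dat hX G TT HH P) {p : Module.End W.K (W.gr X 1)} (hp : p ∈ P) :
    finrank W.K (LinearMap.range (1 - p)) = X.dim := by
  have h1 := finrank_range_one_sub (h.idem p hp)
  have h2 := h.rank hp
  have h3 : finrank W.K (W.gr X 1) = 2 * X.dim := hX.dim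
  omega

/-- The class of an equivariant operator is a Tate class. -/
theorem tate_opclass {π : Module.End W.K (W.H X)} (hπ : PresGr π) {Δ : Subgroup G.Γ}
    (hΔ : Δ.FiniteIndex) (hcomm : ∀ g ∈ Δ, ∀ a, π (G.ρ 0 g a) = G.ρ 0 g (π a))
    {c : W.H (X.prod X)} (hc : ∀ a b, W.tr (X.prod X) (c * (W.map (fst X X) a *
      W.map (snd X X) b)) = W.tr X (π a * b)) : IsTate G 1 X.dim c := by
  refine ⟨opclass_gr hπ hc, Δ, hΔ, fun g hg => ?_⟩
  refine opclass_aut (σ := fun a => G.ρ 0 g a) (r := (G.χ g : W.K) ^ X.dim)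
    (fun a b => map_mul (G.ρ 0 g) a b) (fun a => G.tr 0 g a) (hcomm g hg) hc
    (τ := G.ρ 1 g) (fun a => G.fst 0 g a) (fun a => G.snd 0 g a) fun z => ?_
  have h1 := G.tr 1 g z
  have h2 : (pw X 1).dim = X.dim + X.dim := dim_prod X X
  rw [h2, pow_add] at h1
  exact h1

/-- Equivariant operators commute, on the cohomology of degree `i`, with the annihilator of the Hodge
classes. -/
theorem Dat.comm (h : Dat hX G TT HH P) {i : ℕ} (hi : i ≤ 2 * X.dim)
    (hK : ∀ c ∈ TT 1 X.dim, tOp (prj W X (2 * X.dim - i)) (prj W X i) c ∈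
      Submodule.span W.K (HH 1 X.dim))
    {π : Module.End W.K (W.H X)} (hπ : PresGr π)
    {Δ : Subgroup G.Γ} (hΔ : Δ.FiniteIndex)
    (hcomm : ∀ g ∈ Δ, ∀ a, π (G.ρ 0 g a) = G.ρ 0 g (π a)) {x : Module.End W.K (W.gr X 1)}
    (hx : x ∈ Ann hX HH) {a : W.H X} (ha : a ∈ W.gr X i) :
    π (der0 hX x a) = der0 hX x (π a) := by
  obtain ⟨c, hc⟩ := exists_opclass π
  obtain ⟨m, hm⟩ := hx
  have h1 : tOp (prj W X (2 * X.dim - i)) (prj W X i) c ∈ Submodule.span W.K (HH 1 X.dim) := by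
    have h2 : Submodule.span W.K (TT 1 X.dim) ≤ (Submodule.span W.K (HH 1 X.dim)).comap
        (tOp (prj W X (2 * X.dim - i)) (prj W X i)) := Submodule.span_le.2 hK
    exact h2 (h.tate 1 _ c (tate_opclass hπ hΔ hcomm hc))
  have h2 : DL hX 1 x (tOp (prj W X (2 * X.dim - i)) (prj W X i) c) =
      ((X.dim : W.K) * m) • tOp (prj W X (2 * X.dim - i)) (prj W X i) c :=
    DL_span hX (hm 1 X.dim) h1
  have h3 : ∀ a b, W.tr (X.prod X) (tOp (prj W X (2 * X.dim - i)) (prj W X i) c *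
      (W.map (fst X X) a * W.map (snd X X) b)) =
      W.tr X ((π * prj W X i : Module.End W.K (W.H X)) a * b) := by
    intro a b
    have h4 := tOp_tr (W := W) (X := X) (Y := X) hi (Nat.sub_le (2 * X.dim) i) c a b
    rw [Nat.sub_sub_self hi] at h4
    rw [h4, hc, Module.End.mul_apply]
    have h5 := prj_mem (W := W) (X := X) i a
    have h6 := hπ i _ h5
    refine gr_ind (P := fun b => W.tr X (π (prj W X i a) * prj W X (2 * X.dim - i) b) =
      W.tr X (π (prj W X i a) * b)) ?_ ?_ b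
    · intro s b hb
      by_cases hs : s = 2 * X.dim - i
      · subst hs
        rw [prj_same hb]
      · rw [prj_ne hs hb, mul_zero, map_zero, W.tr_eq_zero (W.mul_mem h6 hb) (by omega)]
    · intro b b' h7 h8
      rw [map_add, mul_add, mul_add, map_add, map_add, h7, h8]
  have h4 := (der_opclass (der0_gr hX x) (der0_der hX x) (h.trDer hm) h3).1 h2 a
  rw [Module.End.mul_apply, Module.End.mul_apply, prj_same (der0_gr hX x i a ha),
    prj_same ha] at h4
  exact h4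

/-- Equivariant operators commute with the annihilator of the Tate classes. -/
theorem Dat.commT (h : Dat hX G TT HH P) {π : Module.End W.K (W.H X)} (hπ : PresGr π)
    {Δ : Subgroup G.Γ} (hΔ : Δ.FiniteIndex)
    (hcomm : ∀ g ∈ Δ, ∀ a, π (G.ρ 0 g a) = G.ρ 0 g (π a)) {x : Module.End W.K (W.gr X 1)}
    (hx : x ∈ Ann hX TT) (a : W.H X) : π (der0 hX x a) = der0 hX x (π a) := by
  obtain ⟨c, hc⟩ := exists_opclass π
  obtain ⟨m, hm⟩ := hx
  have h1 := h.tate 1 _ c (tate_opclass hπ hΔ hcomm hc)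
  have h2 : DL hX 1 x c = ((X.dim : W.K) * m) • c := DL_span hX (hm 1 X.dim) h1
  have h3 : ∀ n j, ∀ c ∈ HH n j, DL hX n x c = (j * m) • c := fun n j c hc =>
    DL_span hX (hm n j) (h.sub n j c hc)
  exact (der_opclass (der0_gr hX x) (der0_der hX x) (h.trDer h3) hc).1 h2 a

/-- Stable subspaces have projections. -/
theorem Dat.proj_g (h : Dat hX G TT HH P) {r : ℕ} {S : Submodule W.K (Module.End W.K (W.gr X 1))}
    (hS : ∀ π : Module.End W.K (W.H X), PresGr π → ∀ Δ : Subgroup G.Γ, Δ.FiniteIndex →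
      (∀ g ∈ Δ, ∀ a, π (G.ρ 0 g a) = G.ρ 0 g (π a)) → ∀ x ∈ S, ∀ a ∈ W.gr X r,
        π (der0 hX x a) = der0 hX x (π a))
    (U : Submodule W.K (W.H X))
    (hUr : U ≤ W.gr X r) (hU : ∀ p ∈ P, ∀ u ∈ U, der0 hX p u ∈ U) :
    ∃ π : Module.End W.K (W.H X), PresGr π ∧ (∀ a, π a ∈ U) ∧ (∀ u ∈ U, π u = u) ∧
      ∀ x ∈ S, ∀ a, π (der0 hX x a) = der0 hX x (π a) := by
  obtain ⟨Δ, hΔ, h1⟩ := h.gen 0 U hU
  obtain ⟨(Q : Module.End W.K (W.H X)), hQ1, hQ2, hQ3⟩ := h.proj Δ hΔ U h1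
  have hne : ∀ {i : ℕ} {a : W.H X}, i ≠ r → a ∈ W.gr X i →
      (Q * prj W X r : Module.End W.K (W.H X)) a = 0 := by
    intro i a hi ha
    rw [Module.End.mul_apply, prj_ne hi ha]
    exact map_zero Q
  have hQ : PresGr (Q * prj W X r : Module.End W.K (W.H X)) := by
    intro i a ha
    by_cases hi : i = r
    · subst hi
      rw [Module.End.mul_apply]
      exact hUr (hQ1 _)
    · rw [hne hi ha]
      exact Submodule.zero_mem _
  have hcomm : ∀ g ∈ Δ, ∀ a, (Q * prj W X r : Module.End W.K (W.H X)) (G.ρ 0 g a) =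
      G.ρ 0 g ((Q * prj W X r : Module.End W.K (W.H X)) a) := by
    intro g hg a
    have h2 := prj_comm (W := W) (X := X) (D := (G.ρ 0 g).toLinearMap.toAddMonoidHom)
      (fun i a ha => G.gr 0 g i a ha) r a
    have h3 : prj W X r (G.ρ 0 g a) = G.ρ 0 g (prj W X r a) := h2
    rw [Module.End.mul_apply, Module.End.mul_apply, h3]
    exact hQ3 g hg _
  refine ⟨Q * prj W X r, hQ, fun a => hQ1 _, fun u hu => ?_, fun x hx a => ?_⟩
  · rw [Module.End.mul_apply, prj_same (hUr hu)]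
    exact hQ2 u hu
  · refine gr_ind (P := fun a => (Q * prj W X r : Module.End W.K (W.H X)) (der0 hX x a) =
      der0 hX x ((Q * prj W X r : Module.End W.K (W.H X)) a)) ?_ ?_ a
    · intro i a ha
      by_cases hi : i = r
      · subst hi
        exact hS _ hQ Δ hΔ hcomm x hx a ha
      · rw [hne hi ha, hne hi (der0_gr hX x i a ha), map_zero]
    · intro a b h2 h3
      rw [map_add, map_add, map_add, map_add, h2, h3]

/-- The annihilator of the Tate classes acts semisimply. -/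
theorem Dat.hss (h : Dat hX G TT HH P) (U : Submodule W.K (W.gr X 1))
    (hU : ∀ x ∈ Ann hX TT, ∀ w ∈ U, x w ∈ U) :
    ∃ U' : Submodule W.K (W.gr X 1), (∀ x ∈ Ann hX TT, ∀ w ∈ U', x w ∈ U') ∧ IsCompl U U' := by
  obtain ⟨π, hπ, h1, h2, h3⟩ := h.proj_g (r := 1) (S := Ann hX TT)
    (fun π hπ Δ hΔ hc x hx a _ => h.commT hπ hΔ hc hx a) (U.map (W.gr X 1).subtype)
    (by rintro _ ⟨v, _, rfl⟩; exact v.2) (by
      rintro p hp _ ⟨v, hv, rfl⟩
      exact ⟨p v, hU p (h.ann p hp) v hv, (der0_apply hX p v).symm⟩)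
  let q : Module.End W.K (W.gr X 1) := (pr1 W X) ∘ₗ π ∘ₗ (W.gr X 1).subtype
  have hq1 : ∀ v, ((q v : W.gr X 1) : W.H X) = π v := by
    intro v
    have h4 := pr1_same (⟨π v, hπ 1 _ v.2⟩ : W.gr X 1)
    exact congrArg Subtype.val h4
  have hq2 : ∀ v, q v ∈ U := by
    intro v
    obtain ⟨w, hw, hwv⟩ := h1 (v : W.H X)
    have h4 : q v = w := Subtype.ext ((hq1 v).trans hwv.symm)
    rw [h4]
    exact hw
  have hq3 : ∀ v ∈ U, q v = v := fun v hv => Subtype.ext ((hq1 v).trans (h2 _ ⟨v, hv, rfl⟩))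
  refine ⟨LinearMap.ker q, fun x hx w hw => ?_, ?_⟩
  · rw [LinearMap.mem_ker] at hw ⊢
    apply Subtype.ext
    have h4 := h3 x hx (w : W.H X)
    rw [der0_apply, ← hq1 w, hw] at h4
    rw [hq1, h4]
    exact map_zero _
  · refine ⟨?_, ?_⟩
    · rw [Submodule.disjoint_def]
      intro v hv hv'
      rw [LinearMap.mem_ker] at hv'
      rw [← hq3 v hv, hv']
    · rw [codisjoint_iff, eq_top_iff]
      intro v _
      refine Submodule.mem_sup.2 ⟨q v, hq2 v, v - q v, ?_, by abel⟩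
      rw [LinearMap.mem_ker, map_sub, hq3 _ (hq2 v), sub_self]

variable [IsAlgClosed W.K]

theorem Dat.rad (h : Dat hX G TT HH P) : rad (Ann hX TT) = ⊥ :=
  rad_eq_bot Ann_isLie (fun _ hY φ _ hy => Ann_replica hY φ hy) h.hss

/-- **The comparison.** -/
theorem Dat.main (h : Dat hX G TT HH P) {x : Module.End W.K (W.gr X 1)} (hx : x ∈ Ann hX HH) :
    ∃ y ∈ Ann hX TT, (∀ p ∈ P, p * (x - y) = (x - y) * p) ∧
      ∀ w ∈ Ann hX TT, LinearMap.trace W.K _ (w * (x - y)) = 0 := by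
  have key : ∀ (r : ℕ) (e : Fin r → W.gr X 1), r = X.dim → ∀ x ∈ Ann hX HH,
      ∀ U : Submodule W.K (W.H X),
      (∀ q ∈ P, ∀ w ∈ U, der0 hX q w ∈ U) → pL (W.gr X 1).subtype e ∈ U →
        der0 hX x (pL (W.gr X 1).subtype e) ∈ U := by
    intro r e hr x hx U hU he
    obtain ⟨π, hπ, h1, h2, h3⟩ := h.proj_g (r := r) (S := Ann hX HH)
      (fun π hπ Δ hΔ hc x hx a ha => h.comm (i := r) (by omega)
        (by rw [hr, two_mul, Nat.add_sub_cancel]; exact h.mid) hπ hΔ hc hx ha)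
      (U ⊓ W.gr X r) inf_le_right
      fun p hp u hu => ⟨hU p hp u hu.1, der0_gr hX p r u hu.2⟩
    have h4 := h3 x hx (pL (W.gr X 1).subtype e)
    rw [h2 _ ⟨he, pL_gr e⟩] at h4
    rw [← h4]
    exact (h1 _).1
  refine compare (D := der0 hX) (fun x y => DL_bracket hX x y 0) Ann_isLie Ann_isLie h.le h.rad
    (one_mem_Ann h.tgr) (fun p hp => ⟨h.ann p hp, h.idem p hp, ?_⟩) hx
  obtain ⟨r, e, he, hr⟩ := exists_extremal (W.gr X 1).subtype sq_zero (exists_top hX)
    (D := der0 hX) (der0_der hX) (der0_apply hX) (h.idem p hp)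
  have hp1 := one_sub_idem (h.idem p hp)
  obtain ⟨r', e', he', hr'⟩ := exists_extremal (W.gr X 1).subtype sq_zero (exists_top hX)
    (D := der0 hX) (der0_der hX) (der0_apply hX) (p := 1 - p) hp1
  exact ⟨_, _, he, he', fun x hx U hU => ⟨key r e (hr.trans (h.rank hp)) x hx U hU,
    key r' e' (hr'.trans (h.rank' hp)) x hx U hU⟩⟩

end Pool.Agent.P8H28.SQ
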