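import Pool.Agent.P8H28.SQ.Main2

/-!
# Operators which commute with the weak Hodge operators
-/

set_option linter.unusedSectionVars false

open CategoryTheory AlgebraicGeometry TensorProduct

universe u

namespace Pool.Agent.P8H28.SQ

open Module
open Pool.Agent.Y121.AH (em dia dia_apply)
open Pool.Agent.Y133.Half (pw)
open Pool.Agent.H914 Pool.Agent.H914.VarClass Pool.Agent.H914.VarClass.Obj
  Pool.Agent.H914.WeilCohomology

variable {k : Type u} [Field k] {𝒱 : VarClass k} {ops : CycleOps 𝒱}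
  {W : WeilCohomology.{u, 0} ops} {X : 𝒱.Obj}

variable {hX : AbType W X} {G : GaloisPowers W X} {TT HH : ∀ n : ℕ, ℕ → Set (W.H (pw X n))}
  {P : Set (Module.End W.K (W.gr X 1))}

/-- The graph of an operator. -/
noncomputable def grf (Z : Module.End W.K (W.gr X 1)) : W.gr X 1 →ₗ[W.K] W.H (X.prod X) :=
  (W.map (fst X X)).toLinearMap ∘ₗ (W.gr X 1).subtype +
    (W.map (snd X X)).toLinearMap ∘ₗ (W.gr X 1).subtype ∘ₗ Z

theorem grf_apply (Z : Module.End W.K (W.gr X 1)) (v : W.gr X 1) :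
    grf Z v = W.map (fst X X) (v : W.H X) + W.map (snd X X) (Z v : W.H X) := rfl

theorem graph_aux {Z : Module.End W.K (W.gr X 1)} {σ : W.H X ≃ₐ[W.K] W.H X}
    (hσ : ∀ i, ∀ a ∈ W.gr X i, σ a ∈ W.gr X i) {τ : W.H (X.prod X) ≃ₐ[W.K] W.H (X.prod X)}
    (hτ1 : ∀ a, τ (W.map (fst X X) a) = W.map (fst X X) (σ a))
    (hτ2 : ∀ a, τ (W.map (snd X X) a) = W.map (snd X X) (σ a))
    (htop : ∃ c ∈ W.gr X (2 * X.dim), W.tr X c ≠ 0)
    (h : ∀ x ∈ LinearMap.range (grf Z), τ x ∈ LinearMap.range (grf Z)) (a : W.H X) :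
    ext0 Z (σ a) = σ (ext0 Z a) := by
  refine gr_ind (P := fun a => ext0 Z (σ a) = σ (ext0 Z a)) ?_ ?_ a
  · intro i a ha
    by_cases hi : i = 1
    · subst hi
      let v : W.gr X 1 := ⟨a, ha⟩
      obtain ⟨w, hw⟩ := h (grf Z v) ⟨v, rfl⟩
      rw [grf_apply, grf_apply, map_add, hτ1, hτ2] at hw
      have h3 : W.map (fst X X) ((w : W.H X) - σ (v : W.H X)) +
          W.map (snd X X) ((Z w : W.H X) - σ (Z v : W.H X)) = 0 := by
        rw [map_sub, map_sub]
        have h5 : W.map (fst X X) (w : W.H X) + W.map (snd X X) (Z w : W.H X) -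
          (W.map (fst X X) (σ (v : W.H X)) + W.map (snd X X) (σ (Z v : W.H X))) = 0 := by
          rw [hw]
          exact sub_self _
        rw [← h5]
        abel
      obtain ⟨h4, h5⟩ := fst_snd_inj one_pos one_pos
        (Submodule.sub_mem _ w.2 (hσ 1 _ v.2))
        (Submodule.sub_mem _ (Z w).2 (hσ 1 _ (Z v).2)) h3 htop htop
      rw [sub_eq_zero] at h4 h5
      have h6 : ext0 Z (σ a) = Z w := by
        have h7 : σ a = (w : W.H X) := h4.symm
        rw [h7]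
        exact ext0_same Z w
      rw [h6, h5]
      exact congrArg σ (ext0_same Z v).symm
    · rw [ext0_ne Z hi ha, ext0_ne Z hi (hσ i a ha), map_zero]
  · intro a b h2 h3
    rw [map_add, map_add, map_add, map_add, h2, h3]

/-- Operators which commute with the weak Hodge operators commute with a subgroup of finite index. -/
theorem Dat.graph (h : Dat hX G TT HH P) {Z : Module.End W.K (W.gr X 1)}
    (hZ : ∀ p ∈ P, p * Z = Z * p) : ∃ Δ : Subgroup G.Γ, Δ.FiniteIndex ∧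
      ∀ g ∈ Δ, ∀ a : W.H X, ext0 Z (G.ρ 0 g a) = G.ρ 0 g (ext0 Z a) := by
  have hP : ∀ p ∈ P, ∀ v, kOp (der0 hX p) (der0 hX p) (grf Z v) = grf Z (p v) := by
    intro p hp v
    have h1 := LinearMap.congr_fun (hZ p hp) v
    rw [Module.End.mul_apply, Module.End.mul_apply] at h1
    rw [grf_apply, grf_apply, map_add, kOp_fst (der0_der hX p), kOp_snd (der0_der hX p),
      der0_apply, der0_apply, h1]
  obtain ⟨Δ, hΔ, h1⟩ := h.gen 1 (LinearMap.range (grf Z)) (by
    rintro p hp _ ⟨v, rfl⟩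
    exact ⟨p v, (hP p hp v).symm⟩)
  obtain ⟨c, hc, hc0⟩ := h.top
  have htop : ∃ c ∈ W.gr X (2 * X.dim), W.tr X c ≠ 0 := ⟨c, h.hgr hc, hc0⟩
  exact ⟨Δ, hΔ, fun g hg a => graph_aux (σ := G.ρ 0 g) (τ := G.ρ 1 g) (G.gr 0 g) (G.fst 0 g)
    (G.snd 0 g) htop (h1 g hg) a⟩

theorem sub_mem_aux {K V : Type*} [Field K] [AddCommGroup V] [Module K V]
    {S : Submodule K (Module.End K V)} {x y : Module.End K V} (hx : x ∈ S) (hy : y ∈ S) :
    x - y ∈ S := S.sub_mem hx hy

theorem sub_add_aux {K V : Type*} [Field K] [AddCommGroup V] [Module K V]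
    (x y : Module.End K V) : x - y + y = x := sub_add_cancel x y

variable [IsAlgClosed W.K]

/-- The comparison, with the operators commuting with a subgroup of finite index. -/
theorem Dat.main' (h : Dat hX G TT HH P) {x : Module.End W.K (W.gr X 1)} (hx : x ∈ Ann hX HH) :
    ∃ y ∈ Ann hX TT, x - y ∈ Ann hX HH ∧ (∃ Δ : Subgroup G.Γ, Δ.FiniteIndex ∧
      ∀ g ∈ Δ, ∀ a : W.H X, ext0 (x - y) (G.ρ 0 g a) = G.ρ 0 g (ext0 (x - y) a)) ∧
      ∀ w ∈ Ann hX TT, LinearMap.trace W.K _ (w * (x - y)) = 0 := by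
  obtain ⟨y, hy, h1, h2⟩ := h.main hx
  exact ⟨y, hy, sub_mem_aux hx (h.le hy), h.graph h1, h2⟩

/-- If the central elements of the annihilator of the Hodge classes annihilate the Tate classes, then
the annihilators are the same. -/
theorem Dat.eq_of_centre (h : Dat hX G TT HH P)
    (hC : ∀ Z ∈ Ann hX HH, (∃ Δ : Subgroup G.Γ, Δ.FiniteIndex ∧
      ∀ g ∈ Δ, ∀ a : W.H X, ext0 Z (G.ρ 0 g a) = G.ρ 0 g (ext0 Z a)) → Z ∈ Ann hX TT) :
    Ann hX HH ≤ Ann hX TT := by
  intro x hx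
  obtain ⟨y, hy, h1, h2, -⟩ := h.main' hx
  have h3 := Submodule.add_mem _ (hC _ h1 h2) hy
  rwa [sub_add_aux] at h3

end Pool.Agent.P8H28.SQ
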