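import Pool.Agent.P8H28.SQ.Psi

/-!
# Classes of operators: slices, extensions, Hodge classes
-/

set_option linter.unusedSectionVars false

open CategoryTheory AlgebraicGeometry TensorProduct

universe u

namespace Pool.Agent.P8H28.SQ

open Module
open Pool.Agent.Y121.AH
open Pool.Agent.Y133.Half (pw)
open Pool.Agent.H914 Pool.Agent.H914.VarClass Pool.Agent.H914.VarClass.Obj
  Pool.Agent.H914.WeilCohomology

variable {k : Type u} [Field k] {𝒱 : VarClass k} {ops : CycleOps 𝒱}

section slice

variable {W : WeilCohomology.{u, 0} ops} {X : 𝒱.Obj} {L : Type} [Field L] [Algebra W.K L]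

theorem sl_tr (φ : L →ₗ[W.K] W.K) (x : (baseW W L).H X) :
    W.tr X (sl φ (show L ⊗[W.K] W.H X from x)) = φ (show L from (baseW W L).tr X x) := by
  refine tmul_induction (P := fun x : L ⊗[W.K] W.H X => W.tr X (sl φ x) =
    φ (formBase L (W.tr X) x)) ?_ ?_ ?_ x
  · rw [map_zero, map_zero, map_zero, map_zero]
  · intro x y h1 h2
    rw [map_add, map_add, map_add, map_add, h1, h2]
  · intro l a
    rw [formBase_tmul, sl_tmul, map_smul, smul_eq_mul, mul_comm l, ← Algebra.smul_def, map_smul,
      smul_eq_mul, mul_comm]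

/-- The class of an operator. -/
def IsOpClass {W : WeilCohomology.{u, 0} ops} {X : 𝒱.Obj} (p : Module.End W.K (W.H X))
    (c : W.H (X.prod X)) : Prop :=
  ∀ a b, W.tr (X.prod X) (c * (W.map (fst X X) a * W.map (snd X X) b)) = W.tr X (p a * b)

/-- The slice of an operator on the cohomology. -/
noncomputable def slo (φ : L →ₗ[W.K] W.K) (π : Module.End (baseW W L).K ((baseW W L).H X)) :
    Module.End W.K (W.H X) :=
  slOp φ (show L ⊗[W.K] W.H X →ₗ[L] L ⊗[W.K] W.H X from π)

theorem slo_apply (φ : L →ₗ[W.K] W.K) (π : Module.End (baseW W L).K ((baseW W L).H X))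
    (a : W.H X) : slo φ π a = sl φ (show L ⊗[W.K] W.H X from π (em W L a)) := rfl

theorem opclass_slice {π : Module.End (baseW W L).K ((baseW W L).H X)}
    {c : (baseW W L).H (X.prod X)} (hc : IsOpClass π c) (φ : L →ₗ[W.K] W.K) :
    IsOpClass (slo φ π) (sl φ (show L ⊗[W.K] W.H (X.prod X) from c)) := by
  intro a b
  have h1 := sl_mul_left φ (show L ⊗[W.K] W.H (X.prod X) from c)
    (W.map (fst X X) a * W.map (snd X X) b)
  have h2 := sl_mul_left φ (show L ⊗[W.K] W.H X from π (em W L a)) b
  rw [slo_apply]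
  rw [← h1, ← h2]
  have h3 := sl_tr φ (c * em W L (W.map (fst X X) a * W.map (snd X X) b))
  have h4 := sl_tr φ (π (em W L a) * em W L b)
  refine h3.trans (Eq.trans ?_ h4.symm)
  rw [em_mul, ← em_map, ← em_map, hc]

/-- The extension of an operator. -/
noncomputable def opE (L : Type) [Field L] [Algebra W.K L] (f : Module.End W.K (W.H X)) :
    Module.End (baseW W L).K ((baseW W L).H X) :=
  (f.baseChange L : L ⊗[W.K] W.H X →ₗ[L] L ⊗[W.K] W.H X)

theorem opE_em (f : Module.End W.K (W.H X)) (c : W.H X) :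
    opE L f (em W L c) = em W L (f c) := LinearMap.baseChange_tmul _ _ _

theorem opclass_em {f : Module.End W.K (W.H X)} {c : W.H (X.prod X)} (hc : IsOpClass f c) :
    IsOpClass (opE L f) (em W L c) := by
  intro a b
  refine tmul_ind (p := fun a => (baseW W L).tr (X.prod X) (em W L c *
    ((baseW W L).map (fst X X) a * (baseW W L).map (snd X X) b)) =
      (baseW W L).tr X (opE L f a * b)) ?_ ?_ ?_ a
  · simp only [map_zero, zero_mul, mul_zero]
  · intro x y h1 h2
    rw [map_add, add_mul, mul_add, map_add, h1, h2, map_add, add_mul, map_add]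
  · intro l a
    refine tmul_ind (p := fun b => (baseW W L).tr (X.prod X) (em W L c *
      ((baseW W L).map (fst X X) (show (baseW W L).H X from (l ⊗ₜ[W.K] a)) *
        (baseW W L).map (snd X X) b)) =
        (baseW W L).tr X (opE L f (show (baseW W L).H X from (l ⊗ₜ[W.K] a)) * b)) ?_ ?_ ?_ b
    · simp only [map_zero, mul_zero]
    · intro x y h1 h2
      rw [map_add, mul_add, mul_add, map_add, h1, h2, mul_add, map_add]
    · intro l' b
      rw [tmul_eq, tmul_eq, map_smul, map_smul, map_smul, opE_em, em_map, em_map]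
      simp only [smul_mul_assoc, mul_smul_comm, map_smul]
      rw [← em_mul, ← em_mul, ← em_mul, em_tr, em_tr, hc]

/-- The slices of combinations of classes. -/
theorem sl_span {Y : 𝒱.Obj} {S : Set (W.H Y)} {x : (baseW W L).H Y} {S' : Set ((baseW W L).H Y)}
    (hS : ∀ y ∈ S', ∃ c ∈ Submodule.span W.K S, y = em W L c)
    (hx : x ∈ Submodule.span (baseW W L).K S') (φ : L →ₗ[W.K] W.K) :
    sl φ (show L ⊗[W.K] W.H Y from x) ∈ Submodule.span W.K S := by
  have key : ∀ x ∈ Submodule.span (baseW W L).K S', ∀ l : (baseW W L).K,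
      sl φ (show L ⊗[W.K] W.H Y from l • x) ∈ Submodule.span W.K S := by
    intro x hx
    induction hx using Submodule.span_induction with
    | mem y hy =>
      intro l
      obtain ⟨c, hc, rfl⟩ := hS y hy
      have h1 := tmul_eq (W := W) (L := L) (show L from l) c
      have h2 := sl_tmul φ (show L from l) c
      have h3 : sl φ (show L ⊗[W.K] W.H Y from l • em W L c) = φ (show L from l) • c :=
        (congrArg (fun y : L ⊗[W.K] W.H Y => sl φ y) h1.symm).trans h2
      rw [h3]
      exact Submodule.smul_mem _ _ hc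
    | zero =>
      intro l
      have h1 : sl φ (show L ⊗[W.K] W.H Y from l • (0 : (baseW W L).H Y)) = 0 := by
        have h2 : (l • (0 : (baseW W L).H Y)) = 0 := smul_zero l
        rw [h2]
        exact map_zero (sl φ)
      rw [h1]
      exact Submodule.zero_mem _
    | add a b _ _ ha hb =>
      intro l
      have h1 : sl φ (show L ⊗[W.K] W.H Y from l • (a + b)) =
          sl φ (show L ⊗[W.K] W.H Y from l • a) + sl φ (show L ⊗[W.K] W.H Y from l • b) := by
        have h2 : l • (a + b) = l • a + l • b := smul_add l a b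
        rw [h2]
        exact map_add (sl φ) _ _
      rw [h1]
      exact Submodule.add_mem _ (ha l) (hb l)
    | smul r a _ ha =>
      intro l
      have h1 := ha (l * r)
      rw [mul_smul] at h1
      exact h1
  have h1 := key x hx 1
  rw [one_smul] at h1
  exact h1

end slice

section hodge

variable {T : HodgeTheory ops} {X : 𝒱.Obj}

theorem nhs_tr [Nontrivial (T.W.H X)] (χ : ℂ →ₗ[T.W.K] T.W.K) :
    TrDer (nhs T χ X) ((X.dim : T.W.K) * χ 1) := by
  obtain ⟨l, hl, hl1⟩ := exists_tr_hodge T X
  exact trDer_of_top (nhs_gr χ) hl.1 (by rw [hl1]; exact one_ne_zero) (nhs_hodge χ hl)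

theorem nhs_prod (hX : AbType T.W X) (χ : ℂ →ₗ[T.W.K] T.W.K) :
    nhs T χ (X.prod X) = kOp (nhs T χ X) (nhs T χ X) := by
  have h1 := nhs_eq hX χ 1
  have h2 := nhs_eq hX χ 0
  have h3 : DL hX 1 (nh1 T χ X) = kOp (DL hX 0 (nh1 T χ X)) (DL hX 0 (nh1 T χ X)) := rfl
  exact h1.trans (h3.trans (congrArg₂ (fun a b => kOp (W := T.W) (X := X) (Y := X) a b)
    h2.symm h2.symm))

/-- The class of an operator is a Hodge class if and only if the operator commutes with the slices
of the Hodge operator. -/
theorem hodge_opclass (hX : AbType T.W X) {f : Module.End T.W.K (T.W.H X)} (hf : PresGr f)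
    {c : T.W.H (X.prod X)} (hc : IsOpClass f c) :
    IsHodge T (X.prod X) X.dim c ↔
      ∀ χ : ℂ →ₗ[T.W.K] T.W.K, ∀ a, f (nhs T χ X a) = nhs T χ X (f a) := by
  have := hX.nt
  constructor
  · intro h χ
    refine (der_opclass (nhs_gr χ) (nhs_der χ) (nhs_tr χ) hc).1 ?_
    rw [← nhs_prod hX χ]
    exact nhs_hodge χ h
  · intro h
    refine isHodge_of_nhs (opclass_gr hf hc) fun χ => ?_
    rw [nhs_prod hX χ]
    exact (der_opclass (nhs_gr χ) (nhs_der χ) (nhs_tr χ) hc).2 (h χ)

end hodge

end Pool.Agent.P8H28.SQ
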