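import Pool.Agent.P8H28.SQ.Corr

/-!
# Derivations of the cohomology of the powers of an abelian variety
-/

set_option linter.unusedSectionVars false

open CategoryTheory AlgebraicGeometry TensorProduct

universe u v

namespace Pool.Agent.P8H28.SQ

open Module
open Pool.Agent.Y121.AH (dia dia_apply)
open Pool.Agent.Y133.Half (pw)
open Pool.Agent.H914 Pool.Agent.H914.VarClass Pool.Agent.H914.VarClass.Obj
  Pool.Agent.H914.WeilCohomology

variable {k : Type u} [Field k] {𝒱 : VarClass k} {ops : CycleOps 𝒱}
  {W : WeilCohomology.{u, v} ops} {X Y : 𝒱.Obj}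

/-- The cohomology of `X` is like the cohomology of an abelian variety. -/
structure AbType (W : WeilCohomology.{u, v} ops) (X : 𝒱.Obj) : Prop where
  gen : Algebra.adjoin W.K (W.gr X 1 : Set (W.H X)) = ⊤
  dim : finrank W.K (W.gr X 1) = 2 * X.dim
  nt : Nontrivial (W.H X)

theorem sq_zero (v : W.gr X 1) : (W.gr X 1).subtype v * (W.gr X 1).subtype v = 0 := by
  have h1 := W.comm v.2 v.2
  rw [mul_one, pow_one, neg_smul, one_smul] at h1
  have h2 : (2 : W.K) • ((v : W.H X) * v) = 0 := by
    rw [two_smul]
    nth_rewrite 2 [h1]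
    rw [add_neg_cancel]
  exact (smul_eq_zero.1 h2).resolve_left two_ne_zero

theorem exists_top (hX : AbType W X) :
    ∃ v : Fin (finrank W.K (W.gr X 1)) → W.gr X 1, pL (W.gr X 1).subtype v ≠ 0 := by
  have := hX.nt
  by_contra hcon
  push Not at hcon
  have key : ∀ l : List (W.H X), (∀ x ∈ l, x ∈ W.gr X 1) → l.prod ∈ W.gr X l.length := by
    intro l
    induction l with
    | nil => intro _; rw [List.prod_nil]; exact W.one_mem X
    | cons a l ih =>
      intro h
      rw [List.prod_cons, List.length_cons, add_comm]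
      exact W.mul_mem (h a (List.mem_cons_self ..)) (ih fun x hx => h x (List.mem_cons_of_mem _ hx))
  have h0 : ∀ x : W.H X, W.tr X x = 0 := by
    intro x
    have hx : x ∈ Subalgebra.toSubmodule (Algebra.adjoin W.K (W.gr X 1 : Set (W.H X))) := by
      rw [hX.gen]; trivial
    rw [Algebra.adjoin_eq_span] at hx
    induction hx using Submodule.span_induction with
    | mem x hx =>
      obtain ⟨l, hl, rfl⟩ := Submonoid.exists_list_of_mem_closure hx
      by_cases hd : l.length = 2 * X.dim
      · have hd' : l.length = finrank W.K (W.gr X 1) := by rw [hd, hX.dim]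
        have h1 := hcon (fun i => ⟨l.get (Fin.cast hd'.symm i), hl _ (List.get_mem _ _)⟩)
        have h2 : (List.ofFn fun i : Fin (finrank W.K (W.gr X 1)) =>
            l.get (Fin.cast hd'.symm i)) = l := by
          have h3 := List.ofFn_get l
          rw [← List.ofFn_congr hd' (fun i => l.get i)]
          exact h3
        have h3 : l.prod = 0 := by
          rw [← h2]
          exact h1
        rw [h3, map_zero]
      · exact W.tr_eq_zero (key l hl) hd
    | zero => exact map_zero _
    | add x y _ _ hx hy => rw [map_add, hx, hy, add_zero]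
    | smul c x _ hx => rw [map_smul, hx, smul_zero]
  exact one_ne_zero (W.nondeg (1 : W.H X) fun b => h0 _)

theorem gen_range (hX : AbType W X) :
    Algebra.adjoin W.K (Set.range (W.gr X 1).subtype) = ⊤ := by
  rw [← hX.gen]
  congr 1
  exact Subtype.range_coe

/-- The derivation of the cohomology of `X` given by an operator on `H^1`. -/
noncomputable def der0 (hX : AbType W X) :
    Module.End W.K (W.gr X 1) →ₗ[W.K] Module.End W.K (W.H X) :=
  Classical.choose (exists_derLin (W.gr X 1).subtype sq_zero (exists_top hX) (gen_range hX))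

theorem der0_der (hX : AbType W X) (x : Module.End W.K (W.gr X 1)) : IsDer (der0 hX x) :=
  (Classical.choose_spec (exists_derLin (W.gr X 1).subtype sq_zero (exists_top hX)
    (gen_range hX)) x).1

theorem der0_apply (hX : AbType W X) (x : Module.End W.K (W.gr X 1)) (v : W.gr X 1) :
    der0 hX x v = x v :=
  (Classical.choose_spec (exists_derLin (W.gr X 1).subtype sq_zero (exists_top hX)
    (gen_range hX)) x).2 v

theorem presGr_of_der (hX : AbType W X) {D : Module.End W.K (W.H X)} (hD : IsDer D)
    (h1 : ∀ v ∈ W.gr X 1, D v ∈ W.gr X 1) : PresGr D := by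
  rw [presGr_iff]
  have h2 : (dg W X * D - D * dg W X : Module.End W.K (W.H X)) = 0 := by
    refine (dg_der.bracket hD).ext (fun a b => by
      rw [LinearMap.zero_apply, LinearMap.zero_apply, LinearMap.zero_apply, zero_mul, mul_zero,
        add_zero]) hX.gen ?_
    intro v hv
    rw [LinearMap.sub_apply, Module.End.mul_apply, Module.End.mul_apply, dg_apply hv,
      dg_apply (h1 v hv), map_smul, sub_self]
    rfl
  intro a
  have h3 := congrArg (fun F : Module.End W.K (W.H X) => F a) h2
  rw [LinearMap.zero_apply] at h3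
  exact sub_eq_zero.1 h3

theorem der0_gr (hX : AbType W X) (x : Module.End W.K (W.gr X 1)) : PresGr (der0 hX x) :=
  presGr_of_der hX (der0_der hX x) fun v hv => by
    rw [der0_apply hX x ⟨v, hv⟩]
    exact (x ⟨v, hv⟩).2

/-- The derivations of the cohomology of the powers given by an operator on `H^1`. -/
noncomputable def DL (hX : AbType W X) : ∀ n : ℕ,
    Module.End W.K (W.gr X 1) →ₗ[W.K] Module.End W.K (W.H (pw X n))
  | 0 => der0 hX
  | n + 1 =>
    { toFun := fun x => kOp (DL hX n x) (der0 hX x)
      map_add' := fun x y => by rw [map_add, map_add, kOp_add]; rfl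
      map_smul' := fun c x => by rw [map_smul, map_smul, kOp_smul, RingHom.id_apply]; rfl }

theorem DL_zero (hX : AbType W X) (x : Module.End W.K (W.gr X 1)) : DL hX 0 x = der0 hX x := rfl

theorem DL_succ (hX : AbType W X) (n : ℕ) (x : Module.End W.K (W.gr X 1)) :
    DL hX (n + 1) x = kOp (DL hX n x) (der0 hX x) := rfl

theorem DL_gr (hX : AbType W X) (x : Module.End W.K (W.gr X 1)) (n : ℕ) : PresGr (DL hX n x) := by
  induction n with
  | zero => exact der0_gr hX x
  | succ n ih => exact kOp_gr ih (der0_gr hX x)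

theorem DL_der (hX : AbType W X) (x : Module.End W.K (W.gr X 1)) (n : ℕ) : IsDer (DL hX n x) := by
  induction n with
  | zero => exact der0_der hX x
  | succ n ih => exact kOp_der (DL_gr hX x n) (der0_gr hX x) ih (der0_der hX x)

theorem kOp_fst {D : Module.End W.K (W.H X)} {E : Module.End W.K (W.H Y)} (hE : IsDer E)
    (a : W.H X) : kOp D E (W.map (fst X Y) a) = W.map (fst X Y) (D a) := by
  have h1 := kOp_apply D E a 1
  rw [map_one, mul_one, mul_one, hE.one, map_zero, mul_zero, add_zero] at h1
  exact h1

theorem kOp_snd {D : Module.End W.K (W.H X)} {E : Module.End W.K (W.H Y)} (hD : IsDer D)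
    (b : W.H Y) : kOp D E (W.map (snd X Y) b) = W.map (snd X Y) (E b) := by
  have h1 := kOp_apply D E 1 b
  rw [map_one, one_mul, one_mul, hD.one, map_zero, zero_mul, zero_add] at h1
  exact h1

theorem DL_fst (hX : AbType W X) (x : Module.End W.K (W.gr X 1)) (n : ℕ) (a : W.H (pw X n)) :
    DL hX (n + 1) x (W.map (fst (pw X n) X) a) = W.map (fst (pw X n) X) (DL hX n x a) :=
  kOp_fst (der0_der hX x) a

theorem DL_snd (hX : AbType W X) (x : Module.End W.K (W.gr X 1)) (n : ℕ) (b : W.H X) :
    DL hX (n + 1) x (W.map (snd (pw X n) X) b) = W.map (snd (pw X n) X) (der0 hX x b) :=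
  kOp_snd (DL_der hX x n) b

/-- A family of derivations which extends the operator `x`. -/
structure IsExt (x : Module.End W.K (W.gr X 1)) (F : ∀ n, Module.End W.K (W.H (pw X n))) :
    Prop where
  der : ∀ n, IsDer (F n)
  fst : ∀ n a, F (n + 1) (W.map (fst (pw X n) X) a) = W.map (fst (pw X n) X) (F n a)
  snd : ∀ n b, F (n + 1) (W.map (snd (pw X n) X) b) = W.map (snd (pw X n) X) (F 0 b)
  zero : ∀ v : W.gr X 1, F 0 (v : W.H X) = (x v : W.H X)

theorem IsExt.eq (hX : AbType W X) {x : Module.End W.K (W.gr X 1)}
    {F : ∀ n, Module.End W.K (W.H (pw X n))} (h : IsExt x F) (n : ℕ) : F n = DL hX n x := by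
  have h0 : F 0 = der0 hX x := by
    refine (h.der 0).ext (der0_der hX x) hX.gen fun v hv => ?_
    exact (h.zero ⟨v, hv⟩).trans (der0_apply hX x ⟨v, hv⟩).symm
  induction n with
  | zero => exact h0
  | succ n ih =>
    refine LinearMap.ext fun c => ?_
    refine kun_ind (X := pw X n) (Y := X) (P := fun c => F (n + 1) c = DL hX (n + 1) x c) ?_ ?_ c
    · intro i j a _ b _
      have h1 := h.der (n + 1) (W.map (VarClass.Obj.fst (pw X n) X) a)
        (W.map (VarClass.Obj.snd (pw X n) X) b)
      have h2 := DL_der hX x (n + 1) (W.map (VarClass.Obj.fst (pw X n) X) a)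
        (W.map (VarClass.Obj.snd (pw X n) X) b)
      rw [h.fst, h.snd, ih, h0] at h1
      rw [DL_fst, DL_snd] at h2
      exact h1.trans h2.symm
    · intro a b ha hb
      have h1 := map_add (F (n + 1)) a b
      have h2 := map_add (DL hX (n + 1) x) a b
      exact (h1.trans (congrArg₂ (· + ·) ha hb)).trans h2.symm

theorem DL_isExt (hX : AbType W X) (x : Module.End W.K (W.gr X 1)) :
    IsExt x fun n => DL hX n x where
  der := DL_der hX x
  fst := DL_fst hX x
  snd := DL_snd hX x
  zero := der0_apply hX x

/-- The derivations respect the brackets. -/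
theorem DL_bracket (hX : AbType W X) (x y : Module.End W.K (W.gr X 1)) (n : ℕ) :
    DL hX n (x * y - y * x) = DL hX n x * DL hX n y - DL hX n y * DL hX n x := by
  symm
  refine IsExt.eq hX (F := fun n => DL hX n x * DL hX n y - DL hX n y * DL hX n x) ?_ n
  refine ⟨fun n => (DL_der hX x n).bracket (DL_der hX y n), fun n a => ?_, fun n b => ?_,
    fun v => ?_⟩
  · rw [LinearMap.sub_apply, Module.End.mul_apply, Module.End.mul_apply, DL_fst, DL_fst, DL_fst,
      DL_fst]
    exact (map_sub (W.map (fst (pw X n) X)) _ _).symm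
  · rw [LinearMap.sub_apply, Module.End.mul_apply, Module.End.mul_apply, DL_snd, DL_snd, DL_snd,
      DL_snd]
    exact (map_sub (W.map (snd (pw X n) X)) _ _).symm
  · change der0 hX x (der0 hX y v) - der0 hX y (der0 hX x v) = _
    rw [der0_apply, der0_apply, der0_apply, der0_apply]
    rfl

end Pool.Agent.P8H28.SQ
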