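import Pool.Agent.P8H28.SQ.HEnd

/-!
# The polarisation on `H^1`
-/

set_option linter.unusedSectionVars false

open CategoryTheory AlgebraicGeometry TensorProduct

universe u

namespace Pool.Agent.P8H28.SQ

open Module
open Pool.Agent.Y121 (AHS.HodgeTheory)
open Pool.Agent.Y121.AHS (toH)
open Pool.Agent.Y121.AH (em em_add CW tmul_eq dia dia_apply)
open Pool.Agent.N996.FP (RForm IsPolarisation)
open Pool.Agent.Y133.Half (pw)
open Pool.Agent.H914 Pool.Agent.H914.VarClass Pool.Agent.H914.VarClass.Obj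
  Pool.Agent.H914.WeilCohomology

variable {k : Type u} [Field k] {𝒱 : VarClass k} {ops : CycleOps 𝒱}
  {T : Pool.Agent.Y121.AHS.HodgeTheory ops} {X : 𝒱.Obj}

/-- The extension of the form. -/
noncomputable def bC {K A : Type} [Field K] [Algebra K ℂ] [Ring A] [Algebra K A]
    (ψ : A →ₗ[K] A →ₗ[K] K) : LinearMap.BilinForm ℂ (ℂ ⊗[K] A) :=
  LinearMap.BilinForm.baseChange ℂ ψ

theorem bC_tmul {K A : Type} [Field K] [Algebra K ℂ] [Ring A] [Algebra K A]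
    (ψ : A →ₗ[K] A →ₗ[K] K) (z w : ℂ) (a b : A) :
    bC ψ (z ⊗ₜ[K] a) (w ⊗ₜ[K] b) = (w * z) * algebraMap K ℂ (ψ a b) := by
  unfold bC
  rw [LinearMap.BilinForm.baseChange_tmul, Algebra.smul_def, mul_comm, mul_comm z w]

theorem sl_bC_left {K A : Type} [Field K] [Algebra K ℂ] [Ring A] [Algebra K A]
    (ψ : A →ₗ[K] A →ₗ[K] K) (χ : ℂ →ₗ[K] K) (x : ℂ ⊗[K] A) (b : A) :
    χ (bC ψ x ((1 : ℂ) ⊗ₜ[K] b)) = ψ (sl χ x) b := by
  refine tmul_induction (P := fun x => χ (bC ψ x ((1 : ℂ) ⊗ₜ[K] b)) = ψ (sl χ x) b) ?_ ?_ ?_ x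
  · rw [map_zero, map_zero, LinearMap.zero_apply, map_zero, map_zero, LinearMap.zero_apply]
  · intro x y h1 h2
    rw [map_add, map_add, LinearMap.add_apply, map_add, map_add, LinearMap.add_apply, h1, h2]
  · intro l a
    rw [bC_tmul, sl_tmul, one_mul, mul_comm, ← Algebra.smul_def, map_smul, map_smul,
      LinearMap.smul_apply, smul_eq_mul, smul_eq_mul, mul_comm]

theorem sl_bC_right {K A : Type} [Field K] [Algebra K ℂ] [Ring A] [Algebra K A]
    (ψ : A →ₗ[K] A →ₗ[K] K) (χ : ℂ →ₗ[K] K) (x : ℂ ⊗[K] A) (a : A) :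
    χ (bC ψ ((1 : ℂ) ⊗ₜ[K] a) x) = ψ a (sl χ x) := by
  refine tmul_induction (P := fun x => χ (bC ψ ((1 : ℂ) ⊗ₜ[K] a) x) = ψ a (sl χ x)) ?_ ?_ ?_ x
  · rw [map_zero, map_zero, map_zero, map_zero]
  · intro x y h1 h2
    rw [map_add, map_add, map_add, map_add, h1, h2]
  · intro l b
    rw [bC_tmul, sl_tmul, mul_one, mul_comm, ← Algebra.smul_def, map_smul, map_smul,
      smul_eq_mul, smul_eq_mul, mul_comm]

theorem toH_span (T : Pool.Agent.Y121.AHS.HodgeTheory ops) (X : 𝒱.Obj) (i : ℕ) :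
    (CW (toH T)).gr X i = ⨆ r : {r : ℤ × ℤ // r.1 + r.2 = ((i : ℕ) : ℤ)},
      (toH T).pq X r.1.1 r.1.2 := T.span X i

theorem orthC {ψ : RForm T.W X} (hψ : IsPolarisation T X ψ) {p q r s : ℤ}
    {x y : (CW (toH T)).H X} (hx : x ∈ (toH T).pq X p q) (hy : y ∈ (toH T).pq X r s)
    (h : r ≠ q ∨ s ≠ p) :
    bC ψ (show ℂ ⊗[T.W.K] T.W.H X from x) (show ℂ ⊗[T.W.K] T.W.H X from y) = 0 :=
  hψ.orth p q r s x y hx hy h

theorem psi_nh {ψ : RForm T.W X} (hψ : IsPolarisation T X ψ) {x y : (CW (toH T)).H X}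
    (hx : x ∈ (CW (toH T)).gr X 1) (hy : y ∈ (CW (toH T)).gr X 1) :
    bC ψ (show ℂ ⊗[T.W.K] T.W.H X from nh (toH T) X x) (show ℂ ⊗[T.W.K] T.W.H X from y) +
      bC ψ (show ℂ ⊗[T.W.K] T.W.H X from x) (show ℂ ⊗[T.W.K] T.W.H X from nh (toH T) X y) =
      bC ψ (show ℂ ⊗[T.W.K] T.W.H X from x) (show ℂ ⊗[T.W.K] T.W.H X from y) := by
  rw [toH_span] at hx hy
  let B : (CW (toH T)).H X → (CW (toH T)).H X → ℂ := fun x y =>
    bC ψ (show ℂ ⊗[T.W.K] T.W.H X from x) (show ℂ ⊗[T.W.K] T.W.H X from y)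
  have hBa : ∀ x x' y, B (x + x') y = B x y + B x' y := fun x x' y => by
    exact (congrArg (fun f : (ℂ ⊗[T.W.K] T.W.H X) →ₗ[ℂ] ℂ => f y)
      (map_add (bC ψ) (show ℂ ⊗[T.W.K] T.W.H X from x) (show ℂ ⊗[T.W.K] T.W.H X from x'))).trans
      (LinearMap.add_apply _ _ _)
  have hBb : ∀ x y y', B x (y + y') = B x y + B x y' := fun x y y' =>
    map_add (bC ψ (show ℂ ⊗[T.W.K] T.W.H X from x)) y y'
  have hB0 : ∀ y, B 0 y = 0 := fun y => by
    have h := hBa 0 0 y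
    rw [add_zero] at h
    exact left_eq_add.1 h
  have hB0' : ∀ y, B y 0 = 0 := fun y => by
    have h := hBb y 0 0
    rw [add_zero] at h
    exact left_eq_add.1 h
  have hBs : ∀ (c : (CW (toH T)).K) x y, B (c • x) y = (show ℂ from c) * B x y :=
    fun c x y => by
      exact (congrArg (fun f : (ℂ ⊗[T.W.K] T.W.H X) →ₗ[ℂ] ℂ => f y)
        (map_smul (bC ψ) (show ℂ from c) (show ℂ ⊗[T.W.K] T.W.H X from x))).trans
        (LinearMap.smul_apply _ _ _)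
  have hBs' : ∀ (c : (CW (toH T)).K) x y, B x (c • y) = (show ℂ from c) * B x y :=
    fun c x y => map_smul (bC ψ (show ℂ ⊗[T.W.K] T.W.H X from x)) (show ℂ from c)
      (show ℂ ⊗[T.W.K] T.W.H X from y)
  change B (nh (toH T) X x) y + B x (nh (toH T) X y) = B x y
  refine Submodule.iSup_induction
    (fun r : {r : ℤ × ℤ // r.1 + r.2 = ((1 : ℕ) : ℤ)} => (toH T).pq X r.1.1 r.1.2)
    (motive := fun x => B (nh (toH T) X x) y + B x (nh (toH T) X y) = B x y) hx ?_ ?_ ?_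
  · rintro ⟨⟨p, q⟩, hpq⟩ x hx
    refine Submodule.iSup_induction
      (fun r : {r : ℤ × ℤ // r.1 + r.2 = ((1 : ℕ) : ℤ)} => (toH T).pq X r.1.1 r.1.2)
      (motive := fun y => B (nh (toH T) X x) y + B x (nh (toH T) X y) = B x y) hy ?_ ?_ ?_
    · rintro ⟨⟨r, s⟩, hrs⟩ y hy
      rw [nh_pq hx, nh_pq hy, hBs, hBs']
      by_cases h : r ≠ q ∨ s ≠ p
      · have h1 : B x y = 0 := orthC hψ hx hy h
        rw [h1, mul_zero, mul_zero, add_zero]
      · push Not at h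
        obtain ⟨rfl, rfl⟩ := h
        have h2 : s + r = 1 := by simpa using hpq
        have h3 : ((s : ℤ) : ℂ) + ((r : ℤ) : ℂ) = 1 := by
          rw [← Int.cast_add, h2, Int.cast_one]
        change ((s : ℤ) : ℂ) * B x y + ((r : ℤ) : ℂ) * B x y = B x y
        rw [← add_mul, h3, one_mul]
    · rw [map_zero, hB0', hB0', add_zero]
    · intro y y' h1 h2
      rw [map_add, hBb, hBb, hBb, ← h1, ← h2]
      ring
  · rw [map_zero, hB0, hB0, add_zero]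
  · intro x x' h1 h2
    rw [map_add, hBa, hBa, hBa, ← h1, ← h2]
    ring

/-- The slices of the Hodge operator and the polarisation. -/
theorem psi_nhs {ψ : RForm T.W X} (hψ : IsPolarisation T X ψ) (χ : ℂ →ₗ[T.W.K] T.W.K)
    {a b : T.W.H X} (ha : a ∈ T.W.gr X 1) (hb : b ∈ T.W.gr X 1) :
    ψ (nhs (toH T) χ X a) b + ψ a (nhs (toH T) χ X b) = χ 1 * ψ a b := by
  have h1 := congrArg χ (psi_nh hψ (Pool.Agent.Y121.AH.em_gr ha : em T.W ℂ a ∈ _)
    (Pool.Agent.Y121.AH.em_gr hb : em T.W ℂ b ∈ _))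
  rw [map_add] at h1
  have h2 := sl_bC_left ψ χ (show ℂ ⊗[T.W.K] T.W.H X from nh (toH T) X (em T.W ℂ a)) b
  have h3 := sl_bC_right ψ χ (show ℂ ⊗[T.W.K] T.W.H X from nh (toH T) X (em T.W ℂ b)) a
  have h4 := sl_bC_left ψ χ ((1 : ℂ) ⊗ₜ[T.W.K] a) b
  rw [sl_tmul, map_smul, LinearMap.smul_apply, smul_eq_mul] at h4
  rw [← h4]
  exact (congrArg₂ (· + ·) h2.symm h3.symm).trans h1

/-- The polarisation is nondegenerate on `H^1`. -/
theorem psi_nondeg {ψ : RForm T.W X} (hψ : IsPolarisation T X ψ) {a : T.W.H X}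
    (ha : a ∈ T.W.gr X 1) (h : ∀ b ∈ T.W.gr X 1, ψ a b = 0) : a = 0 := by
  classical
  have h1 : ∀ y ∈ (CW (toH T)).gr X 1, bC ψ ((1 : ℂ) ⊗ₜ[T.W.K] a)
      (show ℂ ⊗[T.W.K] T.W.H X from y) = 0 := by
    intro y hy
    refine base_induction (P := fun y : ℂ ⊗[T.W.K] T.W.H X =>
      bC ψ ((1 : ℂ) ⊗ₜ[T.W.K] a) y = 0) ?_ ?_ ?_ hy
    · rw [map_zero]
    · intro x y h1 h2
      rw [map_add, h1, h2, add_zero]
    · intro l b hb
      rw [bC_tmul, h b hb, map_zero, mul_zero]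
  have h2 : (show (CW (toH T)).H X from em T.W ℂ a) ∈ (CW (toH T)).gr X 1 :=
    Pool.Agent.Y121.AH.em_gr ha
  rw [toH_span] at h2
  obtain ⟨f, hf, hsum⟩ := (Submodule.mem_iSup_iff_exists_finsupp _ _).1 h2
  have h3 : ∀ r, f r = 0 := by
    intro r
    by_contra hne
    have h4 : Pool.Agent.N996.FP.conjH T (f r) ∈ (toH T).pq X r.1.2 r.1.1 :=
      hψ.conj r.1.1 r.1.2 (f r) (hf r)
    have h5 : (show (CW (toH T)).H X from Pool.Agent.N996.FP.conjH T (f r)) ∈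
        (CW (toH T)).gr X 1 := by
      rw [toH_span]
      exact Submodule.mem_iSup_of_mem ⟨(r.1.2, r.1.1), by rw [add_comm]; exact r.2⟩ h4
    have h6 := h1 _ h5
    have h7 : bC ψ ((1 : ℂ) ⊗ₜ[T.W.K] a)
        (show ℂ ⊗[T.W.K] T.W.H X from Pool.Agent.N996.FP.conjH T (f r)) =
        bC ψ (show ℂ ⊗[T.W.K] T.W.H X from f r)
          (show ℂ ⊗[T.W.K] T.W.H X from Pool.Agent.N996.FP.conjH T (f r)) := by
      have h8 : ((1 : ℂ) ⊗ₜ[T.W.K] a) = ∑ s ∈ f.support, (show ℂ ⊗[T.W.K] T.W.H X from f s) :=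
        hsum.symm
      rw [h8, map_sum, LinearMap.sum_apply]
      refine (Finset.sum_eq_single r ?_ ?_)
      · intro s _ hs
        refine orthC hψ (hf s) h4 ?_
        by_contra hcon
        push Not at hcon
        exact hs (Subtype.ext (Prod.ext hcon.2.symm hcon.1.symm))
      · intro hr
        exact absurd (Finsupp.notMem_support_iff.1 hr) hne
    rw [h6] at h7
    obtain ⟨t, ht, h8⟩ := hψ.pos r.1.1 r.1.2 (f r) (hf r) hne
    have h9 : Pool.Agent.N996.FP.formC T ψ (f r) (Pool.Agent.N996.FP.conjH T (f r)) = 0 := h7.symm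
    rw [h9, mul_zero] at h8
    have h10 : (t : ℂ) = 0 := h8.symm
    exact ht.ne' (by exact_mod_cast h10)
  have h4 : em T.W ℂ a = 0 := hsum.symm.trans (Finset.sum_eq_zero fun r _ => h3 r)
  exact Pool.Agent.Y121.AH.em_injective h4

end Pool.Agent.P8H28.SQ
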