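import Pool.Agent.P8H28.SQ.Ann
import Pool.Agent.W522.U.C8

/-!
# Slices: coordinates of vectors and operators after an extension of the coefficients
-/

set_option linter.unusedSectionVars false

open TensorProduct

namespace Pool.Agent.P8H28.SQ

open Module

section

variable {K L V V' : Type*} [Field K] [Field L] [Algebra K L] [AddCommGroup V] [Module K V]
  [AddCommGroup V'] [Module K V']

/-- The slice of a vector. -/
noncomputable def sl (φ : L →ₗ[K] K) : L ⊗[K] V →ₗ[K] V :=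
  (TensorProduct.lid K V).toLinearMap ∘ₗ φ.rTensor V

theorem sl_tmul (φ : L →ₗ[K] K) (l : L) (v : V) : sl φ (l ⊗ₜ[K] v) = φ l • v := by
  unfold sl
  rw [LinearMap.comp_apply, LinearMap.rTensor_tmul, LinearEquiv.coe_coe, TensorProduct.lid_tmul]

theorem sl_base (φ : L →ₗ[K] K) (F : V →ₗ[K] V') (x : L ⊗[K] V) :
    sl φ (F.baseChange L x) = F (sl φ x) := by
  induction x using TensorProduct.induction_on with
  | zero => simp only [map_zero]
  | add x y hx hy => rw [map_add, map_add, map_add, map_add, hx, hy]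
  | tmul l v => rw [LinearMap.baseChange_tmul, sl_tmul, sl_tmul, map_smul]

theorem sl_smul (φ : L →ₗ[K] K) (c : K) (x : L ⊗[K] V) :
    sl φ (algebraMap K L c • x) = c • sl φ x := by
  rw [algebraMap_smul, map_smul]

/-- Every vector is a combination of its slices. -/
theorem mem_span_sl (x : L ⊗[K] V) :
    x ∈ Submodule.span L {y | ∃ φ : L →ₗ[K] K, y = (1 : L) ⊗ₜ[K] sl φ x} := by
  classical
  obtain ⟨b, hb⟩ := TensorProduct.eq_repr_basis_left (Module.Free.chooseBasis K L) x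
  have h1 : ∀ i, sl ((Module.Free.chooseBasis K L).coord i) x = b i := by
    intro i
    rw [← hb, Finsupp.sum, map_sum]
    simp only [sl_tmul, Basis.coord_apply, Basis.repr_self]
    rw [Finset.sum_eq_single i]
    · rw [Finsupp.single_eq_same, one_smul]
    · intro k _ hk
      rw [Finsupp.single_apply, if_neg hk, zero_smul]
    · intro hi
      rw [Finsupp.notMem_support_iff.1 hi, smul_zero]
  rw [← hb, Finsupp.sum]
  refine Submodule.sum_mem _ fun i _ => ?_
  have h2 : (Module.Free.chooseBasis K L) i ⊗ₜ[K] b i =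
      (Module.Free.chooseBasis K L) i • ((1 : L) ⊗ₜ[K] b i) := by
    rw [TensorProduct.smul_tmul', smul_eq_mul, mul_one]
  rw [h2]
  refine Submodule.smul_mem _ _ (Submodule.subset_span ⟨(Module.Free.chooseBasis K L).coord i, ?_⟩)
  rw [Finsupp.sum] at hb
  rw [hb, h1]

theorem eq_zero_of_sl {x : L ⊗[K] V} (h : ∀ φ : L →ₗ[K] K, sl φ x = 0) : x = 0 := by
  have h1 := mem_span_sl x
  have h2 : {y | ∃ φ : L →ₗ[K] K, y = (1 : L) ⊗ₜ[K] sl φ x} ⊆ {(0 : L ⊗[K] V)} := by
    rintro _ ⟨φ, rfl⟩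
    rw [h φ, TensorProduct.tmul_zero]
    rfl
  have h3 := Submodule.span_mono h2 h1
  rwa [Submodule.span_singleton_eq_bot.2 rfl, Submodule.mem_bot] at h3

theorem eq_of_sl {x y : L ⊗[K] V} (h : ∀ φ : L →ₗ[K] K, sl φ x = sl φ y) : x = y := by
  rw [← sub_eq_zero]
  exact eq_zero_of_sl fun φ => by rw [map_sub, h, sub_self]

/-- The slice of an operator. -/
noncomputable def slOp (φ : L →ₗ[K] K) (F : L ⊗[K] V →ₗ[L] L ⊗[K] V') : V →ₗ[K] V' :=
  sl φ ∘ₗ F.restrictScalars K ∘ₗ TensorProduct.mk K L V 1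

theorem slOp_apply (φ : L →ₗ[K] K) (F : L ⊗[K] V →ₗ[L] L ⊗[K] V') (v : V) :
    slOp φ F v = sl φ (F ((1 : L) ⊗ₜ[K] v)) := rfl

end

section

variable {K L A : Type*} [Field K] [Field L] [Algebra K L] [Ring A] [Algebra K A]

theorem sl_mem (φ : L →ₗ[K] K) {U : Submodule K A} {x : L ⊗[K] A} (hx : x ∈ U.baseChange L) :
    sl φ x ∈ U := by
  refine Pool.Agent.H914.base_induction (P := fun x => sl φ x ∈ U) ?_ ?_ ?_ hx
  · change sl φ (0 : L ⊗[K] A) ∈ U
    rw [map_zero]
    exact U.zero_mem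
  · intro x y h1 h2
    change sl φ (x + y) ∈ U
    rw [map_add]
    exact U.add_mem h1 h2
  · intro l a ha
    change sl φ (l ⊗ₜ[K] a) ∈ U
    rw [sl_tmul]
    exact U.smul_mem _ ha

theorem sl_mul_left (φ : L →ₗ[K] K) (x : L ⊗[K] A) (b : A) :
    sl φ (x * (1 : L) ⊗ₜ[K] b) = sl φ x * b := by
  induction x using TensorProduct.induction_on with
  | zero => rw [zero_mul, map_zero, zero_mul]
  | add x y hx hy => rw [add_mul, map_add, map_add, hx, hy, add_mul]
  | tmul l v =>
    rw [Algebra.TensorProduct.tmul_mul_tmul, mul_one, sl_tmul, sl_tmul, smul_mul_assoc]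

theorem sl_mul_right (φ : L →ₗ[K] K) (x : L ⊗[K] A) (b : A) :
    sl φ ((1 : L) ⊗ₜ[K] b * x) = b * sl φ x := by
  induction x using TensorProduct.induction_on with
  | zero => rw [mul_zero, map_zero, mul_zero]
  | add x y hx hy => rw [mul_add, map_add, map_add, hx, hy, mul_add]
  | tmul l v =>
    rw [Algebra.TensorProduct.tmul_mul_tmul, one_mul, sl_tmul, sl_tmul, mul_smul_comm]

/-- The slice of a derivation. -/
theorem slOp_der (φ : L →ₗ[K] K) {F : L ⊗[K] A →ₗ[L] L ⊗[K] A} (hF : IsDer F) :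
    IsDer (slOp φ F) := by
  intro a b
  rw [slOp_apply, slOp_apply, slOp_apply]
  have h1 : (1 : L) ⊗ₜ[K] (a * b) = (1 : L) ⊗ₜ[K] a * (1 : L) ⊗ₜ[K] b := by
    rw [Algebra.TensorProduct.tmul_mul_tmul, mul_one]
  rw [h1, hF, map_add, sl_mul_left, sl_mul_right]

end

end Pool.Agent.P8H28.SQ
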