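import Pool.Agent.P8H28.SQ.Core

/-!
# The trace form of a Lie algebra which contains the replicas of its elements
-/

namespace Pool.Agent.P8H28.SQ

open Module

open scoped Classical

section replica

variable {K V : Type*} [Field K] [AddCommGroup V] [Module K V]

/-- The operator `y` acts on the generalized eigenspace of `Y` with eigenvalue `μ` by `φ μ`. -/
def IsReplica (φ : K → K) (Y y : Module.End K V) : Prop :=
  ∀ μ, ∀ v ∈ Y.maxGenEigenspace μ, y v = φ μ • v

variable [FiniteDimensional K V] [IsAlgClosed K]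

theorem internal_mgs (Y : Module.End K V) :
    DirectSum.IsInternal fun μ => Y.maxGenEigenspace μ :=
  DirectSum.isInternal_submodule_of_iSupIndep_of_iSup_eq_top
    Y.independent_maxGenEigenspace Y.iSup_maxGenEigenspace_eq_top

theorem exists_replica (φ : K → K) (Y : Module.End K V) : ∃ y, IsReplica φ Y y := by
  have h := internal_mgs Y
  let b := h.collectedBasis fun μ => finBasis K (Y.maxGenEigenspace μ)
  refine ⟨b.constr K fun i => φ i.1 • b i, fun μ v hv => ?_⟩
  have h1 : (⟨v, hv⟩ : Y.maxGenEigenspace μ) =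
      ∑ i, (finBasis K (Y.maxGenEigenspace μ)).repr ⟨v, hv⟩ i •
        finBasis K (Y.maxGenEigenspace μ) i := (Basis.sum_repr _ _).symm
  have h2 := congrArg (fun x : Y.maxGenEigenspace μ => (x : V)) h1
  simp only [Submodule.coe_sum, Submodule.coe_smul] at h2
  rw [h2, map_sum, Finset.smul_sum]
  refine Finset.sum_congr rfl fun i _ => ?_
  have h3 : ((finBasis K (Y.maxGenEigenspace μ) i : Y.maxGenEigenspace μ) : V) = b ⟨μ, i⟩ := by
    rw [DirectSum.IsInternal.collectedBasis_coe]
  rw [map_smul, h3, Basis.constr_basis, smul_comm]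

theorem trace_restrict_mgs (Y : Module.End K V) (μ : K)
    (h : Set.MapsTo Y (Y.maxGenEigenspace μ) (Y.maxGenEigenspace μ)) :
    LinearMap.trace K _ (Y.restrict h) = μ * finrank K (Y.maxGenEigenspace μ) := by
  have h1 := Y.isNilpotent_restrict_maxGenEigenspace_sub_algebraMap μ
  have h2 := (LinearMap.isNilpotent_trace_of_isNilpotent h1).eq_zero
  have h3 : (Y - algebraMap K (Module.End K V) μ).restrict
      (Y.mapsTo_maxGenEigenspace_of_comm (Algebra.mul_sub_algebraMap_commutes Y μ) μ) =
      Y.restrict h - μ • (1 : Module.End K (Y.maxGenEigenspace μ)) := by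
    refine LinearMap.ext fun x => Subtype.ext ?_
    simp [Algebra.algebraMap_eq_smul_one]
  rw [h3, map_sub, map_smul, LinearMap.trace_one, smul_eq_mul, sub_eq_zero] at h2
  exact h2

theorem trace_replica {φ : K → K} {Y y : Module.End K V} (h : IsReplica φ Y y) :
    LinearMap.trace K V (y * Y) =
      ∑ᶠ μ, φ μ * (μ * finrank K (Y.maxGenEigenspace μ)) := by
  have hY : ∀ μ, Set.MapsTo Y (Y.maxGenEigenspace μ) (Y.maxGenEigenspace μ) := fun μ =>
    Y.mapsTo_maxGenEigenspace_of_comm (Commute.refl Y) μ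
  have hyY : ∀ μ, Set.MapsTo (y * Y) (Y.maxGenEigenspace μ) (Y.maxGenEigenspace μ) := by
    intro μ v hv
    change y (Y v) ∈ _
    rw [h μ _ (hY μ hv)]
    exact Submodule.smul_mem _ _ (hY μ hv)
  have hfin : {μ | Y.maxGenEigenspace μ ≠ ⊥}.Finite :=
    WellFoundedGT.finite_ne_bot_of_iSupIndep Y.independent_maxGenEigenspace
  rw [LinearMap.trace_eq_sum_trace_restrict' (internal_mgs Y) hfin hyY]
  rw [finsum_eq_finsetSum_of_support_subset (s := hfin.toFinset)]
  · refine Finset.sum_congr rfl fun μ _ => ?_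
    have h1 : (y * Y).restrict (hyY μ) = φ μ • Y.restrict (hY μ) := by
      refine LinearMap.ext fun v => Subtype.ext ?_
      change y (Y v) = φ μ • Y v
      exact h μ _ (hY μ v.2)
    rw [h1, map_smul, trace_restrict_mgs, smul_eq_mul]
  · intro μ hμ
    rw [Function.mem_support] at hμ
    rw [Set.Finite.coe_toFinset, Set.mem_ofPred_eq]
    intro h0
    apply hμ
    rw [h0, finrank_bot, Nat.cast_zero, mul_zero, mul_zero]

variable [CharZero K]

/-- If all traces with the replicas vanish, the operator is nilpotent. -/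
theorem nilpotent_of_replicas {Y : Module.End K V}
    (h : ∀ φ : K →+ ℚ, ∀ y, IsReplica (fun μ => (φ μ : K)) Y y →
      LinearMap.trace K V (y * Y) = 0) : IsNilpotent Y := by
  have hfin : {μ | Y.maxGenEigenspace μ ≠ ⊥}.Finite :=
    WellFoundedGT.finite_ne_bot_of_iSupIndep Y.independent_maxGenEigenspace
  have key : ∀ μ, μ ≠ 0 → Y.maxGenEigenspace μ = ⊥ := by
    intro μ0 hμ0
    by_contra hne
    obtain ⟨ψ, hψ⟩ : ∃ ψ : K →ₗ[ℚ] ℚ, ψ μ0 ≠ 0 := by
      by_contra hcon
      push Not at hcon
      exact hμ0 ((Module.forall_dual_apply_eq_zero_iff ℚ μ0).1 hcon)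
    obtain ⟨y, hy⟩ := exists_replica (fun μ => ((ψ.toAddMonoidHom μ : ℚ) : K)) Y
    have h1 := h ψ.toAddMonoidHom y hy
    rw [trace_replica hy, finsum_eq_finsetSum_of_support_subset (s := hfin.toFinset)] at h1
    · have h2 : ∑ μ ∈ hfin.toFinset, (ψ μ * finrank K (Y.maxGenEigenspace μ)) • μ = 0 := by
        rw [← h1]
        refine Finset.sum_congr rfl fun μ _ => ?_
        rw [Rat.smul_def]
        push_cast
        change ((ψ μ : ℚ) : K) * _ * μ = ((ψ μ : ℚ) : K) * (μ * _)
        ring
      have h3 := congrArg ψ h2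
      rw [map_sum, map_zero] at h3
      have h4 : ∀ μ ∈ hfin.toFinset,
          ψ ((ψ μ * finrank K (Y.maxGenEigenspace μ)) • μ) = 0 := by
        refine (Finset.sum_eq_zero_iff_of_nonneg fun μ _ => ?_).1 h3
        rw [map_smul, smul_eq_mul, mul_right_comm]
        exact mul_nonneg (mul_self_nonneg _) (Nat.cast_nonneg _)
      have h5 := h4 μ0 (hfin.mem_toFinset.2 hne)
      rw [map_smul, smul_eq_mul, mul_right_comm] at h5
      rcases mul_eq_zero.1 h5 with h6 | h6
      · exact hψ (mul_self_eq_zero.1 h6)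
      · rw [Nat.cast_eq_zero, Submodule.finrank_eq_zero] at h6
        exact hne h6
    · intro μ hμ
      rw [Function.mem_support] at hμ
      rw [Set.Finite.coe_toFinset, Set.mem_ofPred_eq]
      intro h0
      apply hμ
      rw [h0, finrank_bot, Nat.cast_zero, mul_zero, mul_zero]
  have h1 : Y.maxGenEigenspace 0 = ⊤ := by
    rw [eq_top_iff, ← Y.iSup_maxGenEigenspace_eq_top]
    refine iSup_le fun μ => ?_
    by_cases hμ : μ = 0
    · rw [hμ]
    · rw [key μ hμ]
      exact bot_le
  refine ⟨finrank K V, LinearMap.ext fun v => ?_⟩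
  have h2 : v ∈ Y.maxGenEigenspace 0 := by
    rw [h1]
    trivial
  rw [Module.End.maxGenEigenspace_eq_genEigenspace_finrank, Module.End.mem_genEigenspace_nat,
    LinearMap.mem_ker, zero_smul, sub_zero] at h2
  exact h2

end replica

end Pool.Agent.P8H28.SQ
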